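import Pool.Agent.Q191.TW.Wea

/-!
The rank of the lattice of the labels of the weave.
-/

set_option autoImplicit false

namespace Pool.Agent.Q191.TW

open Finset

theorem evp_inj {s : ℕ} {k k' : Fin (s + 1)} : evp k = evp k' ↔ k = k' := by
  constructor
  · intro h
    have := congrArg Fin.val h
    simp only [evp] at this
    exact Fin.ext (by omega)
  · rintro rfl; rfl

theorem odp_inj {s : ℕ} {k k' : Fin (s + 1)} : odp k = odp k' ↔ k = k' := by
  constructor
  · intro h
    have := congrArg Fin.val h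
    simp only [odp] at this
    exact Fin.ext (by omega)
  · rintro rfl; rfl

theorem evp_ne_odp {s : ℕ} (k k' : Fin (s + 1)) : evp k ≠ odp k' := by
  intro h
  have := congrArg Fin.val h
  simp only [odp, evp] at this
  omega

theorem fr_odp_ne {s : ℕ} (k k' : Fin (s + 1)) : fr s (odp k) ≠ odp k' := by
  intro h
  have h1 := fr_par (odp k)
  rw [h] at h1
  simp only [odp] at h1
  omega

theorem fr_evp_ne {s : ℕ} (k k' : Fin (s + 1)) : fr s (evp k) ≠ evp k' := by
  intro h
  have h1 := fr_par (evp k)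
  rw [h] at h1
  simp only [evp] at h1
  omega

theorem fr_odp_succ {s : ℕ} (k : Fin s) : fr s (odp k.castSucc) = evp k.succ := by
  apply Fin.ext
  unfold fr
  rw [coe_finRotate, if_neg]
  · simp only [odp, evp, Fin.val_castSucc, Fin.val_succ]
    ring
  · intro h
    have := congrArg Fin.val h
    simp only [odp, Fin.val_last, Fin.val_castSucc] at this
    have := k.2
    omega

theorem fr_odp_iff {s : ℕ} (k' : Fin (s + 1)) (k : Fin s) :
    fr s (odp k') = evp k.succ ↔ k' = k.castSucc := by
  rw [← fr_odp_succ, (fr s).injective.eq_iff, odp_inj]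

theorem sg_iff {s n R : ℕ} (j' : Fin (n + 1)) (j : Fin n) (i i' : Fin (2 * s + 1 + 1)) :
    sg s n R j' i = (j.succ, i') ↔ j' = j.castSucc ∧ i = i' := by
  unfold sg
  refine Fin.lastCases ?_ (fun j'' => ?_) j'
  · rw [Fin.lastCases_last]
    constructor
    · intro h
      exact absurd (congrArg Prod.fst h).symm (Fin.succ_ne_zero j)
    · rintro ⟨h, _⟩
      exact absurd h.symm (Fin.castSucc_lt_last j).ne
  · rw [Fin.lastCases_castSucc]
    simp only [Prod.mk.injEq, Fin.succ_inj, Fin.castSucc_inj]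

/-- vertices of the weave -/
abbrev Vx (s n : ℕ) := (Fin (n + 1) × Fin (s + 1)) ⊕ (Fin (n + 1) × Fin (s + 1))

/-- the boundary -/
def bd (s n r : ℕ) : (Ed s n → ℤ) →ₗ[ℤ] (Vx s n → ℤ) where
  toFun x := Sum.elim
    (fun k => x ((weave s n r).pc k) + x ((weave s n r).pd k) -
      (x ((weave s n r).pa k) + x ((weave s n r).pb k)))
    (fun k => x ((weave s n r).qc k) + x ((weave s n r).qd k) -
      (x ((weave s n r).qa k) + x ((weave s n r).qb k)))
  map_add' x y := by
    funext v
    rcases v with k | k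
    · simp only [Sum.elim_inl, Pi.add_apply]; ring
    · simp only [Sum.elim_inr, Pi.add_apply]; ring
  map_smul' c x := by
    funext v
    rcases v with k | k
    · simp only [Sum.elim_inl, Pi.smul_apply, smul_eq_mul, RingHom.id_apply]; ring
    · simp only [Sum.elim_inr, Pi.smul_apply, smul_eq_mul, RingHom.id_apply]; ring

theorem ker_bd (s n r : ℕ) : LinearMap.ker (bd s n r) = (weave s n r).La := by
  ext x
  rw [LinearMap.mem_ker, Net.mem_La]
  constructor
  · intro h
    refine ⟨fun k => ?_, fun k => ?_⟩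
    · have := congrFun h (Sum.inl k)
      simp only [bd, LinearMap.coe_mk, AddHom.coe_mk, Sum.elim_inl, Pi.zero_apply] at this
      linarith
    · have := congrFun h (Sum.inr k)
      simp only [bd, LinearMap.coe_mk, AddHom.coe_mk, Sum.elim_inr, Pi.zero_apply] at this
      linarith
  · rintro ⟨h1, h2⟩
    funext v
    rcases v with k | k
    · simp only [bd, LinearMap.coe_mk, AddHom.coe_mk, Sum.elim_inl, Pi.zero_apply]
      linarith [h1 k]
    · simp only [bd, LinearMap.coe_mk, AddHom.coe_mk, Sum.elim_inr, Pi.zero_apply]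
      linarith [h2 k]

theorem bd_a (s n r : ℕ) (j : Fin (n + 1)) (k : Fin (s + 1)) :
    bd s n r (Pi.single (true, j, odp k) 1) =
      Pi.single (Sum.inr (j, k)) 1 - Pi.single (Sum.inl (j, k)) 1 := by
  funext v
  rcases v with ⟨j', k'⟩ | ⟨j', k'⟩
  · simp only [bd, weave, LinearMap.coe_mk, AddHom.coe_mk, Sum.elim_inl, Pi.single_apply,
      Pi.sub_apply, Prod.mk.injEq, odp_inj, evp_ne_odp, reduceCtorEq, false_and, and_false, if_false,
      true_and, Sum.inl.injEq]
    ring
  · simp only [bd, weave, LinearMap.coe_mk, AddHom.coe_mk, Sum.elim_inr, Pi.single_apply,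
      Pi.sub_apply, Prod.mk.injEq, odp_inj, fr_evp, fr_odp_ne, reduceCtorEq, false_and, and_false,
      if_false, true_and, Sum.inr.injEq]
    ring

theorem bd_b (s n r : ℕ) (j : Fin (n + 1)) (k : Fin s) :
    bd s n r (Pi.single (true, j, evp k.succ) 1) =
      Pi.single (Sum.inr (j, k.castSucc)) 1 - Pi.single (Sum.inl (j, k.succ)) 1 := by
  funext v
  rcases v with ⟨j', k'⟩ | ⟨j', k'⟩
  · simp only [bd, weave, LinearMap.coe_mk, AddHom.coe_mk, Sum.elim_inl, Pi.single_apply,
      Pi.sub_apply, Prod.mk.injEq, evp_inj, (evp_ne_odp _ _).symm, reduceCtorEq, false_and,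
      and_false, if_false, true_and, Sum.inl.injEq]
    ring
  · simp only [bd, weave, LinearMap.coe_mk, AddHom.coe_mk, Sum.elim_inr, Pi.single_apply,
      Pi.sub_apply, Prod.mk.injEq, fr_odp_iff, fr_evp_ne, reduceCtorEq, false_and, and_false,
      if_false, true_and, Sum.inr.injEq]
    ring

theorem bd_c (s n r : ℕ) (j : Fin n) (k : Fin (s + 1)) :
    bd s n r (Pi.single (false, j.succ, odp k) 1) =
      Pi.single (Sum.inl (j.succ, k)) 1 - Pi.single (Sum.inr (j.castSucc, k)) 1 := by
  funext v
  rcases v with ⟨j', k'⟩ | ⟨j', k'⟩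
  · simp only [bd, weave, LinearMap.coe_mk, AddHom.coe_mk, Sum.elim_inl, Pi.single_apply,
      Pi.sub_apply, Prod.mk.injEq, odp_inj, evp_ne_odp, reduceCtorEq, false_and, and_false, if_false,
      true_and, Sum.inl.injEq]
    ring
  · simp only [bd, weave, LinearMap.coe_mk, AddHom.coe_mk, Sum.elim_inr, Pi.single_apply,
      Pi.sub_apply, Prod.mk.injEq, sg_iff, fr_evp, odp_inj, fr_odp_ne, reduceCtorEq, false_and,
      and_false, if_false, true_and, Sum.inr.injEq]
    ring

/-- the difference of two vertices is a boundary -/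
def Cn (s n r : ℕ) (v v' : Vx s n) : Prop :=
  (Pi.single v 1 - Pi.single v' 1 : Vx s n → ℤ) ∈ LinearMap.range (bd s n r)

theorem Cn.symm {s n r : ℕ} {v v' : Vx s n} (h : Cn s n r v v') : Cn s n r v' v := by
  have := Submodule.neg_mem _ h
  rwa [neg_sub] at this

theorem Cn.trans {s n r : ℕ} {v v' v'' : Vx s n} (h : Cn s n r v v') (h' : Cn s n r v' v'') :
    Cn s n r v v'' := by
  have := Submodule.add_mem _ h h'
  rwa [sub_add_sub_cancel] at this

theorem Cn_all (s n r : ℕ) (v : Vx s n) : Cn s n r v (Sum.inl (0, 0)) := by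
  have ha : ∀ j k, Cn s n r (Sum.inr (j, k)) (Sum.inl (j, k)) := fun j k => ⟨_, bd_a s n r j k⟩
  have hb : ∀ j (k : Fin s), Cn s n r (Sum.inr (j, k.castSucc)) (Sum.inl (j, k.succ)) :=
    fun j k => ⟨_, bd_b s n r j k⟩
  have hc : ∀ (j : Fin n) k, Cn s n r (Sum.inl (j.succ, k)) (Sum.inr (j.castSucc, k)) :=
    fun j k => ⟨_, bd_c s n r j k⟩
  have h1 : ∀ (j : Fin (n + 1)) (k : Fin (s + 1)), Cn s n r (Sum.inl (j, k)) (Sum.inl (j, 0)) := by
    intro j k
    induction k using Fin.induction with
    | zero => exact (ha j 0).symm.trans (ha j 0)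
    | succ k ih => exact ((hb j k).symm.trans (ha j _)).trans ih
  have h2 : ∀ j : Fin (n + 1), Cn s n r (Sum.inl (j, 0)) (Sum.inl (0, 0)) := by
    intro j
    induction j using Fin.induction with
    | zero => exact (ha 0 0).symm.trans (ha 0 0)
    | succ j ih => exact ((hc j 0).trans (ha _ 0)).trans ih
  rcases v with ⟨j, k⟩ | ⟨j, k⟩
  · exact (h1 j k).trans (h2 j)
  · exact ((ha j k).trans (h1 j k)).trans (h2 j)

/-- the sum of the coefficients -/
def sgm (s n : ℕ) : (Vx s n → ℤ) →ₗ[ℤ] ℤ := ∑ v, LinearMap.proj v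

theorem sgm_apply (s n : ℕ) (f : Vx s n → ℤ) : sgm s n f = ∑ v, f v := by
  simp [sgm]

theorem sg_bij (s n R : ℕ) : Function.Bijective
    (fun q : Fin (n + 1) × Fin (2 * s + 1 + 1) => sg s n R q.1 q.2) := by
  rw [Fintype.bijective_iff_injective_and_card]
  refine ⟨?_, rfl⟩
  rintro ⟨j, i⟩ ⟨j', i'⟩ h
  have hinj : Function.Injective ((fr s)^[R]) := (fr s).injective.iterate R
  revert h
  refine Fin.lastCases ?_ (fun a => ?_) j
  · refine Fin.lastCases ?_ (fun b => ?_) j'
    · intro h
      simp only [sg, Fin.lastCases_last, Prod.mk.injEq, true_and] at h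
      rw [hinj h]
    · intro h
      simp only [sg, Fin.lastCases_last, Fin.lastCases_castSucc, Prod.mk.injEq] at h
      exact absurd h.1.symm (Fin.succ_ne_zero b)
  · refine Fin.lastCases ?_ (fun b => ?_) j'
    · intro h
      simp only [sg, Fin.lastCases_last, Fin.lastCases_castSucc, Prod.mk.injEq] at h
      exact absurd h.1 (Fin.succ_ne_zero a)
    · intro h
      simp only [sg, Fin.lastCases_castSucc, Prod.mk.injEq, Fin.succ_inj] at h
      rw [h.1, h.2]

theorem range_bd (s n r : ℕ) : LinearMap.range (bd s n r) = LinearMap.ker (sgm s n) := by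
  apply le_antisymm
  · rintro f ⟨x, rfl⟩
    rw [LinearMap.mem_ker, sgm_apply, Fintype.sum_sum_type]
    have hT : ∀ (b : Bool), ∑ q : Fin (n + 1) × Fin (s + 1), (x (b, q.1, evp q.2) +
        x (b, q.1, odp q.2)) = ∑ q : Fin (n + 1) × Fin (2 * s + 1 + 1), x (b, q) := by
      intro b
      rw [Fintype.sum_prod_type, Fintype.sum_prod_type]
      refine Finset.sum_congr rfl fun j _ => ?_
      exact (sum_pairs (fun i => x (b, j, i))).symm
    have hF : ∀ g : Fin (n + 1) → Fin (2 * s + 1 + 1) → ℤ,
        ∑ q : Fin (n + 1) × Fin (s + 1), (g q.1 (fr s (evp q.2)) + g q.1 (fr s (odp q.2))) =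
        ∑ q : Fin (n + 1) × Fin (2 * s + 1 + 1), g q.1 q.2 := by
      intro g
      rw [Fintype.sum_prod_type, Fintype.sum_prod_type]
      refine Finset.sum_congr rfl fun j _ => ?_
      rw [← sum_pairs (fun i => g j (fr s i))]
      exact Equiv.sum_comp (fr s) (fun i => g j i)
    have h1 : ∑ q : Fin (n + 1) × Fin (s + 1), (x (false, q.1, evp q.2) +
        x (false, q.1, odp q.2) - (x (true, q.1, evp q.2) + x (true, q.1, odp q.2))) =
        ∑ q, x (false, q) - ∑ q, x (true, q) := by
      rw [Finset.sum_sub_distrib, hT, hT]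
    have h2 : ∑ q : Fin (n + 1) × Fin (s + 1), (x (true, q.1, fr s (evp q.2)) +
        x (true, q.1, fr s (odp q.2)) - (x (false, sg s n (2 * r) q.1 (fr s (evp q.2))) +
        x (false, sg s n (2 * r) q.1 (fr s (odp q.2))))) =
        ∑ q, x (true, q) - ∑ q, x (false, q) := by
      rw [Finset.sum_sub_distrib, hF (fun j i => x (true, j, i)),
        hF (fun j i => x (false, sg s n (2 * r) j i))]
      congr 1
      exact (sg_bij s n (2 * r)).sum_comp (fun q => x (false, q))
    have h3 : ∀ q, bd s n r x (Sum.inl q) = x (false, q.1, evp q.2) +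
        x (false, q.1, odp q.2) - (x (true, q.1, evp q.2) + x (true, q.1, odp q.2)) := fun q => rfl
    have h4 : ∀ q, bd s n r x (Sum.inr q) = x (true, q.1, fr s (evp q.2)) +
        x (true, q.1, fr s (odp q.2)) - (x (false, sg s n (2 * r) q.1 (fr s (evp q.2))) +
        x (false, sg s n (2 * r) q.1 (fr s (odp q.2)))) := fun q => rfl
    simp only [h3, h4]
    rw [h1, h2]
    ring
  · intro f hf
    rw [LinearMap.mem_ker, sgm_apply] at hf
    have h1 : f = ∑ v, f v • ((Pi.single v 1 - Pi.single (Sum.inl (0, 0)) 1 : Vx s n → ℤ)) := by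
      simp only [smul_sub, Finset.sum_sub_distrib]
      rw [← Finset.sum_smul, hf, zero_smul, sub_zero]
      funext u
      rw [Finset.sum_apply, Finset.sum_eq_single u]
      · simp
      · intro b _ hb
        simp [hb.symm]
      · intro h; exact absurd (Finset.mem_univ _) h
    rw [h1]
    exact Submodule.sum_mem _ fun v _ => Submodule.smul_mem _ _ (Cn_all s n r v)

theorem rank_null {M M' : Type} [AddCommGroup M] [AddCommGroup M'] [Module.Finite ℤ M]
    (f : M →ₗ[ℤ] M') : Module.finrank ℤ (LinearMap.range f) + Module.finrank ℤ (LinearMap.ker f) =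
      Module.finrank ℤ M := by
  rw [← (LinearMap.quotKerEquivRange f).finrank_eq]
  exact Submodule.finrank_quotient_add_finrank _

theorem rank_La (s n r : ℕ) :
    Module.finrank ℤ (weave s n r).La = 2 * ((n + 1) * (s + 1)) + 1 := by
  have h1 := rank_null (bd s n r)
  have h2 := rank_null (sgm s n)
  have h3 : LinearMap.range (sgm s n) = ⊤ := by
    rw [LinearMap.range_eq_top]
    intro m
    refine ⟨Pi.single (Sum.inl (0, 0)) m, ?_⟩
    rw [sgm_apply]
    simp
  rw [h3, finrank_top] at h2
  rw [range_bd, ker_bd] at h1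
  have h4 : Module.finrank ℤ (Vx s n → ℤ) = 2 * ((n + 1) * (s + 1)) := by
    rw [Module.finrank_fintype_fun_eq_card]
    simp
    ring
  have h5 : Module.finrank ℤ (Ed s n → ℤ) = 4 * ((n + 1) * (s + 1)) := by
    rw [Module.finrank_fintype_fun_eq_card]
    simp
    ring
  rw [h4, Module.finrank_self] at h2
  rw [h5] at h1
  omega

end Pool.Agent.Q191.TW
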