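import Pool.Agent.Q191.TW.Wea

/-!
The phases of the rotations in the weave, and the trace as a sum over the labels of the edges.
-/

set_option autoImplicit false

namespace Pool.Agent.Q191.TW

open Matrix Finset Filter Topology Pool.Agent.H550R3.Jones
open Pool.Agent.W715.VC hiding LL

/-- the phases of the rotations -/
noncomputable def wrest (s n r N : ℕ) (x : Ed s n → Fin N) : ℂ :=
  (∏ j : Fin (n + 1), Phi N (2 * s + 1 + 1) (x (false, sg s n (2 * r) j 0))
    (tl fun i => x (false, sg s n (2 * r) j i)) /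
      Phi N (2 * s + 1 + 1) (x (true, j, 0)) (tl fun i => x (true, j, i))) *
  ∏ i ∈ range (2 * r), Phi N (2 * s + 1 + 1) (x (false, 0, (fr s)^[i] 0))
    (tl fun i => x (false, 0, i))

theorem tl_cons {s n r N : ℕ} (x : Ed s n → Fin N) (hx : toZ x ∈ (weave s n r).La)
    (j : Fin (n + 1)) : (tl fun i => x (false, sg s n (2 * r) j i)) = tl fun i => x (true, j, i) := by
  have h1 : ∀ g : Fin (2 * s + 1 + 1) → ℕ, ∑ i, g i =
      ∑ k : Fin (s + 1), (g (fr s (evp k)) + g (fr s (odp k))) := by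
    intro g
    rw [← Equiv.sum_comp (fr s) g]
    exact sum_pairs _
  unfold tl
  rw [h1, h1]
  refine Finset.sum_congr rfl fun k _ => ?_
  have h2 := hx.2 (j, k)
  have h3 : ((x (true, j, fr s (evp k)) : ℕ) : ℤ) + (x (true, j, fr s (odp k)) : ℕ) =
      (x (false, sg s n (2 * r) j (fr s (evp k))) : ℕ) +
      (x (false, sg s n (2 * r) j (fr s (odp k))) : ℕ) := h2
  beta_reduce
  omega

theorem rho_sum (s n r r' : ℕ) : ∑ i ∈ range (2 * r),
    ((((weave s n r').rho (false, 0, (fr s)^[i] 0) : ℤ) : ℝ)) = 4 * r := by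
  have h : ∀ i : ℕ, (((weave s n r').rho (false, 0, (fr s)^[i] 0) : ℤ) : ℝ) =
      if i % 2 = 0 then 3 else 1 := by
    intro i
    rw [weave_rho]
    have h1 := fr_iter_par (s := s) i 0
    have h2 : ((0 : Fin (2 * s + 1 + 1)) : ℕ) = 0 := rfl
    rw [h2, zero_add] at h1
    simp only [h1]
    split_ifs <;> norm_num
  simp only [h]
  induction r with
  | zero => simp
  | succ r ih =>
    have : 2 * (r + 1) = 2 * r + 1 + 1 := rfl
    rw [this, Finset.sum_range_succ, Finset.sum_range_succ, ih, if_pos (by omega), if_neg (by omega)]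
    push_cast
    ring

theorem lab_dev {s n N : ℕ} (r : ℕ) (x : Ed s n → Fin N) (e : Ed s n) :
    ((x e : ℕ) : ℝ) = N * (1 / 4 * (((weave s n r).rho e : ℤ) : ℝ)) +
      (weave s n r).dv N (toZ x) e := by
  unfold Net.dv toZ
  push_cast
  ring

/-- **The phases of the rotations.** -/
theorem wrest_eq {s n r N : ℕ} (hN : 0 < N) (x : Ed s n → Fin N)
    (hx : toZ x ∈ (weave s n r).La) :
    wrest s n r N x = cs N (wka s r N) * cs N (wRQ s n r ((weave s n r).dv N (toZ x)) +
      wRL s n r ((weave s n r).dv N (toZ x))) := by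
  set u := (weave s n r).dv N (toZ x) with hu
  have h1 : ∀ j : Fin (n + 1), Phi N (2 * s + 1 + 1) (x (false, sg s n (2 * r) j 0))
    (tl fun i => x (false, sg s n (2 * r) j i)) /
      Phi N (2 * s + 1 + 1) (x (true, j, 0)) (tl fun i => x (true, j, i)) =
      cs N (-2 * (del r j u * tau true j u) + -(2 * (s : ℝ) + 2) * del r j u) := by
    intro j
    rw [tl_cons x hx j, Phi_cs, Phi_cs, div_eq_mul_inv, ← cs_neg, ← cs_add]
    have hd : del r j u = ((x (false, sg s n (2 * r) j 0) : ℕ) : ℝ) - ((x (true, j, 0) : ℕ) : ℝ) := by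
      rw [lab_dev r x, lab_dev r x, ← hu, del, weave_rho, weave_rho]
      have h2 := sg_par (s := s) (n := n) r j 0
      have h3 : ((0 : Fin (2 * s + 1 + 1)) : ℕ) = 0 := rfl
      rw [h3] at h2
      simp only at h2 ⊢
      rw [if_pos h2, h3, if_pos rfl]
      ring
    apply cs_period' hN (((x (false, sg s n (2 * r) j 0) : ℕ) : ℤ) - ((x (true, j, 0) : ℕ) : ℤ))
    rw [tl_dev (r := r) true j x, ← hu, hd]
    push_cast
    ring
  have h2 : ∀ i ∈ range (2 * r), Phi N (2 * s + 1 + 1) (x (false, 0, (fr s)^[i] 0))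
      (tl fun i => x (false, 0, i)) =
      cs N (((N : ℝ) - 1) * (2 * s + 3 + N * (s + 1)) + ((N : ℝ) - 1) * tau false 0 u -
        (2 * s + 2 + 2 * tau false 0 u) * (N * (1 / 4 *
          (((weave s n r).rho (false, 0, (fr s)^[i] 0) : ℤ) : ℝ)) + u (false, 0, (fr s)^[i] 0))) := by
    intro i _
    rw [Phi_cs]
    apply cs_period' hN ((x (false, 0, (fr s)^[i] 0) : ℕ) : ℤ)
    rw [tl_dev (r := r) false 0 x, ← hu, hu, ← lab_dev r x, ← hu]
    push_cast
    ring
  unfold wrest
  rw [Finset.prod_congr rfl h2]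
  simp only [h1]
  rw [cs_sum, cs_sum, ← cs_add, ← cs_add]
  congr 1
  have h3 := rho_sum s n r r
  unfold wRQ wRL wka xis
  have h4 : ∑ i ∈ range (2 * r), ((N : ℝ) * (1 / 4 *
      (((weave s n r).rho (false, 0, (fr s)^[i] 0) : ℤ) : ℝ)) + u (false, 0, (fr s)^[i] 0)) =
      N * r + ∑ i ∈ range (2 * r), u (false, 0, (fr s)^[i] 0) := by
    rw [Finset.sum_add_distrib, ← Finset.mul_sum, ← Finset.mul_sum, h3]
    ring
  rw [Finset.sum_sub_distrib, ← Finset.mul_sum, h4, Finset.sum_const, Finset.card_range,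
    nsmul_eq_mul, Finset.sum_add_distrib]
  push_cast
  ring

/-! ### the trace -/

/-- the labels of the edges as two families of rows -/
def edE (s n N : ℕ) : (Ed s n → Fin N) ≃
    (Fin (n + 1) → Fin (2 * s + 1 + 1) → Fin N) × (Fin (n + 1) → Fin (2 * s + 1 + 1) → Fin N) where
  toFun x := (fun j i => x (false, j, i), fun j i => x (true, j, i))
  invFun q := fun e => if e.1 then q.2 e.2.1 e.2.2 else q.1 e.2.1 e.2.2
  left_inv x := by
    funext e
    obtain ⟨b, j, i⟩ := e
    cases b <;> rfl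
  right_inv q := rfl

/-- the crossings of a layer -/
noncomputable def layM (N s : ℕ) (b : Bool) :
    Matrix (Fin (2 * s + 1 + 1) → Fin N) (Fin (2 * s + 1 + 1) → Fin N) ℂ :=
  rep (crossP N (rt N)) (crossN N (rt N)) (2 * s + 1 + 1) (evW b (s + 1))

theorem layM_apply (N s : ℕ) (b : Bool) (u t : Fin (2 * s + 1 + 1) → Fin N) :
    layM N s b u t = ∏ k : Fin (s + 1), (if b then PP N else QQ N) (u (evp k), u (odp k))
      (t (evp k), t (odp k)) := rep_evW b (s + 1) u t

/-- **The trace as a sum over the labels of the edges of the weave.** -/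
theorem trace_weave (N s n r : ℕ) :
    ((layM N s true * Um N (2 * s + 1) * (layM N s false * Rm N (2 * s + 1))) ^ (n + 1) *
      Rm N (2 * s + 1) ^ (2 * r)).trace =
    ∑ x : Ed s n → Fin N, (weave s n r).wt N x * wrest s n r N x := by
  rw [trace_config, ← Fintype.sum_prod_type', ← Equiv.sum_comp (edE s n N)]
  refine Finset.sum_congr rfl fun x _ => ?_
  have e1 : (edE s n N x).1 = fun j i => x (false, j, i) := rfl
  have e2 : (edE s n N x).2 = fun j i => x (true, j, i) := rfl
  rw [e1, e2]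
  have e3 : ∀ j, nx rot^[2 * r] (fun j i => x (false, j, i)) j =
      fun i => x (false, sg s n (2 * r) j i) := by
    intro j
    funext i
    rw [nx_sg]
  simp only [e3, layM_apply]
  have e4 : ∀ i, (rot^[i] (fun i => x (false, 0, i)) 0 : Fin N) = x (false, 0, (fr s)^[i] 0) :=
    fun i => rot_iter i (fun i => x (false, 0, i)) 0
  simp only [e4]
  rw [Finset.prod_mul_distrib, Finset.prod_mul_distrib]
  unfold Net.wt wrest
  rw [Fintype.prod_prod_type, Fintype.prod_prod_type, mul_assoc]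
  rfl

end Pool.Agent.Q191.TW
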