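import Pool.Agent.Q191.TW.Hat

/-!
The coloured Jones polynomial of the closure of a braid on `k` strands with its axis.
-/

set_option autoImplicit false

namespace Pool.Agent.Q191.TW

open Matrix Finset Pool.Agent.H550R3.Jones Pool.Agent.W715.VC

variable {N : ℕ}

/-- the first half of the axis -/
def axU : ℕ → List (ℕ × Bool)
  | 0 => []
  | k + 1 => (0, true) :: shw (axU k)

/-- the second half of the axis -/
def axD : ℕ → List (ℕ × Bool)
  | 0 => []
  | k + 1 => shw (axD k) ++ [(0, true)]

theorem axU_eq (k : ℕ) : axU k = (List.range k).map fun j => (j, true) := by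
  induction k with
  | zero => rfl
  | succ k ih =>
    rw [axU, ih, List.range_succ_eq_map, List.map_cons, List.map_map, shw, List.map_map]
    rfl

theorem axD_eq (k : ℕ) : axD k = (List.range k).reverse.map fun j => (j, true) := by
  induction k with
  | zero => rfl
  | succ k ih =>
    rw [axD, ih, List.range_succ_eq_map, List.reverse_cons, List.map_append, shw, List.map_map,
      ← List.map_reverse, List.map_map]
    rfl

/-- the coefficient -/
noncomputable def cax (l : List (Fin N)) : ℂ :=
  rt N ^ (-((N : ℤ) - 1) * ((l.length : ℤ) + wl l))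

theorem cax_cons (a : Fin N) (l : List (Fin N)) :
    cax (a :: l) = rt N ^ (-((N : ℤ) - 1) * (1 + (a : ℕ))) * cax l := by
  unfold cax
  rw [← zpow_add₀ (rt_ne N)]
  congr 1
  simp only [List.length_cons, wl]
  push_cast
  ring

theorem run_axU (z : Fin N) (hz : (z : ℕ) = 0) : ∀ (l : List (Fin N)) (g : List (Fin N) → ℂ),
    run (axU l.length) (z :: l) g = cax l * g (l ++ [z])
  | [], g => by simp [axU, run, cax, wl]
  | a :: l, g => by
    simp only [List.length_cons, axU, run, ob, if_true]
    rw [Finset.sum_eq_single (a, z)]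
    · have h1 : PP N (z, a) (a, z) = rt N ^ (-((N : ℤ) - 1) * (1 + (a : ℕ))) :=
        P_zero_val (adm N) hz hz rfl
      rw [h1, run_shw, run_axU z hz l, cax_cons]
      simp only [List.cons_append]
      ring
    · rintro ⟨q1, q2⟩ _ hq
      by_cases h : PP N (z, a) (q1, q2) = 0
      · rw [h, zero_mul]
      · have h' : crossP N (rt N) (z, a) (q1, q2) ≠ 0 := h
        obtain ⟨e1, e2⟩ := P_row_zero (p := (z, a)) hz h'
        exact absurd (Prod.ext e1 (Fin.ext (by simp only at e2 ⊢; omega))) hq
    · intro h; exact absurd (mem_univ _) h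

theorem dl_cons (a b : Fin N) (l t : List (Fin N)) :
    dl (b :: t) (a :: l) = (if a = b then 1 else 0) * dl t l := by
  unfold dl
  by_cases h : a = b
  · simp [h]
  · simp [h]

theorem run_axD (z : Fin N) (hz : (z : ℕ) = 0) : ∀ (t l : List (Fin N)),
    run (axD t.length) l (dl (z :: t)) = cax t * dl (t ++ [z]) l
  | [], l => by simp [axD, run, cax, wl]
  | b :: t, l => by
    have h1 : ∀ l' : List (Fin N), run [(0, true)] l' (dl (z :: b :: t)) =
        rt N ^ (-((N : ℤ) - 1) * (1 + (b : ℕ))) * dl (b :: z :: t) l' := by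
      intro l'
      rcases l' with _ | ⟨a1, _ | ⟨a2, r⟩⟩
      · simp [run, ob, dl]
      · simp [run, ob, dl]
      · simp only [run, ob, if_true, dl_cons]
        rw [Finset.sum_eq_single (z, b)]
        · by_cases h : PP N (a1, a2) (z, b) = 0
          · have h2 : ¬ (a1 = b ∧ a2 = z) := by
              rintro ⟨h3, h4⟩
              rw [h3, h4] at h
              have h5 : PP N (b, z) (z, b) = rt N ^ (-((N : ℤ) - 1) * (1 + (b : ℕ))) :=
                P_zero_val' (adm N) hz hz rfl
              rw [h5] at h
              exact zpow_ne_zero _ (rt_ne N) h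
            rw [h]
            by_cases h3 : a1 = b
            · have h4 : a2 ≠ z := fun h4 => h2 ⟨h3, h4⟩
              simp [h4]
            · simp [h3]
          · have h' : crossP N (rt N) (a1, a2) (z, b) ≠ 0 := h
            obtain ⟨e1, e2⟩ := P_col_zero (p := (a1, a2)) (q := (z, b)) hz h'
            have e3 : a2 = z := Fin.ext (by simp only at e2; omega)
            simp only at e1
            subst e1
            subst e3
            have h5 : PP N (a1, a2) (a2, a1) = rt N ^ (-((N : ℤ) - 1) * (1 + (a1 : ℕ))) :=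
              P_zero_val' (adm N) hz hz rfl
            rw [h5]
            simp
        · rintro ⟨q1, q2⟩ _ hq
          have : ¬ (q1 = z ∧ q2 = b) := fun h => hq (Prod.ext h.1 h.2)
          by_cases h3 : q1 = z
          · have h4 : q2 ≠ b := fun h4 => this ⟨h3, h4⟩
            simp [h4]
          · simp [h3]
        · intro h; exact absurd (mem_univ _) h
    rw [List.length_cons, axD, run_append,
      (Lop_run (shw (axD t.length))).loc l _ _ fun l' _ => h1 l',
      (Lop_run (shw (axD t.length))).smul, cax_cons, mul_assoc]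
    congr 1
    rcases l with _ | ⟨a, l⟩
    · have h2 : ∀ (w : List (ℕ × Bool)) (f : List (Fin N) → ℂ), run w [] f = f [] := by
        intro w
        induction w with
        | nil => intro f; rfl
        | cons g w ih =>
          intro f
          simp only [run]
          rw [ob_short _ _ _ _ (by simp), ih]
      rw [h2]
      simp [dl]
    · rw [run_shw]
      have h3 : (fun r => dl (b :: z :: t) (a :: r)) = fun r => (if a = b then 1 else 0) *
          dl (z :: t) r := by
        funext r
        exact dl_cons _ _ _ _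
      rw [h3, (Lop_run (axD t.length)).smul, run_axD z hz t l, List.cons_append, dl_cons]
      ring

/-- the axis -/
def axisW (k : ℕ) : List (ℕ × Bool) := axU k ++ axD k

theorem axis_ent {k : ℕ} (z : Fin N) (hz : (z : ℕ) = 0) (s t : Fin k → Fin N) :
    rep (crossP N (rt N)) (crossN N (rt N)) (k + 1) (axisW k) (Fin.cons z s) (Fin.cons z t) =
      if s = t then cax (List.ofFn s) * cax (List.ofFn s) else 0 := by
  rw [rep_mx, mx, List.ofFn_cons, List.ofFn_cons, axisW, run_append]
  have h1 : k = (List.ofFn s).length := by simp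
  have h2 : run (axU k) (z :: List.ofFn s) (fun l' => run (axD k) l' (dl (z :: List.ofFn t))) =
      cax (List.ofFn s) * run (axD k) (List.ofFn s ++ [z]) (dl (z :: List.ofFn t)) := by
    have := run_axU z hz (List.ofFn s) (fun l' => run (axD k) l' (dl (z :: List.ofFn t)))
    rwa [← h1] at this
  have h3 : run (axD k) (List.ofFn s ++ [z]) (dl (z :: List.ofFn t)) =
      cax (List.ofFn t) * dl (List.ofFn t ++ [z]) (List.ofFn s ++ [z]) := by
    have := run_axD z hz (List.ofFn t) (List.ofFn s ++ [z])
    rwa [List.length_ofFn] at this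
  rw [h2, h3]
  unfold dl
  by_cases h : s = t
  · subst h
    simp
  · have h4 : ¬ (List.ofFn s ++ [z] = List.ofFn t ++ [z]) := by
      intro h5
      exact h (ofFn_inj.1 (List.append_cancel_right h5))
    rw [if_neg h, if_neg h4]
    ring

theorem prod_kx {k : ℕ} (s : Fin k → Fin N) : ∏ i, kx (s i) = kl (List.ofFn s) := by
  induction k with
  | zero => simp [kl]
  | succ k ih => rw [Fin.prod_univ_succ, List.ofFn_succ, kl, ih]

/-- **The axis.** -/
theorem cjones_axisW (hN : 0 < N) (k : ℕ) (w : List (ℕ × Bool)) :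
    cjones N k (axisW k ++ shw w) (rt N) =
      rt N ^ (-(k : ℤ) * ((N : ℤ) - 1)) * (rep (crossP N (rt N)) (crossN N (rt N)) k w).trace := by
  have h0 := rt_ne N
  unfold cjones
  rw [dif_pos hN, rep_append, shw, Pool.Agent.H229R3.J.rep_sh]
  unfold tail
  set z : Fin N := ⟨0, hN⟩ with hz
  have hkey : ∀ s : Fin k → Fin N,
      (rep (crossP N (rt N)) (crossN N (rt N)) (k + 1) (axisW k) *
        Pool.Agent.H229R3.J.sh (rep (crossP N (rt N)) (crossN N (rt N)) k w))
        (Fin.cons z s) (Fin.cons z s) =
      cax (List.ofFn s) * cax (List.ofFn s) *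
        rep (crossP N (rt N)) (crossN N (rt N)) k w s s := by
    intro s
    rw [Matrix.mul_apply, Pool.Agent.H229R3.J.sum_cons, sum_eq_single z, sum_eq_single s]
    · rw [axis_ent z rfl, if_pos rfl]
      congr 1
    · intro t _ ht
      rw [axis_ent z rfl, if_neg (Ne.symm ht), zero_mul]
    · intro h; exact absurd (mem_univ _) h
    · intro a _ ha
      refine sum_eq_zero fun t _ => ?_
      unfold Pool.Agent.H229R3.J.sh
      simp [ha]
    · intro h; exact absurd (mem_univ _) h
  rw [Matrix.trace, mul_sum]
  refine sum_congr rfl fun s _ => ?_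
  rw [hkey s, ← mul_assoc]
  have h5 : ∏ x, rt N ^ ((N : ℤ) - 1 - 2 * ((s x : ℕ) : ℤ)) = kl (List.ofFn s) := prod_kx s
  rw [h5]
  congr 1
  rw [kl_eq, cax]
  simp only [← zpow_add₀ h0]
  have h2N : rt N ^ (2 * (N : ℤ)) = 1 := by
    rw [mul_comm, _root_.zpow_mul, rt_zpow_N hN]; norm_num
  have hexp : ((List.ofFn s).length : ℤ) * ((N : ℤ) - 1) - 2 * (wl (List.ofFn s) : ℤ) +
      (-((N : ℤ) - 1) * (((List.ofFn s).length : ℤ) + wl (List.ofFn s)) +
        -((N : ℤ) - 1) * (((List.ofFn s).length : ℤ) + wl (List.ofFn s))) =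
      -(k : ℤ) * ((N : ℤ) - 1) + 2 * (N : ℤ) * (-(wl (List.ofFn s) : ℤ)) := by
    rw [List.length_ofFn]
    ring
  rw [hexp, zpow_add₀ h0, _root_.zpow_mul (rt N) (2 * (N : ℤ)), h2N, _root_.one_zpow, mul_one]

end Pool.Agent.Q191.TW
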