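import Pool.Agent.Q191.TW.Lst

/-!
Chains of crossings on highest weight vectors: the first strand passes to the end and is multiplied
by a phase.
-/

set_option autoImplicit false

namespace Pool.Agent.Q191.TW

open Matrix Finset Pool.Agent.H550R3.Jones Pool.Agent.W715.VC
open Pool.Agent.H927R2.J.SanYB (brf_ne)

variable {N : ℕ}

theorem Q_row_zero {v : ℂ} {p q : Fin N × Fin N} (hp : (p.2 : ℕ) = 0)
    (h : crossN N v p q ≠ 0) : (q.1 : ℕ) = 0 ∧ q.2 = p.1 := by
  unfold crossN at h
  split_ifs at h with hc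
  · refine ⟨?_, Fin.ext ?_⟩ <;> omega
  · exact absurd rfl h

theorem Q_zero_val {v : ℂ} (hv : Adm N v) {p q : Fin N × Fin N} (hp : (p.2 : ℕ) = 0)
    (hq1 : (q.1 : ℕ) = 0) (h : (q.2 : ℕ) = p.1) :
    crossN N v p q = v ^ (((N : ℤ) - 1) * (1 + (p.1 : ℕ))) := by
  unfold crossN
  rw [if_pos (by omega), hp, hq1, h]
  have := brf_ne hv (n := 0) (by have := p.1.2; omega)
  simp [brf]

/-- the phase of a strand with the label `x` which passes under `m` strands, total label `T` -/
noncomputable def phx (N m x T : ℕ) : ℂ :=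
  rt N ^ (((N : ℤ) - 1) * ((m : ℤ) + T)) *
    rt N ^ ((x : ℤ) * (((m : ℤ) + 1) * ((N : ℤ) - 1) - 2 * T + 2))

theorem phx_ne (m x T : ℕ) : phx N m x T ≠ 0 :=
  mul_ne_zero (zpow_ne_zero _ (rt_ne N)) (zpow_ne_zero _ (rt_ne N))

/-- the chain, when the strand has the label `0` at the end -/
theorem Gam_zero (z : Fin N) (hz : (z : ℕ) = 0) : ∀ (m : ℕ) (l : List (Fin N))
    (f : List (Fin N) → ℂ), l.length = m →
    Gam (crossN N (rt N)) m (l ++ [z]) f = rt N ^ (((N : ℤ) - 1) * ((m : ℤ) + wl l)) * f (z :: l)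
  | 0, l, f, hl => by
    have : l = [] := List.length_eq_zero_iff.1 hl
    subst this
    simp [Gam, wl]
  | m + 1, l, f, hl => by
    obtain ⟨l', b, rfl⟩ : ∃ l' b, l = l' ++ [b] := by
      rcases List.eq_nil_or_concat l with h | ⟨l', b, h⟩
      · rw [h] at hl; simp at hl
      · exact ⟨l', b, by rw [h, List.concat_eq_append]⟩
    have hl' : l'.length = m := by simpa using hl
    simp only [Gam]
    have h1 : l' ++ [b] ++ [z] = l' ++ b :: z :: [] := by simp
    rw [h1]
    have h2 := ob_at (crossN N (rt N)) l' b z [] (fun l' => Gam (crossN N (rt N)) m l' f)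
    rw [hl'] at h2
    rw [h2, Finset.sum_eq_single (z, b)]
    · rw [Q_zero_val (adm N) (p := (b, z)) (q := (z, b)) hz hz rfl]
      have h3 : l' ++ z :: b :: [] = (l' ++ [z]) ++ [b] := by simp
      simp only
      rw [h3, Gam_append _ m (l' ++ [z]) [b] f (by simp [hl']), Gam_zero z hz m l' _ hl',
        ← mul_assoc, ← zpow_add₀ (rt_ne N), wl_append]
      congr 2
      simp only [wl]
      push_cast
      ring
    · rintro ⟨q1, q2⟩ _ hq
      by_cases h : crossN N (rt N) (b, z) (q1, q2) = 0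
      · rw [h, zero_mul]
      · obtain ⟨e1, e2⟩ := Q_row_zero (p := (b, z)) hz h
        exact absurd (Prod.ext (Fin.ext (by simp only at e1 ⊢; omega)) e2) hq
    · intro h; exact absurd (mem_univ _) h

theorem Eo_succ {a b : Fin N} (h : (b : ℕ) = a + 1) : Eo N a b ≠ 0 := by
  show (irr (rt N) N).E a b ≠ 0
  simp only [irr]
  rw [if_pos h]
  exact br_ne (by omega) (by omega)

theorem Eo_sum (a : Fin N) (h : (a : ℕ) + 1 < N) (g : Fin N → ℂ) :
    ∑ b, Eo N a b * g b = Eo N a ⟨a + 1, h⟩ * g ⟨a + 1, h⟩ := by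
  rw [Finset.sum_eq_single ⟨(a : ℕ) + 1, h⟩]
  · intro b _ hb
    by_cases h0 : Eo N a b = 0
    · rw [h0, zero_mul]
    · exact absurd (Fin.ext (Eo_ne h0)) hb
  · intro h; exact absurd (mem_univ _) h

theorem phx_step (m x T : ℕ) (hT : x + 1 ≤ T) (kxx kll : ℂ)
    (h1 : kxx = rt N ^ ((N : ℤ) - 1 - 2 * (x : ℤ)))
    (h2 : kll = rt N ^ ((m : ℤ) * ((N : ℤ) - 1) - 2 * ((T - (x + 1) : ℕ) : ℤ))) :
    kxx * kll * phx N m x T = phx N m (x + 1) T := by
  unfold phx
  rw [h1, h2]
  simp only [← zpow_add₀ (rt_ne N)]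
  congr 1
  push_cast [Nat.cast_sub hT]
  ring

/-- **The chain on a vector killed by `E`.** -/
theorem Gam_main {m : ℕ} {z : List (Fin N) → ℂ} (hz : ∀ l, l.length = m + 1 → EL l z = 0) :
    ∀ (n : ℕ) (x : Fin N), (x : ℕ) = n → ∀ l : List (Fin N), l.length = m →
    Gam (crossN N (rt N)) m (l ++ [x]) z = phx N m n (wl l + n) * z (x :: l)
  | 0, x, hx, l, hl => by
    rw [Gam_zero x hx m l z hl]
    congr 1
    unfold phx
    simp
  | n + 1, x, hx, l, hl => by
    have hQ : Wp (crossN N (rt N)) := Wp_Q _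
    have hE : crossN N (rt N) * EE N = EE N * crossN N (rt N) := QQ_EE
    have hn : n < N := by have := x.2; omega
    set y : Fin N := ⟨n, hn⟩ with hy
    have hx' : x = ⟨(y : ℕ) + 1, by have := x.2; simp only [hy]; omega⟩ := Fin.ext hx
    have ih := Gam_main hz n y rfl
    -- the chain is killed by `E`
    have h1 : EL (l ++ [y]) (fun l' => Gam (crossN N (rt N)) m l' z) = 0 := by
      rw [EL_Gam hQ hE]
      rw [Gam_congr hQ m _ _ (fun _ => 0) fun l' h1 h2 => hz l' (by rw [h1]; simp [hl])]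
      have : ∀ k (u : List (Fin N)), Gam (crossN N (rt N)) k u (fun _ => 0) = 0 := by
        intro k
        induction k with
        | zero => intro u; rfl
        | succ k ih => intro u; simp only [Gam, ih]; exact ob_zero _ _ _
      exact this _ _
    rw [EL_append1, Eo_sum y (by have := x.2; simp only [hy]; omega), ← hx'] at h1
    have h2 : EL l (fun u' => Gam (crossN N (rt N)) m (u' ++ [y]) z) =
        phx N m n (wl l + (n + 1)) * EL l (fun u' => z (y :: u')) := by
      rw [← EL_smul]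
      refine EL_congr l _ _ fun l' h3 h4 => ?_
      rw [ih l' (by rw [h3, hl]), h4]
      congr 2
      omega
    rw [h2] at h1
    -- the vector itself
    have h3 := hz (y :: l) (by simp [hl])
    simp only [EL] at h3
    have h4 : ∑ b, Eo N y b * kl l * z (b :: l) = Eo N y x * (kl l * z (x :: l)) := by
      have := Eo_sum y (by have := x.2; simp only [hy]; omega) (fun b => kl l * z (b :: l))
      rw [← hx'] at this
      rw [← this]
      exact Finset.sum_congr rfl fun b _ => by ring
    rw [h4] at h3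
    have h5 : EL l (fun u' => z (y :: u')) = -(Eo N y x * (kl l * z (x :: l))) := by
      linear_combination h3
    rw [h5] at h1
    have hne : Eo N y x ≠ 0 := Eo_succ (by simp only [hy]; omega)
    have h6 : Gam (crossN N (rt N)) m (l ++ [x]) z =
        kx y * kl l * phx N m n (wl l + (n + 1)) * z (x :: l) := by
      have : Eo N y x * (Gam (crossN N (rt N)) m (l ++ [x]) z -
        kx y * kl l * phx N m n (wl l + (n + 1)) * z (x :: l)) = 0 := by
        linear_combination h1
      have := (mul_eq_zero.1 this).resolve_left hne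
      linear_combination this
    rw [h6]
    congr 1
    refine phx_step m n (wl l + (n + 1)) (by omega) _ _ rfl ?_
    rw [kl_eq, hl]
    congr 3
    simp

/-! ### the rotation -/

/-- the rotation: the strand number `1` passes around the strand `0` and to the end -/
noncomputable def Rot (m : ℕ) (l : List (Fin N)) (f : List (Fin N) → ℂ) : ℂ :=
  Gam (crossN N (rt N)) m l (fun l' => ob (crossN N (rt N)) 0 l' f)

/-- the phase of the rotation -/
noncomputable def Phi (N m x T : ℕ) : ℂ := phx N m x T * rt N ^ (((N : ℤ) - 1) * (1 + (x : ℤ)))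

theorem Phi_ne (m x T : ℕ) : Phi N m x T ≠ 0 := mul_ne_zero (phx_ne _ _ _) (zpow_ne_zero _ (rt_ne N))

/-- the rotation on vectors killed by `E` -/
theorem Rot_main {m : ℕ} {f : List (Fin N) → ℂ} (hf : ∀ l, l.length = m + 1 → EL l f = 0)
    (z : Fin N) (hz : (z : ℕ) = 0) (x : Fin N) (l : List (Fin N)) (hl : l.length + 1 = m) :
    Rot m (z :: (l ++ [x])) f = Phi N m x (wl l + x) * f (z :: x :: l) := by
  unfold Rot
  have hQ : Wp (crossN N (rt N)) := Wp_Q _
  have hE : crossN N (rt N) * EE N = EE N * crossN N (rt N) := QQ_EE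
  have h1 : z :: (l ++ [x]) = (z :: l) ++ [x] := rfl
  rw [h1, Gam_main (z := fun l' => ob (crossN N (rt N)) 0 l' f) ?_ x x rfl (z :: l)
    (by simp; omega)]
  · have h2 : wl (z :: l) = wl l := by simp [wl, hz]
    rw [h2]
    have h3 : ob (crossN N (rt N)) 0 (x :: z :: l) f =
        rt N ^ (((N : ℤ) - 1) * (1 + (x : ℕ))) * f (z :: x :: l) := by
      simp only [ob]
      rw [Finset.sum_eq_single (z, x)]
      · rw [Q_zero_val (adm N) (p := (x, z)) (q := (z, x)) hz hz rfl]
      · rintro ⟨q1, q2⟩ _ hq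
        by_cases h : crossN N (rt N) (x, z) (q1, q2) = 0
        · rw [h, zero_mul]
        · obtain ⟨e1, e2⟩ := Q_row_zero (p := (x, z)) hz h
          exact absurd (Prod.ext (Fin.ext (by simp only at e1 ⊢; omega)) e2) hq
      · intro h; exact absurd (mem_univ _) h
    rw [h3]
    unfold Phi
    ring
  · intro l' hl'
    rw [EL_ob hQ hE, ob_congr hQ 0 l' _ (fun _ => 0) fun l'' h4 h5 => hf l'' (by rw [h4, hl'])]
    exact ob_zero _ _ _

/-- the rotation preserves the vectors killed by `E` -/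
theorem EL_Rot {m : ℕ} (l : List (Fin N)) (f : List (Fin N) → ℂ) :
    EL l (fun l' => Rot m l' f) = Rot m l (fun l' => EL l' f) := by
  have hQ : Wp (crossN N (rt N)) := Wp_Q _
  have hE : crossN N (rt N) * EE N = EE N * crossN N (rt N) := QQ_EE
  unfold Rot
  rw [EL_Gam hQ hE]
  exact Gam_congr hQ m l _ _ fun l' _ _ => EL_ob hQ hE 0 l' f

end Pool.Agent.Q191.TW
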