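import Mathlib

/-!
The integral of a complex Gaussian function over `ℝ^d` does not vanish.
-/

set_option autoImplicit false

namespace Pool.Agent.Q191.TW

open Matrix Finset MeasureTheory

variable {d : ℕ}

/-- diagonalization of real symmetric matrices -/
theorem sym_diag (A : Matrix (Fin d) (Fin d) ℝ) (hA : Aᵀ = A) :
    ∃ (U : Matrix (Fin d) (Fin d) ℝ) (lam : Fin d → ℝ), Uᵀ * U = 1 ∧ Uᵀ * A * U = diagonal lam := by
  have hH : A.IsHermitian := by
    rw [Matrix.IsHermitian, Matrix.conjTranspose_eq_transpose_of_trivial, hA]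
  refine ⟨(hH.eigenvectorUnitary : Matrix (Fin d) (Fin d) ℝ), hH.eigenvalues, ?_, ?_⟩
  · have h := Matrix.mem_unitaryGroup_iff'.1 hH.eigenvectorUnitary.2
    rw [Matrix.star_eq_conjTranspose, Matrix.conjTranspose_eq_transpose_of_trivial] at h
    exact h
  · have h := hH.spectral_theorem
    have h1 := Matrix.mem_unitaryGroup_iff'.1 hH.eigenvectorUnitary.2
    rw [Matrix.star_eq_conjTranspose, Matrix.conjTranspose_eq_transpose_of_trivial] at h1
    rw [Unitary.conjStarAlgAut_apply, Matrix.star_eq_conjTranspose,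
      Matrix.conjTranspose_eq_transpose_of_trivial] at h
    set U : Matrix (Fin d) (Fin d) ℝ := (hH.eigenvectorUnitary : Matrix (Fin d) (Fin d) ℝ) with hU
    have h2 : Uᵀ * A * U = (Uᵀ * U) * diagonal (RCLike.ofReal ∘ hH.eigenvalues) * (Uᵀ * U) := by
      conv_lhs => rw [h]
      simp only [Matrix.mul_assoc]
    rw [h2, h1, Matrix.one_mul, Matrix.mul_one]
    rfl

/-- simultaneous diagonalization -/
theorem sim_diag (S B : Matrix (Fin d) (Fin d) ℝ) (hS : Sᵀ = S) (hB : Bᵀ = B)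
    (hp : ∀ u : Fin d → ℝ, u ≠ 0 → 0 < u ⬝ᵥ (S *ᵥ u)) :
    ∃ (M : Matrix (Fin d) (Fin d) ℝ) (lam : Fin d → ℝ), M.det ≠ 0 ∧ Mᵀ * S * M = 1 ∧
      Mᵀ * B * M = diagonal lam := by
  obtain ⟨U, mu, hU, hD⟩ := sym_diag S hS
  have hmu : ∀ i, 0 < mu i := by
    intro i
    have h1 : (Uᵀ * S * U) i i = mu i := by rw [hD, diagonal_apply_eq]
    rw [← h1]
    have h2 : (Uᵀ * S * U) i i = (fun j => U j i) ⬝ᵥ (S *ᵥ (fun j => U j i)) := by
      rw [Matrix.mul_assoc, Matrix.mul_apply]
      rfl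
    rw [h2]
    refine hp _ fun h => ?_
    have h3 : (Uᵀ * U) i i = 0 := by
      rw [Matrix.mul_apply]
      refine Finset.sum_eq_zero fun j _ => ?_
      have := congrFun h j
      simp only [Pi.zero_apply] at this
      rw [this, mul_zero]
    rw [hU, Matrix.one_apply_eq] at h3
    exact one_ne_zero h3
  set R : Matrix (Fin d) (Fin d) ℝ := diagonal fun i => (√(mu i))⁻¹ with hR
  have hRt : Rᵀ = R := diagonal_transpose _
  have hP : (U * R)ᵀ * S * (U * R) = 1 := by
    have : (U * R)ᵀ * S * (U * R) = R * (Uᵀ * S * U) * R := by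
      rw [Matrix.transpose_mul, hRt]
      simp only [Matrix.mul_assoc]
    rw [this, hD, hR, diagonal_mul_diagonal, diagonal_mul_diagonal, ← diagonal_one]
    congr 1
    funext i
    have h1 : √(mu i) * √(mu i) = mu i := Real.mul_self_sqrt (hmu i).le
    have h2 : √(mu i) ≠ 0 := (Real.sqrt_pos.2 (hmu i)).ne'
    calc (√(mu i))⁻¹ * mu i * (√(mu i))⁻¹ = (√(mu i))⁻¹ * (√(mu i) * √(mu i)) * (√(mu i))⁻¹ := by
          rw [h1]
      _ = 1 := by field_simp
  obtain ⟨V, lam, hV, hE⟩ := sym_diag ((U * R)ᵀ * B * (U * R)) (by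
    simp only [Matrix.transpose_mul, Matrix.transpose_transpose, hB, Matrix.mul_assoc])
  have h1 : ((U * R) * V)ᵀ * S * ((U * R) * V) = 1 := by
    have : ((U * R) * V)ᵀ * S * ((U * R) * V) = Vᵀ * ((U * R)ᵀ * S * (U * R)) * V := by
      rw [Matrix.transpose_mul]
      simp only [Matrix.mul_assoc]
    rw [this, hP, Matrix.mul_one, hV]
  refine ⟨(U * R) * V, lam, ?_, h1, ?_⟩
  · intro h0
    have := congrArg Matrix.det h1
    rw [Matrix.det_mul, h0, mul_zero, Matrix.det_one] at this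
    exact zero_ne_one this
  · rw [← hE, Matrix.transpose_mul]
    simp only [Matrix.mul_assoc]

/-- the quadratic form of a matrix -/
def qf {ι : Type} [Fintype ι] (A : Matrix ι ι ℝ) (u : ι → ℝ) : ℝ := u ⬝ᵥ (A *ᵥ u)

theorem qf_mul {ι κ : Type} [Fintype ι] [Fintype κ] (A : Matrix ι ι ℝ) (J : Matrix ι κ ℝ)
    (u : κ → ℝ) : qf A (J *ᵥ u) = qf (Jᵀ * A * J) u := by
  unfold qf
  rw [← Matrix.mulVec_mulVec, ← Matrix.mulVec_mulVec, Matrix.dotProduct_mulVec u,
    Matrix.vecMul_transpose]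

theorem qf_symm {ι : Type} [Fintype ι] (A : Matrix ι ι ℝ) (u : ι → ℝ) :
    qf A u = qf ((1 / 2 : ℝ) • (A + Aᵀ)) u := by
  have h : qf Aᵀ u = qf A u := by
    unfold qf
    rw [Matrix.mulVec_transpose, dotProduct_comm, ← Matrix.dotProduct_mulVec]
  have h2 : qf ((1 / 2 : ℝ) • (A + Aᵀ)) u = 1 / 2 * (qf A u + qf Aᵀ u) := by
    unfold qf
    rw [Matrix.smul_mulVec, Matrix.add_mulVec, dotProduct_smul, dotProduct_add, smul_eq_mul]
  rw [h2, h]; ring

theorem qf_one (u : Fin d → ℝ) : qf (1 : Matrix (Fin d) (Fin d) ℝ) u = ∑ i, u i ^ 2 := by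
  unfold qf
  rw [Matrix.one_mulVec]
  simp only [dotProduct, sq]

theorem qf_diag (lam u : Fin d → ℝ) : qf (diagonal lam) u = ∑ i, lam i * u i ^ 2 := by
  unfold qf
  simp only [dotProduct, Matrix.mulVec_diagonal]
  refine Finset.sum_congr rfl fun i _ => by ring

/-- **The complex Gaussian integral is not zero.** -/
theorem gauss_ne (S B : Matrix (Fin d) (Fin d) ℝ) (hp : ∀ u : Fin d → ℝ, u ≠ 0 → 0 < qf S u) :
    ∫ u : Fin d → ℝ, Complex.exp (-(qf S u : ℂ) + Complex.I * (qf B u : ℂ)) ≠ 0 := by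
  obtain ⟨M, lam, hM, h1, h2⟩ := sim_diag ((1 / 2 : ℝ) • (S + Sᵀ)) ((1 / 2 : ℝ) • (B + Bᵀ))
    (by rw [Matrix.transpose_smul, Matrix.transpose_add, Matrix.transpose_transpose, add_comm])
    (by rw [Matrix.transpose_smul, Matrix.transpose_add, Matrix.transpose_transpose, add_comm])
    (fun u hu => by
      have := hp u hu
      rw [qf_symm] at this
      exact this)
  set f : (Fin d → ℝ) → ℂ := fun u => Complex.exp (-(qf S u : ℂ) + Complex.I * (qf B u : ℂ)) with hf
  have hfc : Continuous f := by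
    have c1 : Continuous fun u : Fin d → ℝ => qf S u := by unfold qf; fun_prop
    have c2 : Continuous fun u : Fin d → ℝ => qf B u := by unfold qf; fun_prop
    rw [hf]; fun_prop
  have hmap := Real.map_matrix_volume_pi_eq_smul_volume_pi hM
  have hlin : Continuous (Matrix.toLin' M : (Fin d → ℝ) → (Fin d → ℝ)) :=
    LinearMap.continuous_of_finiteDimensional _
  have h3 : ∫ x : Fin d → ℝ, f (Matrix.toLin' M x) = |M.det⁻¹| • ∫ u, f u := by
    rw [← integral_map hlin.measurable.aemeasurable hfc.aestronglyMeasurable, hmap,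
      integral_smul_measure, ENNReal.toReal_ofReal (abs_nonneg _)]
  have h4 : ∀ x : Fin d → ℝ, f (Matrix.toLin' M x) =
      ∏ i, Complex.exp (-(1 - lam i * Complex.I) * (x i : ℂ) ^ 2) := by
    intro x
    rw [hf, ← Complex.exp_sum]
    simp only [Matrix.toLin'_apply]
    congr 1
    rw [qf_symm S, qf_symm B, qf_mul, qf_mul, h1, h2, qf_one, qf_diag]
    push_cast
    rw [← Finset.sum_neg_distrib, Finset.mul_sum, ← Finset.sum_add_distrib]
    refine Finset.sum_congr rfl fun i _ => by ring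
  have h5 : ∫ x : Fin d → ℝ, f (Matrix.toLin' M x) =
      ∏ i, ((Real.pi : ℂ) / (1 - lam i * Complex.I)) ^ (1 / 2 : ℂ) := by
    simp_rw [h4]
    rw [MeasureTheory.volume_pi]
    rw [integral_fintype_prod_eq_prod (μ := fun _ : Fin d => (volume : Measure ℝ))
      (fun i (x : ℝ) => Complex.exp (-(1 - lam i * Complex.I) * (x : ℂ) ^ 2))]
    refine Finset.prod_congr rfl fun i _ => ?_
    exact integral_gaussian_complex (by simp)
  intro h0
  rw [h3, h0, smul_zero] at h5
  refine absurd h5.symm (Finset.prod_ne_zero_iff.2 fun i _ => ?_)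
  have h6 : (Real.pi : ℂ) / (1 - lam i * Complex.I) ≠ 0 := by
    refine div_ne_zero (by exact_mod_cast Real.pi_ne_zero) fun h => ?_
    have := congrArg Complex.re h
    simp at this
  rw [Complex.cpow_def_of_ne_zero h6]
  exact Complex.exp_ne_zero _

end Pool.Agent.Q191.TW
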