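import Pool.Agent.Q191.TW.Mat

/-!
The operator of a word of crossings and rotations on the vectors killed by `E`, and its trace.
-/

set_option autoImplicit false

namespace Pool.Agent.Q191.TW

open Matrix Finset Pool.Agent.H550R3.Jones Pool.Agent.W715.VC
open scoped Kronecker

variable {N : ℕ}

/-- `H` is the operator of the word `w` on the vectors killed by `E`, with the label `0` on the
first strand -/
def Hat (p : ℕ) (w : List (ℕ × Bool)) (H : Matrix (Fin p → Fin N) (Fin p → Fin N) ℂ) : Prop :=
  ∀ f : List (Fin N) → ℂ, (∀ l, l.length = p + 1 → EL l f = 0) → ∀ z : Fin N, (z : ℕ) = 0 →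
    ∀ s : Fin p → Fin N, run w (z :: List.ofFn s) f = ∑ t, H s t * f (z :: List.ofFn t)

theorem Hat_nil (p : ℕ) : Hat (N := N) p [] 1 := by
  intro f _ z _ s
  simp only [run, Matrix.one_apply, ite_mul, one_mul, zero_mul]
  rw [Finset.sum_ite_eq]
  simp

theorem run_zero (w : List (ℕ × Bool)) (l : List (Fin N)) : run w l (fun _ => 0) = 0 := by
  have := (Lop_run w).smul 0 l (fun _ => 0)
  simpa using this

theorem EL_run_zero {p : ℕ} (w : List (ℕ × Bool)) {f : List (Fin N) → ℂ}
    (hf : ∀ l, l.length = p + 1 → EL l f = 0) : ∀ l, l.length = p + 1 →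
    EL l (fun l' => run w l' f) = 0 := by
  intro l hl
  rw [EL_run, (Lop_run w).loc l _ (fun _ => 0) fun l' hl' => hf l' (by rw [hl', hl])]
  exact run_zero w l

theorem Hat_append {p : ℕ} {w w' : List (ℕ × Bool)}
    {H H' : Matrix (Fin p → Fin N) (Fin p → Fin N) ℂ} (h : Hat p w H) (h' : Hat p w' H') :
    Hat p (w ++ w') (H * H') := by
  intro f hf z hz s
  rw [run_append, h (fun l' => run w' l' f) (EL_run_zero w' hf) z hz s]
  have h1 : ∀ t, run w' (z :: List.ofFn t) f = ∑ u, H' t u * f (z :: List.ofFn u) :=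
    fun t => h' f hf z hz t
  simp only [h1, Finset.mul_sum, Matrix.mul_apply, Finset.sum_mul]
  rw [Finset.sum_comm]
  exact Finset.sum_congr rfl fun u _ => Finset.sum_congr rfl fun t _ => by ring

theorem Hat_pow {p : ℕ} {w : List (ℕ × Bool)}
    {H : Matrix (Fin p → Fin N) (Fin p → Fin N) ℂ} (h : Hat p w H) : ∀ n : ℕ,
    Hat p (List.replicate n w).flatten (H ^ n)
  | 0 => Hat_nil p
  | n + 1 => by
    rw [List.replicate_succ, List.flatten_cons, pow_succ']
    exact Hat_append h (Hat_pow h n)

/-- shift of a word -/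
def shw (w : List (ℕ × Bool)) : List (ℕ × Bool) := w.map fun g => (g.1 + 1, g.2)

theorem run_shw (w : List (ℕ × Bool)) (a : Fin N) (l : List (Fin N)) (f : List (Fin N) → ℂ) :
    run (shw w) (a :: l) f = run w l (fun r => f (a :: r)) := by
  induction w generalizing l with
  | nil => rfl
  | cons g w ih =>
    simp only [shw, List.map_cons, run, ob]
    exact ob_loc _ _ _ _ _ fun l' _ => ih l'

/-- the words which do not involve the first strand -/
theorem Hat_shw {p : ℕ} (w : List (ℕ × Bool)) :
    Hat p (shw w) (rep (crossP N (rt N)) (crossN N (rt N)) p w) := by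
  intro f _ z _ s
  rw [run_shw, rep_mx]
  exact mx_apply (Lop_run w) s _

/-! ### inverse words -/

theorem ob_mul (A B : Mt N) : ∀ (j : ℕ) (l : List (Fin N)) (f : List (Fin N) → ℂ),
    2 + j ≤ l.length → ob A j l (fun l' => ob B j l' f) = ob (A * B) j l f
  | 0, [], f, h => by simp at h
  | 0, [a], f, h => by simp at h
  | 0, a :: b :: r, f, _ => by
    simp only [ob, Finset.mul_sum, Matrix.mul_apply, Finset.sum_mul]
    rw [Finset.sum_comm]
    exact Finset.sum_congr rfl fun u _ => Finset.sum_congr rfl fun t _ => by ring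
  | j + 1, [], f, h => by simp at h
  | j + 1, a :: r, f, h => by
    simp only [ob]
    exact ob_mul A B j r _ (by simp only [List.length_cons] at h; omega)

theorem ob_one : ∀ (j : ℕ) (l : List (Fin N)) (f : List (Fin N) → ℂ), ob (1 : Mt N) j l f = f l
  | 0, [], f => rfl
  | 0, [a], f => rfl
  | 0, a :: b :: r, f => by
    simp only [ob, Matrix.one_apply, ite_mul, one_mul, zero_mul]
    rw [Finset.sum_ite_eq]
    simp
  | j + 1, [], f => rfl
  | j + 1, a :: r, f => by
    simp only [ob]
    exact ob_one j r _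

theorem ob_short (A : Mt N) : ∀ (j : ℕ) (l : List (Fin N)) (f : List (Fin N) → ℂ),
    l.length < 2 + j → ob A j l f = f l
  | 0, [], f, _ => rfl
  | 0, [a], f, _ => rfl
  | 0, a :: b :: r, f, h => by simp at h
  | j + 1, [], f, _ => rfl
  | j + 1, a :: r, f, h => by
    simp only [ob]
    exact ob_short A j r _ (by simp only [List.length_cons] at h; omega)

theorem ob_inv {A B : Mt N} (hAB : A * B = 1) (j : ℕ) (l : List (Fin N)) (f : List (Fin N) → ℂ) :
    ob A j l (fun l' => ob B j l' f) = f l := by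
  by_cases h : 2 + j ≤ l.length
  · rw [ob_mul A B j l f h, hAB, ob_one]
  · rw [ob_short A j l _ (by omega), ob_short B j l _ (by omega)]

/-- the inverse word -/
def winv (w : List (ℕ × Bool)) : List (ℕ × Bool) := (w.map fun g => (g.1, !g.2)).reverse

theorem run_winv (w : List (ℕ × Bool)) : ∀ (l : List (Fin N)) (f : List (Fin N) → ℂ),
    run w l (fun l' => run (winv w) l' f) = f l := by
  induction w with
  | nil => intro l f; rfl
  | cons g w ih =>
    intro l f
    simp only [run]
    have h1 : winv (g :: w) = winv w ++ [(g.1, !g.2)] := by simp [winv]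
    rw [h1]
    have h2 : ∀ l', run w l' (fun l'' => run (winv w ++ [(g.1, !g.2)]) l'' f) =
        ob (if !g.2 then PP N else QQ N) g.1 l' f := by
      intro l'
      rw [(Lop_run w).loc l' _ (fun l'' => run (winv w) l'' (fun l3 => run [(g.1, !g.2)] l3 f))
        fun l'' _ => run_append _ _ _ _, ih l']
      rfl
    rw [ob_loc _ _ _ _ (fun l' => ob (if !g.2 then PP N else QQ N) g.1 l' f) fun l' _ => h2 l']
    apply ob_inv
    cases g.2
    · simpa using QQ_PP
    · simpa using PP_QQ

/-! ### the rotation -/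

/-- the rotation of the labels -/
def rot {α : Type} {p : ℕ} (t : Fin p → α) : Fin p → α := fun i => t (finRotate p i)

/-- the total label -/
def tl {p : ℕ} (t : Fin p → Fin N) : ℕ := ∑ i, (t i : ℕ)

theorem wl_ofFn {p : ℕ} (t : Fin p → Fin N) : wl (List.ofFn t) = tl t := by
  induction p with
  | zero => simp [wl, tl]
  | succ p ih =>
    rw [List.ofFn_succ, wl, ih, tl, tl, Fin.sum_univ_succ]

theorem tl_rot {p : ℕ} (t : Fin p → Fin N) : tl (rot t) = tl t := by
  unfold tl rot
  exact Equiv.sum_comp (finRotate p) fun i => ((t i : Fin N) : ℕ)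

/-- the word of the rotation: the strand number `1` passes around the strand `0` and to the end -/
def rotW (p : ℕ) : List (ℕ × Bool) := ((List.range p).reverse.map fun k => (k, false)) ++ [(0, false)]

/-- the matrix of the rotation -/
noncomputable def Rm (N m : ℕ) : Matrix (Fin (m + 1) → Fin N) (Fin (m + 1) → Fin N) ℂ :=
  fun s t => if s = rot t then Phi N (m + 1) (t 0) (tl t) else 0

/-- the matrix of the inverse of the rotation -/
noncomputable def Um (N m : ℕ) : Matrix (Fin (m + 1) → Fin N) (Fin (m + 1) → Fin N) ℂ :=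
  fun s t => if t = rot s then (Phi N (m + 1) (s 0) (tl s))⁻¹ else 0

theorem run_Gam (m : ℕ) : ∀ (l : List (Fin N)) (f : List (Fin N) → ℂ),
    run ((List.range m).reverse.map fun k => (k, false)) l f = Gam (crossN N (rt N)) m l f := by
  induction m with
  | zero => intro l f; rfl
  | succ m ih =>
    intro l f
    rw [List.range_succ, List.reverse_append, List.reverse_singleton, List.singleton_append,
      List.map_cons]
    simp only [run, Gam]
    exact ob_loc _ _ _ _ _ fun l' _ => ih l' f

theorem run_rotW (m : ℕ) (l : List (Fin N)) (f : List (Fin N) → ℂ) :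
    run (rotW m) l f = Rot m l f := by
  unfold rotW Rot
  rw [run_append, run_Gam]
  rfl

theorem ofFn_rot_cons {m : ℕ} (x : Fin N) (l : Fin m → Fin N) :
    List.ofFn (rot (Fin.cons x l : Fin (m + 1) → Fin N)) = List.ofFn l ++ [x] := by
  have h1 : rot (Fin.cons x l : Fin (m + 1) → Fin N) = Fin.snoc (α := fun _ => Fin N) l x := by
    rw [Fin.snoc_eq_cons_rotate]
    rfl
  rw [h1, ← List.concat_eq_append, List.ofFn_succ']
  simp only [Fin.snoc_castSucc, Fin.snoc_last]

theorem rot_inj {α : Type} {p : ℕ} {s t : Fin p → α} (h : rot s = rot t) : s = t := by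
  funext i
  have := congrFun h ((finRotate p).symm i)
  simp only [rot, Equiv.apply_symm_apply] at this
  exact this

theorem rot_surj {α : Type} {p : ℕ} (s : Fin p → α) : ∃ t : Fin p → α, s = rot t :=
  ⟨fun i => s ((finRotate p).symm i), by funext i; simp only [rot, Equiv.symm_apply_apply]⟩

theorem exists_cons {m : ℕ} (t : Fin (m + 1) → Fin N) : ∃ (x : Fin N) (l : Fin m → Fin N),
    t = Fin.cons x l := ⟨t 0, fun i => t i.succ, (Fin.cons_self_tail t).symm⟩

theorem rot_key {m : ℕ} {f : List (Fin N) → ℂ} (hf : ∀ l, l.length = m + 1 + 1 → EL l f = 0)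
    (z : Fin N) (hz : (z : ℕ) = 0) (t : Fin (m + 1) → Fin N) :
    run (rotW (m + 1)) (z :: List.ofFn (rot t)) f =
      Phi N (m + 1) (t 0) (tl t) * f (z :: List.ofFn t) := by
  obtain ⟨x, l, rfl⟩ := exists_cons t
  rw [run_rotW, ofFn_rot_cons, Rot_main hf z hz x (List.ofFn l) (by simp), List.ofFn_succ]
  have h1 : wl (List.ofFn l) + (x : ℕ) = tl (Fin.cons x l : Fin (m + 1) → Fin N) := by
    rw [← wl_ofFn, List.ofFn_succ, wl]
    simp only [Fin.cons_zero, Fin.cons_succ]
    exact Nat.add_comm _ _
  rw [h1]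
  simp only [Fin.cons_zero, Fin.cons_succ]

theorem Hat_rotW (m : ℕ) : Hat (m + 1) (rotW (m + 1)) (Rm N m) := by
  intro f hf z hz s
  obtain ⟨t, rfl⟩ := rot_surj s
  rw [rot_key hf z hz t, Finset.sum_eq_single t]
  · rw [Rm, if_pos rfl]
  · intro u _ hu
    rw [Rm, if_neg (fun h => hu (rot_inj h).symm), zero_mul]
  · intro h; exact absurd (mem_univ _) h

theorem Hat_rotI (m : ℕ) : Hat (m + 1) (winv (rotW (m + 1))) (Um N m) := by
  intro f hf z hz s
  have h1 := rot_key (EL_run_zero (winv (rotW (m + 1))) hf) z hz s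
  rw [run_winv] at h1
  rw [Finset.sum_eq_single (rot s)]
  · rw [Um, if_pos rfl, h1, ← mul_assoc, inv_mul_cancel₀ (Phi_ne _ _ _), one_mul]
  · intro u _ hu
    rw [Um, if_neg hu, zero_mul]
  · intro h; exact absurd (mem_univ _) h

/-! ### the trace -/

theorem trace_hat (hN : 0 < N) {p : ℕ} {w : List (ℕ × Bool)}
    {H : Matrix (Fin p → Fin N) (Fin p → Fin N) ℂ} (h : Hat p w H) :
    (rep (crossP N (rt N)) (crossN N (rt N)) (p + 1) w).trace = N * H.trace := by
  set G' := rep (crossP N (rt N)) (crossN N (rt N)) (p + 1) w with hG'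
  have hG'2 : G' = mx (p + 1) (run w) := rep_mx w (p + 1)
  have htr : G'.trace = (G'.submatrix (ce N p) (ce N p)).trace := by
    rw [Matrix.trace, Matrix.trace, ← Equiv.sum_comp (ce N p)]
    rfl
  rw [htr]
  have hcomm : G' * EM N (p + 1) = EM N (p + 1) * G' := by
    rw [hG'2, EM, ← mx_cmp (Lop_run w), ← mx_cmp Lop_EL]
    exact (mx_congr _ fun l f => EL_run w l f).symm
  refine trace_ker hN (fun s => kl (List.ofFn s)) (fun s => kl_ne _) (EM N p) ?_ _ ?_ H ?_
  · rw [← EM_succ, ← submatrix_pow, EM_nil hN]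
    rfl
  · rw [← EM_succ, Matrix.submatrix_mul_equiv, hcomm, ← Matrix.submatrix_mul_equiv _ _ _ (ce N p)]
  · intro x hx s
    set f : List (Fin N) → ℂ := fun l => ∑ q : Fin N × (Fin p → Fin N),
      x q * dl (List.ofFn (ce N p q)) l with hf
    have hfx : ∀ q, f (List.ofFn (ce N p q)) = x q := by
      intro q
      simp only [hf]
      rw [Finset.sum_eq_single q]
      · simp [dl]
      · intro r _ hr
        rw [dl, if_neg, mul_zero]
        intro h1
        exact hr ((ce N p).injective (ofFn_inj.1 h1)).symm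
      · intro h; exact absurd (mem_univ _) h
    have happ : ∀ (O : Op N), Lop O → ∀ q, O (List.ofFn (ce N p q)) f =
        (((mx (p + 1) O).submatrix (ce N p) (ce N p)) *ᵥ x) q := by
      intro O hO q
      rw [mx_apply hO, ← Equiv.sum_comp (ce N p), Matrix.mulVec, dotProduct]
      exact Finset.sum_congr rfl fun r _ => by rw [hfx, Matrix.submatrix_apply]
    have hE0 : ∀ l, l.length = p + 1 → EL l f = 0 := by
      intro l hl
      obtain ⟨u, rfl⟩ := exists_ofFn l hl
      obtain ⟨q, rfl⟩ := (ce N p).surjective u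
      rw [happ EL Lop_EL]
      have : (mx (p + 1) EL).submatrix (ce N p) (ce N p) = Em (fun s => kl (List.ofFn s)) (EM N p) :=
        EM_succ p
      rw [this, hx]
      rfl
    have h2 := h f hE0 ⟨0, hN⟩ rfl s
    rw [← ce_apply p (⟨0, hN⟩, s), happ _ (Lop_run w), ← hG'2] at h2
    rw [h2, Matrix.mulVec, dotProduct]
    refine Finset.sum_congr rfl fun t _ => ?_
    rw [← ce_apply p (⟨0, hN⟩, t), hfx]

end Pool.Agent.Q191.TW
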