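import Pool.Agent.Q191.TW.Gau

/-!
Laplace's method for sums over lattices: sums of Gaussian type over a subgroup of `ℤ^ι`.
-/

set_option autoImplicit false

namespace Pool.Agent.Q191.TW

open Matrix Finset MeasureTheory Filter Topology

/-- real coordinates of a subgroup of `ℤ^ι` -/
theorem lattice_param {ι : Type} [Fintype ι] [DecidableEq ι] (La : Submodule ℤ (ι → ℤ)) :
    ∃ (d : ℕ) (e : (Fin d → ℤ) ≃ₗ[ℤ] La) (J : Matrix ι (Fin d) ℝ) (C : Matrix (Fin d) ι ℝ),
      C * J = 1 ∧ ∀ z i, (((e z : ι → ℤ) i : ℤ) : ℝ) = (J *ᵥ (fun j => (z j : ℝ))) i := by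
  obtain ⟨d, b⟩ := Submodule.basisOfPid (Pi.basisFun ℤ ι) La
  have hb1 : LinearIndependent ℤ (fun j => ((b j : La) : ι → ℤ)) :=
    b.linearIndependent.map' La.subtype (Submodule.ker_subtype _)
  let cst : (ι → ℤ) →ₗ[ℤ] (ι → ℚ) :=
    { toFun := fun x i => ((x i : ℤ) : ℚ)
      map_add' := fun x y => by funext i; simp
      map_smul' := fun r x => by funext i; simp }
  have hb2 : LinearIndependent ℤ (fun j => cst ((b j : La) : ι → ℤ)) := by
    refine hb1.map' cst (LinearMap.ker_eq_bot.2 fun x y h => ?_)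
    funext i
    have h1 : ((x i : ℤ) : ℚ) = ((y i : ℤ) : ℚ) := congrFun h i
    exact_mod_cast h1
  have hb3 : LinearIndependent ℚ (fun j => cst ((b j : La) : ι → ℤ)) :=
    (LinearIndependent.iff_fractionRing ℤ ℚ).1 hb2
  have hker : LinearMap.ker (Fintype.linearCombination ℚ (fun j => cst ((b j : La) : ι → ℤ))) = ⊥ :=
    LinearMap.ker_eq_bot.2 hb3.fintypeLinearCombination_injective
  obtain ⟨g, hg⟩ := LinearMap.exists_leftInverse_of_injective _ hker
  set JQ : Matrix ι (Fin d) ℚ :=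
    LinearMap.toMatrix' (Fintype.linearCombination ℚ (fun j => cst ((b j : La) : ι → ℤ))) with hJQ
  have hCJ : LinearMap.toMatrix' g * JQ = 1 := by
    rw [hJQ, ← LinearMap.toMatrix'_comp, hg, LinearMap.toMatrix'_id]
  refine ⟨d, b.equivFun.symm, JQ.map (algebraMap ℚ ℝ), (LinearMap.toMatrix' g).map (algebraMap ℚ ℝ),
    ?_, ?_⟩
  · rw [← Matrix.map_mul, hCJ, Matrix.map_one _ (map_zero _) (map_one _)]
  · intro z i
    have h1 : ((b.equivFun.symm z : La) : ι → ℤ) i = ∑ j, z j * ((b j : La) : ι → ℤ) i := by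
      rw [Module.Basis.equivFun_symm_apply]
      simp [Finset.sum_apply]
    rw [h1]
    simp only [Matrix.mulVec, dotProduct, Matrix.map_apply, hJQ, LinearMap.toMatrix'_apply,
      Fintype.linearCombination_apply_single]
    push_cast
    refine Finset.sum_congr rfl fun j _ => ?_
    simp [cst, mul_comm]

/-- sums over `ℤ^d` as integrals -/
theorem floor_integral {d : ℕ} (g : (Fin d → ℤ) → ℂ)
    (hg : Integrable (fun u : Fin d → ℝ => g fun i => ⌊u i⌋)) :
    ∫ u : Fin d → ℝ, g (fun i => ⌊u i⌋) = ∑' z, g z := by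
  set φ : (Fin d → ℝ) → (Fin d → ℤ) := fun u i => ⌊u i⌋ with hφ
  have hm : Measurable φ := measurable_pi_lambda _ fun i => Int.measurable_floor.comp
    (measurable_pi_apply i)
  have hgm : Measurable g := measurable_of_countable g
  have h1 : ∫ u : Fin d → ℝ, g (φ u) = ∫ z, g z ∂(Measure.map φ volume) :=
    (integral_map hm.aemeasurable hgm.aestronglyMeasurable).symm
  have h2 : Integrable g (Measure.map φ volume) :=
    (integrable_map_measure hgm.aestronglyMeasurable hm.aemeasurable).2 hg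
  have h3 : ∀ z : Fin d → ℤ, (Measure.map φ volume).real {z} = 1 := by
    intro z
    rw [measureReal_def, Measure.map_apply hm (measurableSet_singleton z)]
    have h4 : φ ⁻¹' {z} = Set.univ.pi fun i => Set.Ico (z i : ℝ) (z i + 1) := by
      ext u
      simp only [Set.mem_preimage, Set.mem_singleton_iff, Set.mem_pi, Set.mem_univ, true_implies,
        Set.mem_Ico]
      constructor
      · intro h i
        have := congrFun h i
        exact Int.floor_eq_iff.1 this
      · intro h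
        funext i
        exact Int.floor_eq_iff.2 (h i)
    rw [h4, Real.volume_pi_Ico]
    simp
  rw [h1, integral_countable h2]
  refine tsum_congr fun z => ?_
  rw [h3, one_smul]

/-- **Laplace's method on lattices.** -/
theorem lattice_laplace {ι : Type} [Fintype ι] [DecidableEq ι] (La : Submodule ℤ (ι → ℤ))
    (x0 : ι → ℤ) (hx0 : x0 ∈ La) (mu : ℝ) (S B : Matrix ι ι ℝ)
    (hS : ∀ u : ι → ℝ, u ≠ 0 → 0 < qf S u) (κ C : ℝ) (hκ : 0 < κ) (a : ℕ → (ι → ℤ) → ℂ)
    (hdom : ∀ᶠ N : ℕ in atTop, ∀ x ∈ La, ‖a N x‖ ≤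
      C * Real.exp (-κ * ((∑ i, ((x i : ℝ) - N * (mu * x0 i)) ^ 2) / N)))
    (hlim : ∀ (u : ι → ℝ) (x : ℕ → ι → ℤ), (∀ N, x N ∈ La) →
      (∀ i, Tendsto (fun N : ℕ => ((x N i : ℝ) - N * (mu * x0 i)) / √N) atTop (𝓝 (u i))) →
      Tendsto (fun N => a N (x N)) atTop
        (𝓝 (Complex.exp (-(qf S u : ℂ) + Complex.I * (qf B u : ℂ))))) :
    ∃ L : ℂ, L ≠ 0 ∧ Tendsto (fun N : ℕ =>
      (((√N ^ Module.finrank ℤ La)⁻¹ : ℝ) : ℂ) * ∑' x : La, a N x) atTop (𝓝 L) := by
  obtain ⟨d, e, J, Ci, hCJ, hJ⟩ := lattice_param La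
  have hdim : Module.finrank ℤ La = d := by
    rw [← e.finrank_eq, Module.finrank_fin_fun]
  rw [hdim]
  -- the centre
  set c : Fin d → ℝ := fun j => mu * ((e.symm ⟨x0, hx0⟩ j : ℤ) : ℝ) with hc
  have hJc : ∀ i, (J *ᵥ c) i = mu * x0 i := by
    intro i
    have h1 := hJ (e.symm ⟨x0, hx0⟩) i
    rw [LinearEquiv.apply_symm_apply] at h1
    have h2 : c = mu • fun j => ((e.symm ⟨x0, hx0⟩ j : ℤ) : ℝ) := rfl
    rw [h2, Matrix.mulVec_smul, Pi.smul_apply, smul_eq_mul, ← h1]
  -- lower bound of J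
  set K : ℝ := 1 + ∑ j, ∑ i, Ci j i ^ 2 with hK
  have hK0 : 0 < K := by
    have : 0 ≤ ∑ j, ∑ i, Ci j i ^ 2 := Finset.sum_nonneg fun j _ => Finset.sum_nonneg fun i _ =>
      sq_nonneg _
    linarith
  have hlow : ∀ w : Fin d → ℝ, ∑ j, w j ^ 2 ≤ K * ∑ i, (J *ᵥ w) i ^ 2 := by
    intro w
    have h1 : ∀ j, w j ^ 2 ≤ (∑ i, Ci j i ^ 2) * ∑ i, (J *ᵥ w) i ^ 2 := by
      intro j
      have h2 : w j = ∑ i, Ci j i * (J *ᵥ w) i := by
        have h3 : (Ci *ᵥ (J *ᵥ w)) j = w j := by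
          rw [Matrix.mulVec_mulVec, hCJ, Matrix.one_mulVec]
        rw [← h3]
        rfl
      conv_lhs => rw [h2]
      exact Finset.sum_mul_sq_le_sq_mul_sq _ _ _
    have h4 : 0 ≤ ∑ i, (J *ᵥ w) i ^ 2 := Finset.sum_nonneg fun i _ => sq_nonneg _
    calc ∑ j, w j ^ 2 ≤ ∑ j, (∑ i, Ci j i ^ 2) * ∑ i, (J *ᵥ w) i ^ 2 :=
          Finset.sum_le_sum fun j _ => h1 j
      _ = (∑ j, ∑ i, Ci j i ^ 2) * ∑ i, (J *ᵥ w) i ^ 2 := by rw [Finset.sum_mul]
      _ ≤ K * ∑ i, (J *ᵥ w) i ^ 2 := mul_le_mul_of_nonneg_right (by rw [hK]; linarith) h4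
  -- the functions
  set F : ℕ → (Fin d → ℝ) → ℂ := fun N u => a N (e fun j => ⌊√N * u j + N * c j⌋) with hF
  set f : (Fin d → ℝ) → ℂ := fun u => Complex.exp (-(qf S (J *ᵥ u) : ℂ) +
    Complex.I * (qf B (J *ᵥ u) : ℂ)) with hf
  set κ' : ℝ := κ / (2 * K) with hκ'
  have hκ'0 : 0 < κ' := by positivity
  set bd : (Fin d → ℝ) → ℝ := fun u => (|C| * Real.exp (κ * d / K)) *
    ∏ j, Real.exp (-κ' * u j ^ 2) with hbd
  have hbdi : Integrable bd := by
    rw [hbd, MeasureTheory.volume_pi]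
    exact (Integrable.fintype_prod fun j => integrable_exp_neg_mul_sq hκ'0).const_mul _
  have hmeas : ∀ N, AEStronglyMeasurable (F N) volume := by
    intro N
    have h1 : Measurable (fun u : Fin d → ℝ => fun j => ⌊√N * u j + N * c j⌋) :=
      measurable_pi_lambda _ fun j => Int.measurable_floor.comp
        (((measurable_pi_apply j).const_mul _).add_const _)
    have h2 : Measurable (fun z : Fin d → ℤ => a N (e z)) := measurable_of_countable _
    exact (h2.comp h1).aestronglyMeasurable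
  have hle : ∀ᶠ N : ℕ in atTop, ∀ u, ‖F N u‖ ≤ bd u := by
    filter_upwards [hdom, eventually_ge_atTop 1] with N hdom hN u
    have hN0 : (0 : ℝ) < N := by exact_mod_cast hN
    have hN1 : (1 : ℝ) ≤ N := by exact_mod_cast hN
    set z : Fin d → ℤ := fun j => ⌊√N * u j + N * c j⌋ with hz
    have h1 := hdom (e z) (e z).2
    set w : Fin d → ℝ := fun j => (z j : ℝ) - N * c j with hw
    have h2 : ∀ i, (((e z : ι → ℤ) i : ℤ) : ℝ) - N * (mu * x0 i) = (J *ᵥ w) i := by
      intro i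
      have : w = (fun j => (z j : ℝ)) - (N : ℝ) • c := by
        funext j; simp [hw]
      rw [hJ, this, Matrix.mulVec_sub, Matrix.mulVec_smul, Pi.sub_apply, Pi.smul_apply,
        smul_eq_mul, hJc]
    have h3 : ∑ i, ((((e z : ι → ℤ) i : ℤ) : ℝ) - N * (mu * x0 i)) ^ 2 = ∑ i, (J *ᵥ w) i ^ 2 :=
      Finset.sum_congr rfl fun i _ => by rw [h2]
    rw [h3] at h1
    have h4 := hlow w
    have h5 : ∀ j, N * u j ^ 2 / 2 - 1 ≤ w j ^ 2 := by
      intro j
      have a1 := Int.floor_le (√N * u j + N * c j)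
      have a2 := Int.lt_floor_add_one (√N * u j + N * c j)
      have a3 : w j = (⌊√N * u j + N * c j⌋ : ℝ) - N * c j := rfl
      have hs : √(N : ℝ) ^ 2 = N := Real.sq_sqrt hN0.le
      have a4 : N * u j ^ 2 = (√N * u j) ^ 2 := by rw [mul_pow, hs]
      rw [a4]
      have b1 : √N * u j - w j ≤ 1 := by rw [a3]; linarith
      have b2 : 0 ≤ √N * u j - w j := by rw [a3]; linarith
      nlinarith [sq_nonneg (√N * u j - 2 * w j), sq_nonneg (√N * u j - w j - 1),
        mul_nonneg b2 (sub_nonneg.2 b1), sq_nonneg (w j - (√N * u j - w j))]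
    have h6 : (N : ℝ) / 2 * ∑ j, u j ^ 2 - d ≤ ∑ j, w j ^ 2 := by
      calc (N : ℝ) / 2 * ∑ j, u j ^ 2 - d = ∑ j : Fin d, (N * u j ^ 2 / 2 - 1) := by
            rw [Finset.sum_sub_distrib, Finset.mul_sum]
            simp only [Finset.sum_const, Finset.card_univ, Fintype.card_fin, nsmul_eq_mul, mul_one]
            congr 1
            exact Finset.sum_congr rfl fun j _ => by ring
        _ ≤ _ := Finset.sum_le_sum fun j _ => h5 j
    have h7 : -κ * ((∑ i, (J *ᵥ w) i ^ 2) / N) ≤ κ * d / K + -κ' * ∑ j, u j ^ 2 := by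
      have h8 : (N : ℝ) / 2 * ∑ j, u j ^ 2 - d ≤ K * ∑ i, (J *ᵥ w) i ^ 2 := h6.trans h4
      have h9 : (∑ j, u j ^ 2) / (2 * K) - d / K ≤ (∑ i, (J *ᵥ w) i ^ 2) / N := by
        have e1 : (∑ j, u j ^ 2) / (2 * K) - d / (K * N) ≤ (∑ i, (J *ᵥ w) i ^ 2) / N := by
          rw [le_div_iff₀ hN0]
          have e2 : ((∑ j, u j ^ 2) / (2 * K) - d / (K * N)) * N =
              ((N : ℝ) / 2 * ∑ j, u j ^ 2 - d) / K := by
            field_simp
          rw [e2, div_le_iff₀ hK0]
          linarith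
        have e3 : (d : ℝ) / (K * N) ≤ d / K := by
          apply div_le_div_of_nonneg_left (Nat.cast_nonneg d) hK0
          nlinarith
        linarith
      have h10 := mul_le_mul_of_nonneg_left h9 hκ.le
      have e4 : κ * ((∑ j, u j ^ 2) / (2 * K) - d / K) = κ' * ∑ j, u j ^ 2 - κ * d / K := by
        rw [hκ']; ring
      rw [e4] at h10
      linarith
    have h11 : bd u = |C| * Real.exp (κ * d / K + -κ' * ∑ j, u j ^ 2) := by
      rw [hbd]
      simp only
      rw [← Real.exp_sum, mul_assoc, ← Real.exp_add, ← Finset.mul_sum]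
    rw [h11]
    calc ‖F N u‖ ≤ C * Real.exp (-κ * ((∑ i, (J *ᵥ w) i ^ 2) / N)) := h1
      _ ≤ |C| * Real.exp (-κ * ((∑ i, (J *ᵥ w) i ^ 2) / N)) :=
        mul_le_mul_of_nonneg_right (le_abs_self C) (Real.exp_pos _).le
      _ ≤ _ := mul_le_mul_of_nonneg_left (Real.exp_le_exp.2 h7) (abs_nonneg _)
  have hpt : ∀ u, Tendsto (fun N => F N u) atTop (𝓝 (f u)) := by
    intro u
    refine hlim (J *ᵥ u) (fun N => (e fun j => ⌊√N * u j + N * c j⌋ : ι → ℤ))
      (fun N => (e _).2) fun i => ?_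
    have h1 : ∀ j, Tendsto (fun N : ℕ => ((⌊√N * u j + N * c j⌋ : ℝ) - N * c j) / √N) atTop
        (𝓝 (u j)) := by
      intro j
      have hsq : Tendsto (fun N : ℕ => √(N : ℝ)) atTop atTop :=
        Real.tendsto_sqrt_atTop.comp tendsto_natCast_atTop_atTop
      have h0 : Tendsto (fun N : ℕ => (√(N : ℝ))⁻¹) atTop (𝓝 0) := tendsto_inv_atTop_zero.comp hsq
      have hlo : Tendsto (fun N : ℕ => u j - (√(N : ℝ))⁻¹) atTop (𝓝 (u j)) := by
        simpa using tendsto_const_nhds.sub h0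
      refine tendsto_of_tendsto_of_tendsto_of_le_of_le' hlo tendsto_const_nhds ?_ ?_
      · filter_upwards [eventually_ge_atTop 1] with N hN
        have hN0 : (0 : ℝ) < N := by exact_mod_cast hN
        have hs : 0 < √(N : ℝ) := Real.sqrt_pos.2 hN0
        rw [le_div_iff₀ hs, sub_mul, inv_mul_cancel₀ hs.ne']
        have := Int.lt_floor_add_one (√N * u j + N * c j)
        linarith
      · filter_upwards [eventually_ge_atTop 1] with N hN
        have hN0 : (0 : ℝ) < N := by exact_mod_cast hN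
        have hs : 0 < √(N : ℝ) := Real.sqrt_pos.2 hN0
        rw [div_le_iff₀ hs]
        have := Int.floor_le (√N * u j + N * c j)
        linarith
    have h2 : Tendsto (fun N : ℕ => ∑ j, J i j * (((⌊√N * u j + N * c j⌋ : ℝ) - N * c j) / √N))
        atTop (𝓝 (∑ j, J i j * u j)) := tendsto_finsetSum _ fun j _ => (h1 j).const_mul _
    refine h2.congr fun N => ?_
    rw [hJ]
    have h3 : (N : ℝ) * (mu * x0 i) = ∑ j, J i j * (N * c j) := by
      rw [← hJc]
      simp only [Matrix.mulVec, dotProduct, Finset.mul_sum]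
      exact Finset.sum_congr rfl fun j _ => by ring
    rw [h3]
    simp only [Matrix.mulVec, dotProduct]
    rw [← Finset.sum_sub_distrib, Finset.sum_div]
    exact Finset.sum_congr rfl fun j _ => by ring
  have hD : Tendsto (fun N => ∫ u, F N u) atTop (𝓝 (∫ u, f u)) :=
    tendsto_integral_filter_of_dominated_convergence bd (Eventually.of_forall hmeas)
      (hle.mono fun N h => Eventually.of_forall h) hbdi (Eventually.of_forall hpt)
  refine ⟨∫ u, f u, ?_, ?_⟩
  · have h1 := gauss_ne (Jᵀ * S * J) (Jᵀ * B * J) (fun u hu => by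
      rw [← qf_mul]
      refine hS _ fun h => hu ?_
      have : Ci *ᵥ (J *ᵥ u) = u := by rw [Matrix.mulVec_mulVec, hCJ, Matrix.one_mulVec]
      rw [← this, h, Matrix.mulVec_zero])
    have h2 : f = fun u => Complex.exp (-(qf (Jᵀ * S * J) u : ℂ) +
        Complex.I * (qf (Jᵀ * B * J) u : ℂ)) := by
      funext u; rw [hf]; simp only [qf_mul]
    rw [h2]
    exact h1
  · refine hD.congr' ?_
    filter_upwards [hle, eventually_ge_atTop 1] with N hle hN
    have hN0 : (0 : ℝ) < N := by exact_mod_cast hN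
    have hs : 0 < √(N : ℝ) := Real.sqrt_pos.2 hN0
    set g : (Fin d → ℤ) → ℂ := fun z => a N (e z) with hg
    set G : (Fin d → ℝ) → ℂ := fun w => g fun j => ⌊w j⌋ with hG
    set c' : Fin d → ℝ := (N : ℝ) • c with hc'
    have hFG : F N = fun u => (fun w => G (w + c')) (√(N : ℝ) • u) := by
      funext u
      simp only [hF, hG, hg, hc', Pi.add_apply, Pi.smul_apply, smul_eq_mul]
    have hFi : Integrable (F N) :=
      hbdi.mono' (hmeas N) (Eventually.of_forall hle)
    have hG1 : Integrable (fun w => G (w + c')) := by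
      rw [hFG] at hFi
      exact (integrable_comp_smul_iff volume _ hs.ne').1 hFi
    have hG2 : Integrable G := by
      have := hG1.comp_sub_right c'
      simpa using this
    have h1 : ∫ u, F N u = ((√N ^ d)⁻¹ : ℝ) • ∫ w, G w := by
      rw [hFG, Measure.integral_comp_smul volume (fun w => G (w + c')) (√(N : ℝ)),
        integral_add_right_eq_self G c', Module.finrank_fin_fun, abs_of_pos (by positivity)]
    rw [h1, hG, floor_integral g hG2, Complex.real_smul]
    congr 1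
    exact e.toEquiv.tsum_eq (fun x : La => a N x)

end Pool.Agent.Q191.TW
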