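import Pool.Agent.Q191.TW.Axi

/-!
Layers of crossings, and the trace as a sum over the labels of the edges.
-/

set_option autoImplicit false

namespace Pool.Agent.Q191.TW

open Matrix Finset Pool.Agent.H550R3.Jones Pool.Agent.W715.VC

variable {N : ℕ}

/-- even positions -/
def ev {s : ℕ} (k : Fin s) : Fin (2 * s) := ⟨2 * k, by have := k.2; omega⟩

/-- odd positions -/
def od {s : ℕ} (k : Fin s) : Fin (2 * s) := ⟨2 * k + 1, by have := k.2; omega⟩

/-- crossings in the even positions -/
def evW (b : Bool) : ℕ → List (ℕ × Bool)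
  | 0 => []
  | s + 1 => (0, b) :: shw (shw (evW b s))

theorem evW_eq (b : Bool) (s : ℕ) : evW b s = (List.range s).map fun i => (2 * i, b) := by
  induction s with
  | zero => rfl
  | succ s ih =>
    rw [evW, ih, List.range_succ_eq_map, List.map_cons, List.map_map, shw, shw, List.map_map,
      List.map_map]
    rfl

/-- a layer of crossings -/
noncomputable def lay {s : ℕ} (A : Mt N) (u t : Fin (2 * s) → Fin N) : ℂ :=
  ∏ k : Fin s, A (u (ev k), u (od k)) (t (ev k), t (od k))

theorem run_evW (b : Bool) : ∀ (s : ℕ) (u t : Fin (2 * s) → Fin N),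
    run (evW b s) (List.ofFn u) (dl (List.ofFn t)) = lay (if b then PP N else QQ N) u t
  | 0, u, t => by
    have h1 : List.ofFn u = [] := List.eq_nil_of_length_eq_zero (by simp)
    have h2 : List.ofFn t = [] := List.eq_nil_of_length_eq_zero (by simp)
    rw [h1, h2]
    simp [evW, run, dl, lay]
  | s + 1, u, t => by
    have hu : List.ofFn u = u (ev 0) :: u (od 0) ::
        List.ofFn (fun i : Fin (2 * s) => u ⟨(i : ℕ) + 2, by have := i.2; omega⟩) := by
      have : List.ofFn u = List.ofFn (n := 2 * s + 1 + 1) u := rfl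
      rw [this, List.ofFn_succ, List.ofFn_succ]
      rfl
    have ht : List.ofFn t = t (ev 0) :: t (od 0) ::
        List.ofFn (fun i : Fin (2 * s) => t ⟨(i : ℕ) + 2, by have := i.2; omega⟩) := by
      have : List.ofFn t = List.ofFn (n := 2 * s + 1 + 1) t := rfl
      rw [this, List.ofFn_succ, List.ofFn_succ]
      rfl
    rw [hu, ht]
    simp only [evW, run, ob]
    rw [Finset.sum_eq_single (t (ev 0), t (od 0))]
    · rw [run_shw, run_shw]
      have h1 : (fun r : List (Fin N) => dl (t (ev 0) :: t (od 0) ::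
          List.ofFn (fun i : Fin (2 * s) => t ⟨(i : ℕ) + 2, by have := i.2; omega⟩))
          ((t (ev 0), t (od 0)).1 :: (t (ev 0), t (od 0)).2 :: r)) =
          dl (List.ofFn (fun i : Fin (2 * s) => t ⟨(i : ℕ) + 2, by have := i.2; omega⟩)) := by
        funext r
        simp [dl]
      rw [h1, run_evW b s, lay, lay, Fin.prod_univ_succ]
      rfl
    · rintro ⟨q1, q2⟩ _ hq
      have h2 : ∀ r : List (Fin N), dl (t (ev 0) :: t (od 0) ::
          List.ofFn (fun i : Fin (2 * s) => t ⟨(i : ℕ) + 2, by have := i.2; omega⟩))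
          (q1 :: q2 :: r) = 0 := by
        intro r
        rw [dl, if_neg]
        intro h3
        simp only [List.cons.injEq] at h3
        exact hq (Prod.ext h3.1 h3.2.1)
      rw [run_shw, run_shw]
      simp only [h2]
      rw [run_zero, mul_zero]
    · intro h; exact absurd (mem_univ _) h

theorem rep_evW (b : Bool) (s : ℕ) (u t : Fin (2 * s) → Fin N) :
    rep (crossP N (rt N)) (crossN N (rt N)) (2 * s) (evW b s) u t =
      lay (if b then PP N else QQ N) u t := by
  rw [rep_mx]
  exact run_evW b s u t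

/-! ### the powers of the rotation -/

theorem tl_rot_iter {p : ℕ} (k : ℕ) (t : Fin p → Fin N) : tl (rot^[k] t) = tl t := by
  induction k with
  | zero => rfl
  | succ k ih => rw [Function.iterate_succ_apply', tl_rot, ih]

theorem Rm_pow (m : ℕ) : ∀ (k : ℕ) (s t : Fin (m + 1) → Fin N), (Rm N m ^ k) s t =
    if s = rot^[k] t then ∏ i ∈ range k, Phi N (m + 1) (rot^[i] t 0 : Fin N) (tl t) else 0
  | 0, s, t => by
    rw [pow_zero, Function.iterate_zero, id, range_zero, Finset.prod_empty, Matrix.one_apply]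
  | k + 1, s, t => by
    rw [pow_succ', Matrix.mul_apply, Finset.sum_eq_single (rot^[k] t)]
    · rw [Rm_pow m k, if_pos rfl, Rm, Function.iterate_succ_apply', Finset.prod_range_succ,
        tl_rot_iter]
      split_ifs
      · ring
      · ring
    · intro u _ hu
      rw [Rm_pow m k, if_neg hu, mul_zero]
    · intro h; exact absurd (mem_univ _) h

/-! ### paths -/

theorem pow_path {X : Type} [Fintype X] [DecidableEq X] (M : Matrix X X ℂ) : ∀ (n : ℕ) (a b : X),
    (M ^ (n + 1)) a b = ∑ x : Fin n → X, ∏ j : Fin (n + 1),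
      M (Fin.cons (α := fun _ => X) a x j) (Fin.snoc (α := fun _ => X) x b j)
  | 0, a, b => by
    simp [Fin.snoc]
  | n + 1, a, b => by
    rw [pow_succ', Matrix.mul_apply]
    simp only [pow_path M n]
    rw [← Equiv.sum_comp (Fin.consEquiv (fun _ => X))
      (fun x : Fin (n + 1) → X => ∏ j : Fin (n + 1 + 1),
        M (Fin.cons (α := fun _ => X) a x j) (Fin.snoc (α := fun _ => X) x b j)),
      Fintype.sum_prod_type]
    refine Finset.sum_congr rfl fun c _ => ?_
    rw [Finset.mul_sum]
    refine Finset.sum_congr rfl fun x _ => ?_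
    rw [Fin.prod_univ_succ (n := n + 1)]
    have h1 : Fin.snoc (α := fun _ => X) (Fin.cons (α := fun _ => X) c x) b =
        Fin.cons (α := fun _ => X) c (Fin.snoc (α := fun _ => X) x b) := by
      rw [Fin.cons_snoc_eq_snoc_cons]
    have h2 : (Fin.consEquiv (fun _ => X)) (c, x) = Fin.cons (α := fun _ => X) c x := rfl
    rw [h2, h1]
    rfl

/-- the next states -/
def nx {X : Type} {n : ℕ} (φ : X → X) (y : Fin (n + 1) → X) : Fin (n + 1) → X :=
  Fin.snoc (α := fun _ => X) (Fin.tail y) (φ (y 0))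

theorem trace_path {X : Type} [Fintype X] [DecidableEq X] (M D : Matrix X X ℂ) (φ : X → X)
    (g : X → ℂ) (hD : ∀ s t, D s t = if s = φ t then g t else 0) (n : ℕ) :
    (M ^ (n + 1) * D).trace = ∑ y : Fin (n + 1) → X, (∏ j, M (y j) (nx φ y j)) * g (y 0) := by
  rw [← Equiv.sum_comp (Fin.consEquiv (fun _ => X))
    (fun y : Fin (n + 1) → X => (∏ j, M (y j) (nx φ y j)) * g (y 0)), Fintype.sum_prod_type]
  refine Finset.sum_congr rfl fun a _ => ?_
  rw [Matrix.diag_apply, Matrix.mul_apply, Finset.sum_eq_single (φ a)]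
  · rw [hD, if_pos rfl, pow_path, Finset.sum_mul]
    refine Finset.sum_congr rfl fun x _ => ?_
    rfl
  · intro b _ hb
    rw [hD, if_neg hb, mul_zero]
  · intro h; exact absurd (mem_univ _) h

/-- the matrix of one period -/
theorem period_apply {m : ℕ} (XP XQ : Matrix (Fin (m + 1) → Fin N) (Fin (m + 1) → Fin N) ℂ)
    (s t : Fin (m + 1) → Fin N) :
    (XP * Um N m * (XQ * Rm N m)) s t = ∑ w, XP s w * XQ (rot w) (rot t) *
      (Phi N (m + 1) (t 0) (tl t) / Phi N (m + 1) (w 0) (tl w)) := by
  have h1 : ∀ u, (XQ * Rm N m) u t = XQ u (rot t) * Phi N (m + 1) (t 0) (tl t) := by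
    intro u
    rw [Matrix.mul_apply, Finset.sum_eq_single (rot t)]
    · rw [Rm, if_pos rfl]
    · intro v _ hv
      rw [Rm, if_neg hv, mul_zero]
    · intro h; exact absurd (mem_univ _) h
  rw [mul_assoc, Matrix.mul_apply]
  refine Finset.sum_congr rfl fun w _ => ?_
  rw [Matrix.mul_apply, Finset.sum_eq_single (rot w)]
  · rw [h1, Um, if_pos rfl]
    field_simp
  · intro v _ hv
    rw [Um, if_neg hv, zero_mul]
  · intro h; exact absurd (mem_univ _) h

/-- **The trace as a sum over the labels of the edges.** -/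
theorem trace_config {m : ℕ} (XP XQ : Matrix (Fin (m + 1) → Fin N) (Fin (m + 1) → Fin N) ℂ)
    (n k : ℕ) : ((XP * Um N m * (XQ * Rm N m)) ^ (n + 1) * Rm N m ^ k).trace =
    ∑ y : Fin (n + 1) → Fin (m + 1) → Fin N, ∑ w : Fin (n + 1) → Fin (m + 1) → Fin N,
      (∏ j, XP (y j) (w j) * XQ (rot (w j)) (rot (nx rot^[k] y j)) *
        (Phi N (m + 1) (nx rot^[k] y j 0 : Fin N) (tl (nx rot^[k] y j)) /
          Phi N (m + 1) (w j 0) (tl (w j)))) *
      ∏ i ∈ range k, Phi N (m + 1) (rot^[i] (y 0) 0 : Fin N) (tl (y 0)) := by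
  rw [trace_path _ _ rot^[k] (fun t => ∏ i ∈ range k, Phi N (m + 1) (rot^[i] t 0 : Fin N) (tl t))
    (fun s t => Rm_pow m k s t) n]
  refine Finset.sum_congr rfl fun y _ => ?_
  rw [← Finset.sum_mul]
  congr 1
  simp only [period_apply]
  rw [Finset.prod_univ_sum]
  rw [Fintype.piFinset_univ]

end Pool.Agent.Q191.TW
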