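import Pool.Agent.Q191.TW.Lap

/-!
Linear and quadratic forms on `ℝ^ι`.
-/

set_option autoImplicit false

namespace Pool.Agent.Q191.TW

open Matrix Finset Filter Topology

variable {ι : Type} [Fintype ι]

/-- quadratic forms -/
def IsQf (f : (ι → ℝ) → ℝ) : Prop := ∃ B : Matrix ι ι ℝ, ∀ u, f u = qf B u

/-- linear forms -/
def IsLf (f : (ι → ℝ) → ℝ) : Prop := ∃ c : ι → ℝ, ∀ u, f u = ∑ i, c i * u i

namespace IsLf

theorem coord [DecidableEq ι] (i : ι) : IsLf (fun u : ι → ℝ => u i) :=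
  ⟨Pi.single i 1, fun u => by simp [Pi.single_apply]⟩

theorem add {f g : (ι → ℝ) → ℝ} (hf : IsLf f) (hg : IsLf g) : IsLf (fun u => f u + g u) := by
  obtain ⟨c, hc⟩ := hf
  obtain ⟨e, he⟩ := hg
  refine ⟨fun i => c i + e i, fun u => ?_⟩
  show f u + g u = ∑ i, (c i + e i) * u i
  rw [hc, he, ← Finset.sum_add_distrib]
  exact Finset.sum_congr rfl fun i _ => by ring

theorem smul {f : (ι → ℝ) → ℝ} (a : ℝ) (hf : IsLf f) : IsLf (fun u => a * f u) := by
  obtain ⟨c, hc⟩ := hf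
  refine ⟨fun i => a * c i, fun u => ?_⟩
  show a * f u = ∑ i, (a * c i) * u i
  rw [hc, Finset.mul_sum]
  exact Finset.sum_congr rfl fun i _ => by ring

theorem sub {f g : (ι → ℝ) → ℝ} (hf : IsLf f) (hg : IsLf g) : IsLf (fun u => f u - g u) := by
  have := hf.add (hg.smul (-1))
  refine ⟨this.choose, fun u => ?_⟩
  rw [← this.choose_spec u]
  ring

theorem zero : IsLf (fun _ : ι → ℝ => 0) := ⟨0, fun u => by simp⟩

theorem sum {κ : Type} (s : Finset κ) {f : κ → (ι → ℝ) → ℝ} (hf : ∀ k ∈ s, IsLf (f k)) :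
    IsLf (fun u => ∑ k ∈ s, f k u) := by
  classical
  induction s using Finset.induction_on with
  | empty => simpa using zero
  | insert k s hk ih =>
    simp only [Finset.sum_insert hk]
    exact (hf k (Finset.mem_insert_self _ _)).add (ih fun j hj => hf j (Finset.mem_insert_of_mem hj))

theorem mul {f g : (ι → ℝ) → ℝ} (hf : IsLf f) (hg : IsLf g) : IsQf (fun u => f u * g u) := by
  obtain ⟨c, hc⟩ := hf
  obtain ⟨e, he⟩ := hg
  refine ⟨Matrix.vecMulVec c e, fun u => ?_⟩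
  show f u * g u = u ⬝ᵥ (Matrix.vecMulVec c e *ᵥ u)
  rw [hc, he, dotProduct, Finset.sum_mul]
  refine Finset.sum_congr rfl fun i _ => ?_
  rw [Matrix.mulVec, dotProduct, Finset.mul_sum, Finset.mul_sum]
  refine Finset.sum_congr rfl fun j _ => ?_
  rw [Matrix.vecMulVec_apply]
  ring

theorem homog {f : (ι → ℝ) → ℝ} (hf : IsLf f) (a : ℝ) (u : ι → ℝ) :
    f (fun i => a * u i) = a * f u := by
  obtain ⟨c, hc⟩ := hf
  rw [hc, hc, Finset.mul_sum]
  exact Finset.sum_congr rfl fun i _ => by ring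

theorem continuous {f : (ι → ℝ) → ℝ} (hf : IsLf f) : Continuous f := by
  obtain ⟨c, hc⟩ := hf
  have : f = fun u => ∑ i, c i * u i := funext hc
  rw [this]
  fun_prop

end IsLf

namespace IsQf

theorem add {f g : (ι → ℝ) → ℝ} (hf : IsQf f) (hg : IsQf g) : IsQf (fun u => f u + g u) := by
  obtain ⟨c, hc⟩ := hf
  obtain ⟨e, he⟩ := hg
  refine ⟨c + e, fun u => ?_⟩
  show f u + g u = u ⬝ᵥ ((c + e) *ᵥ u)
  rw [Matrix.add_mulVec, dotProduct_add, hc, he]
  rfl

theorem smul {f : (ι → ℝ) → ℝ} (a : ℝ) (hf : IsQf f) : IsQf (fun u => a * f u) := by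
  obtain ⟨c, hc⟩ := hf
  refine ⟨a • c, fun u => ?_⟩
  show a * f u = u ⬝ᵥ ((a • c) *ᵥ u)
  rw [Matrix.smul_mulVec, dotProduct_smul, hc]
  rfl

theorem zero : IsQf (fun _ : ι → ℝ => 0) := ⟨0, fun u => by simp [qf]⟩

theorem sub {f g : (ι → ℝ) → ℝ} (hf : IsQf f) (hg : IsQf g) : IsQf (fun u => f u - g u) := by
  have := hf.add (hg.smul (-1))
  refine ⟨this.choose, fun u => ?_⟩
  rw [← this.choose_spec u]
  ring

theorem sum {κ : Type} (s : Finset κ) {f : κ → (ι → ℝ) → ℝ} (hf : ∀ k ∈ s, IsQf (f k)) :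
    IsQf (fun u => ∑ k ∈ s, f k u) := by
  classical
  induction s using Finset.induction_on with
  | empty => simpa using zero
  | insert k s hk ih =>
    simp only [Finset.sum_insert hk]
    exact (hf k (Finset.mem_insert_self _ _)).add (ih fun j hj => hf j (Finset.mem_insert_of_mem hj))

theorem homog {f : (ι → ℝ) → ℝ} (hf : IsQf f) (a : ℝ) (u : ι → ℝ) :
    f (fun i => a * u i) = a ^ 2 * f u := by
  obtain ⟨c, hc⟩ := hf
  rw [hc, hc]
  have h1 : (fun i => a * u i) = a • u := rfl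
  show (fun i => a * u i) ⬝ᵥ (c *ᵥ fun i => a * u i) = a ^ 2 * (u ⬝ᵥ (c *ᵥ u))
  rw [h1, Matrix.mulVec_smul, smul_dotProduct, dotProduct_smul, smul_eq_mul, smul_eq_mul]
  ring

theorem continuous {f : (ι → ℝ) → ℝ} (hf : IsQf f) : Continuous f := by
  obtain ⟨c, hc⟩ := hf
  have : f = fun u => ∑ i, u i * ∑ j, c i j * u j := funext hc
  rw [this]
  fun_prop

end IsQf

end Pool.Agent.Q191.TW
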