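import Pool.Agent.W715.VC.Axis
import Pool.Agent.W715.VC.Nil

/-!
Operators on functions of lists of labels: crossings at any place, the action of `E`, and chains of
crossings (a strand passing over or under all others).
-/

set_option autoImplicit false

namespace Pool.Agent.Q191.TW

open Matrix Finset Pool.Agent.H550R3.Jones Pool.Agent.W715.VC
open scoped Kronecker

variable {N : ℕ}

/-- matrices of two strands -/
abbrev Mt (N : ℕ) := Matrix (Fin N × Fin N) (Fin N × Fin N) ℂ

/-- the operator of the matrix `A` at the places `j`, `j + 1` -/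
noncomputable def ob (A : Mt N) : ℕ → List (Fin N) → (List (Fin N) → ℂ) → ℂ
  | 0, a :: b :: r, f => ∑ q : Fin N × Fin N, A (a, b) q * f (q.1 :: q.2 :: r)
  | 0, [], f => f []
  | 0, [a], f => f [a]
  | _ + 1, [], f => f []
  | j + 1, a :: r, f => ob A j r (fun r' => f (a :: r'))

/-- the weight of `K` on one strand -/
noncomputable def kx (x : Fin N) : ℂ := rt N ^ ((N : ℤ) - 1 - 2 * ((x : ℕ) : ℤ))

/-- the weight of `K` -/
noncomputable def kl : List (Fin N) → ℂ
  | [] => 1
  | a :: r => kx a * kl r

/-- the sum of the labels -/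
def wl : List (Fin N) → ℕ
  | [] => 0
  | a :: r => a + wl r

/-- the action of `E` -/
noncomputable def EL : List (Fin N) → (List (Fin N) → ℂ) → ℂ
  | [], _ => 0
  | a :: r, f => (∑ b, Eo N a b * kl r * f (b :: r)) + EL r (fun r' => f (a :: r'))

theorem kx_ne (x : Fin N) : kx x ≠ 0 := zpow_ne_zero _ (rt_ne N)

theorem kl_ne (l : List (Fin N)) : kl l ≠ 0 := by
  induction l with
  | nil => exact one_ne_zero
  | cons a r ih => exact mul_ne_zero (kx_ne a) ih

theorem kl_eq (l : List (Fin N)) : kl l = rt N ^ ((l.length : ℤ) * ((N : ℤ) - 1) - 2 * (wl l : ℤ)) := by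
  induction l with
  | nil => simp [kl, wl]
  | cons a r ih =>
    rw [kl, ih, kx, ← zpow_add₀ (rt_ne N)]
    congr 1
    simp only [List.length_cons, wl]
    push_cast
    ring

theorem wl_append (l r : List (Fin N)) : wl (l ++ r) = wl l + wl r := by
  induction l with
  | nil => simp [wl]
  | cons a l ih => simp only [List.cons_append, wl, ih]; omega

theorem kl_append (l r : List (Fin N)) : kl (l ++ r) = kl l * kl r := by
  induction l with
  | nil => simp [kl]
  | cons a l ih => simp only [List.cons_append, kl, ih]; ring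

theorem kl_single (x : Fin N) : kl [x] = kx x := by simp [kl]

theorem Ko_apply (a b : Fin N) : Ko N a b = if a = b then kx b else 0 := by
  rw [Ko, WM.K, Matrix.diagonal_apply]
  split_ifs with h
  · subst h
    rw [kx, one_mul]
    rfl
  · rfl

/-- `EE` applied to a function -/
theorem EE_sum (a b : Fin N) (g : Fin N × Fin N → ℂ) :
    ∑ p, EE N (a, b) p * g p =
      (∑ a', Eo N a a' * kx b * g (a', b)) + ∑ b', Eo N b b' * g (a, b') := by
  simp only [EE, Matrix.add_apply, Matrix.kroneckerMap_apply, add_mul, Finset.sum_add_distrib]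
  congr 1
  · rw [Fintype.sum_prod_type]
    refine Finset.sum_congr rfl fun a' _ => ?_
    rw [Finset.sum_eq_single b]
    · rw [Ko_apply, if_pos rfl]
    · intro b' _ hb
      rw [Ko_apply, if_neg (Ne.symm hb)]; ring
    · intro h; exact absurd (mem_univ _) h
  · rw [Fintype.sum_prod_type, Finset.sum_eq_single a]
    · refine Finset.sum_congr rfl fun b' _ => ?_
      rw [Matrix.one_apply_eq, one_mul]
    · intro a' _ ha
      refine Finset.sum_eq_zero fun b' _ => ?_
      rw [Matrix.one_apply_ne (Ne.symm ha)]; ring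
    · intro h; exact absurd (mem_univ _) h

/-! ### linearity -/

theorem ob_add (A : Mt N) : ∀ (j : ℕ) (l : List (Fin N)) (f g : List (Fin N) → ℂ),
    ob A j l (fun l' => f l' + g l') = ob A j l f + ob A j l g
  | 0, [], f, g => by simp [ob]
  | 0, [a], f, g => by simp [ob]
  | 0, a :: b :: r, f, g => by simp only [ob, mul_add, Finset.sum_add_distrib]
  | j + 1, [], f, g => by simp [ob]
  | j + 1, a :: r, f, g => by simp only [ob]; exact ob_add A j r _ _

theorem ob_smul (A : Mt N) (c : ℂ) : ∀ (j : ℕ) (l : List (Fin N)) (f : List (Fin N) → ℂ),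
    ob A j l (fun l' => c * f l') = c * ob A j l f
  | 0, [], f => by simp [ob]
  | 0, [a], f => by simp [ob]
  | 0, a :: b :: r, f => by
    simp only [ob, Finset.mul_sum]
    exact Finset.sum_congr rfl fun q _ => by ring
  | j + 1, [], f => by simp [ob]
  | j + 1, a :: r, f => by simp only [ob]; exact ob_smul A c j r _

theorem ob_zero (A : Mt N) (j : ℕ) (l : List (Fin N)) : ob A j l (fun _ => 0) = 0 := by
  have := ob_smul A 0 j l (fun _ => 0)
  simpa using this

theorem ob_sum (A : Mt N) {ι : Type} (s : Finset ι) (j : ℕ) (l : List (Fin N))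
    (f : ι → List (Fin N) → ℂ) :
    ob A j l (fun l' => ∑ i ∈ s, f i l') = ∑ i ∈ s, ob A j l (f i) := by
  classical
  induction s using Finset.induction_on with
  | empty => simp only [Finset.sum_empty]; exact ob_zero A j l
  | insert i s hi ih => simp only [Finset.sum_insert hi]; rw [ob_add, ih]

theorem EL_add : ∀ (l : List (Fin N)) (f g : List (Fin N) → ℂ),
    EL l (fun l' => f l' + g l') = EL l f + EL l g
  | [], f, g => by simp [EL]
  | a :: r, f, g => by
    simp only [EL, mul_add, Finset.sum_add_distrib]
    rw [EL_add r]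
    ring

theorem EL_smul (c : ℂ) : ∀ (l : List (Fin N)) (f : List (Fin N) → ℂ),
    EL l (fun l' => c * f l') = c * EL l f
  | [], f => by simp [EL]
  | a :: r, f => by
    simp only [EL]
    rw [EL_smul c r, mul_add, Finset.mul_sum]
    congr 1
    exact Finset.sum_congr rfl fun q _ => by ring

theorem EL_zero (l : List (Fin N)) : EL l (fun _ => 0) = 0 := by
  have := EL_smul 0 l (fun _ => 0)
  simpa using this

theorem EL_sum {ι : Type} (s : Finset ι) (l : List (Fin N)) (f : ι → List (Fin N) → ℂ) :
    EL l (fun l' => ∑ i ∈ s, f i l') = ∑ i ∈ s, EL l (f i) := by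
  classical
  induction s using Finset.induction_on with
  | empty => simp only [Finset.sum_empty]; exact EL_zero l
  | insert i s hi ih => simp only [Finset.sum_insert hi]; rw [EL_add, ih]

/-! ### locality -/

/-- a matrix which preserves the weights -/
def Wp (A : Mt N) : Prop := ∀ p q, A p q ≠ 0 → (p.1 : ℕ) + p.2 = q.1 + q.2

theorem Wp_P (v : ℂ) : Wp (crossP N v) := by
  intro p q h
  unfold crossP at h
  split_ifs at h with hc
  · exact hc.1
  · exact absurd rfl h

theorem Wp_Q (v : ℂ) : Wp (crossN N v) := by
  intro p q h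
  unfold crossN at h
  split_ifs at h with hc
  · exact hc.1
  · exact absurd rfl h

/-- `ob` only uses lists of the same length and weight -/
theorem ob_congr {A : Mt N} (hA : Wp A) : ∀ (j : ℕ) (l : List (Fin N)) (f g : List (Fin N) → ℂ),
    (∀ l', l'.length = l.length → wl l' = wl l → f l' = g l') → ob A j l f = ob A j l g
  | 0, [], f, g, h => by simp only [ob]; exact h [] rfl rfl
  | 0, [a], f, g, h => by simp only [ob]; exact h [a] rfl rfl
  | 0, a :: b :: r, f, g, h => by
    simp only [ob]
    refine Finset.sum_congr rfl fun q _ => ?_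
    by_cases hq : A (a, b) q = 0
    · rw [hq]; ring
    · rw [h (q.1 :: q.2 :: r) rfl (by have := hA _ _ hq; simp only [wl] at this ⊢; omega)]
  | j + 1, [], f, g, h => by simp only [ob]; exact h [] rfl rfl
  | j + 1, a :: r, f, g, h => by
    simp only [ob]
    refine ob_congr hA j r _ _ fun l' h1 h2 => h _ ?_ ?_
    · simp [h1]
    · simp only [wl, h2]

theorem Eo_ne {a b : Fin N} (h : Eo N a b ≠ 0) : (b : ℕ) = a + 1 := by
  by_contra h1
  apply h
  show (irr (rt N) N).E a b = 0
  simp only [irr]
  rw [if_neg h1]

theorem EL_congr : ∀ (l : List (Fin N)) (f g : List (Fin N) → ℂ),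
    (∀ l', l'.length = l.length → wl l' = wl l + 1 → f l' = g l') → EL l f = EL l g
  | [], f, g, h => by simp [EL]
  | a :: r, f, g, h => by
    simp only [EL]
    congr 1
    · refine Finset.sum_congr rfl fun b _ => ?_
      by_cases hb : Eo N a b = 0
      · rw [hb]; ring
      · rw [h (b :: r) rfl (by have := Eo_ne hb; simp only [wl]; omega)]
    · refine EL_congr r _ _ fun l' h1 h2 => h _ ?_ ?_
      · simp [h1]
      · simp only [wl, h2]; omega

/-- `E` commutes with the crossings -/
theorem EL_ob {A : Mt N} (hA : Wp A) (hE : A * EE N = EE N * A) :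
    ∀ (j : ℕ) (l : List (Fin N)) (f : List (Fin N) → ℂ),
    EL l (fun l' => ob A j l' f) = ob A j l (fun l' => EL l' f)
  | 0, [], f => by simp [ob, EL]
  | 0, [a], f => by simp [ob, EL]
  | 0, a :: b :: r, f => by
    have h1 : EL (a :: b :: r) (fun l' => ob A 0 l' f) =
        kl r * ∑ p, EE N (a, b) p * ob A 0 (p.1 :: p.2 :: r) f +
          EL r (fun r' => ob A 0 (a :: b :: r') f) := by
      rw [EE_sum]
      simp only [EL, kl]
      rw [mul_add, Finset.mul_sum, Finset.mul_sum, add_assoc]
      congr 1
      · exact Finset.sum_congr rfl fun a' _ => by ring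
      · congr 1
        exact Finset.sum_congr rfl fun b' _ => by ring
    have h2 : ∀ (p : Fin N × Fin N), EL (p.1 :: p.2 :: r) f =
        kl r * (∑ q, EE N p q * f (q.1 :: q.2 :: r)) + EL r (fun r' => f (p.1 :: p.2 :: r')) := by
      rintro ⟨a, b⟩
      rw [EE_sum]
      simp only [EL, kl]
      rw [mul_add, Finset.mul_sum, Finset.mul_sum, add_assoc]
      congr 1
      · exact Finset.sum_congr rfl fun a' _ => by ring
      · congr 1
        exact Finset.sum_congr rfl fun b' _ => by ring
    rw [h1]
    simp only [ob]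
    simp only [h2]
    rw [EL_sum]
    simp only [EL_smul]
    simp only [mul_add, Finset.sum_add_distrib]
    congr 1
    have h3 : ∀ q, (A * EE N) (a, b) q = (EE N * A) (a, b) q := fun q => by rw [hE]
    simp only [Matrix.mul_apply] at h3
    have h4 : ∑ p, EE N (a, b) p * ∑ q, A p q * f (q.1 :: q.2 :: r) =
        ∑ p, A (a, b) p * ∑ q, EE N p q * f (q.1 :: q.2 :: r) := by
      simp only [Finset.mul_sum]
      rw [Finset.sum_comm]
      conv_rhs => rw [Finset.sum_comm]
      refine Finset.sum_congr rfl fun q _ => ?_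
      have := h3 q
      calc ∑ p, EE N (a, b) p * (A p q * f (q.1 :: q.2 :: r)) =
            (∑ p, EE N (a, b) p * A p q) * f (q.1 :: q.2 :: r) := by
            rw [Finset.sum_mul]; exact Finset.sum_congr rfl fun p _ => by ring
        _ = (∑ p, A (a, b) p * EE N p q) * f (q.1 :: q.2 :: r) := by rw [this]
        _ = _ := by rw [Finset.sum_mul]; exact Finset.sum_congr rfl fun p _ => by ring
    have h5 : ∀ p : Fin N × Fin N, (fun r => ∑ q, A p q * f (q.1 :: q.2 :: r)) r =
      ∑ q, A p q * f (q.1 :: q.2 :: r) := fun p => rfl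
    rw [h4, Finset.mul_sum]
    exact Finset.sum_congr rfl fun p _ => by ring
  | j + 1, [], f => by simp [ob, EL]
  | j + 1, a :: r, f => by
    simp only [EL, ob]
    rw [EL_ob hA hE j r, ob_add, ob_sum]
    congr 1
    refine Finset.sum_congr rfl fun b _ => ?_
    rw [← ob_smul]
    refine ob_congr hA j r _ _ fun l' h1 h2 => ?_
    rw [kl_eq, kl_eq, h1, h2]

/-! ### appending -/

theorem ob_append (A : Mt N) : ∀ (j : ℕ) (u w : List (Fin N)) (f : List (Fin N) → ℂ),
    j + 2 ≤ u.length → ob A j (u ++ w) f = ob A j u (fun u' => f (u' ++ w))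
  | 0, [], w, f, h => by simp at h
  | 0, [a], w, f, h => by simp at h
  | 0, a :: b :: r, w, f, h => by simp only [List.cons_append, ob]
  | j + 1, [], w, f, h => by simp at h
  | j + 1, a :: r, w, f, h => by
    simp only [List.cons_append, ob]
    exact ob_append A j r w _ (by simpa using h)

theorem ob_at (A : Mt N) : ∀ (u : List (Fin N)) (a b : Fin N) (r : List (Fin N))
    (f : List (Fin N) → ℂ), ob A u.length (u ++ a :: b :: r) f =
      ∑ q : Fin N × Fin N, A (a, b) q * f (u ++ q.1 :: q.2 :: r)
  | [], a, b, r, f => by simp [ob]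
  | c :: u, a, b, r, f => by
    simp only [List.length_cons, List.cons_append, ob]
    exact ob_at A u a b r _

theorem EL_append1 : ∀ (u : List (Fin N)) (x : Fin N) (f : List (Fin N) → ℂ),
    EL (u ++ [x]) f = kx x * EL u (fun u' => f (u' ++ [x])) + ∑ b, Eo N x b * f (u ++ [b])
  | [], x, f => by simp [EL, kl]
  | a :: u, x, f => by
    simp only [List.cons_append, EL]
    rw [EL_append1 u x, kl_append, kl_single]
    rw [mul_add, Finset.mul_sum, ← add_assoc]
    congr 2
    exact Finset.sum_congr rfl fun b _ => by ring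

/-! ### chains -/

/-- the first strand passes to the place `m`: the crossings `A` at the places `0, …, m - 1`, the one
at `0` first -/
noncomputable def Gam (A : Mt N) : ℕ → List (Fin N) → (List (Fin N) → ℂ) → ℂ
  | 0, l, f => f l
  | m + 1, l, f => ob A m l (fun l' => Gam A m l' f)

theorem Gam_append (A : Mt N) : ∀ (m : ℕ) (u w : List (Fin N)) (f : List (Fin N) → ℂ),
    m + 1 ≤ u.length → Gam A m (u ++ w) f = Gam A m u (fun u' => f (u' ++ w))
  | 0, u, w, f, _ => rfl
  | m + 1, u, w, f, h => by
    simp only [Gam]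
    rw [ob_append A m u w _ h]
    have h1 : ∀ (B : Mt N) (j : ℕ) (u : List (Fin N)) (f g : List (Fin N) → ℂ),
        (∀ l', l'.length = u.length → f l' = g l') → ob B j u f = ob B j u g := by
      intro B j
      induction j with
      | zero =>
        intro u f g h
        match u with
        | [] => simp only [ob]; exact h [] rfl
        | [a] => simp only [ob]; exact h [a] rfl
        | a :: b :: r =>
          simp only [ob]
          exact Finset.sum_congr rfl fun q _ => by rw [h (q.1 :: q.2 :: r) rfl]
      | succ j ih =>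
        intro u f g h
        match u with
        | [] => simp only [ob]; exact h [] rfl
        | a :: r =>
          simp only [ob]
          exact ih r _ _ fun l' hl' => h _ (by simp [hl'])
    exact h1 A m u _ _ fun l' hl' => Gam_append A m l' w f (by omega)

theorem EL_Gam {A : Mt N} (hA : Wp A) (hE : A * EE N = EE N * A) :
    ∀ (m : ℕ) (l : List (Fin N)) (f : List (Fin N) → ℂ),
    EL l (fun l' => Gam A m l' f) = Gam A m l (fun l' => EL l' f)
  | 0, l, f => rfl
  | m + 1, l, f => by
    simp only [Gam]
    rw [EL_ob hA hE]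
    exact ob_congr hA m l _ _ fun l' _ _ => EL_Gam hA hE m l' f

theorem Gam_congr {A : Mt N} (hA : Wp A) : ∀ (m : ℕ) (l : List (Fin N))
    (f g : List (Fin N) → ℂ), (∀ l', l'.length = l.length → wl l' = wl l → f l' = g l') →
    Gam A m l f = Gam A m l g
  | 0, l, f, g, h => h l rfl rfl
  | m + 1, l, f, g, h => by
    simp only [Gam]
    refine ob_congr hA m l _ _ fun l' h1 h2 => Gam_congr hA m l' f g fun l'' h3 h4 => h _ ?_ ?_
    · rw [h3, h1]
    · rw [h4, h2]

end Pool.Agent.Q191.TW
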