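import Pool.Agent.Q191.TW.Tra

/-!
Matrices of operators on functions of lists; words of crossings; nilpotency of `E`.
-/

set_option autoImplicit false

namespace Pool.Agent.Q191.TW

open Matrix Finset Pool.Agent.H550R3.Jones Pool.Agent.W715.VC
open scoped Kronecker

variable {N : ℕ}

/-- operators on functions of lists -/
abbrev Op (N : ℕ) := List (Fin N) → (List (Fin N) → ℂ) → ℂ

/-- linear operators which preserve the length -/
structure Lop (O : Op N) : Prop where
  add : ∀ l f g, O l (fun l' => f l' + g l') = O l f + O l g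
  smul : ∀ (c : ℂ) l f, O l (fun l' => c * f l') = c * O l f
  loc : ∀ l f g, (∀ l', l'.length = l.length → f l' = g l') → O l f = O l g

/-- composition -/
def cmp (O O' : Op N) : Op N := fun l f => O l (fun l' => O' l' f)

theorem Lop.sum {O : Op N} (hO : Lop O) {ι : Type} (s : Finset ι) (l : List (Fin N))
    (f : ι → List (Fin N) → ℂ) : O l (fun l' => ∑ i ∈ s, f i l') = ∑ i ∈ s, O l (f i) := by
  classical
  induction s using Finset.induction_on with
  | empty =>
    simp only [Finset.sum_empty]
    have := hO.smul 0 l (fun _ => 0)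
    simpa using this
  | insert i s hi ih => simp only [Finset.sum_insert hi]; rw [hO.add, ih]

theorem Lop.cmp {O O' : Op N} (hO : Lop O) (hO' : Lop O') : Lop (cmp O O') where
  add l f g := by
    unfold TW.cmp
    rw [← hO.add]
    exact hO.loc _ _ _ fun l' _ => hO'.add l' f g
  smul c l f := by
    unfold TW.cmp
    rw [← hO.smul]
    exact hO.loc _ _ _ fun l' _ => hO'.smul c l' f
  loc l f g h := hO.loc _ _ _ fun l' hl' => hO'.loc _ _ _ fun l'' hl'' => h l'' (by rw [hl'', hl'])

theorem Lop_id : Lop (fun (l : List (Fin N)) f => f l) := ⟨fun _ _ _ => rfl, fun _ _ _ => rfl,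
  fun l f g h => h l rfl⟩

theorem ob_loc (A : Mt N) : ∀ (j : ℕ) (l : List (Fin N)) (f g : List (Fin N) → ℂ),
    (∀ l', l'.length = l.length → f l' = g l') → ob A j l f = ob A j l g
  | 0, [], f, g, h => by simp only [ob]; exact h [] rfl
  | 0, [a], f, g, h => by simp only [ob]; exact h [a] rfl
  | 0, a :: b :: r, f, g, h => by
    simp only [ob]
    exact Finset.sum_congr rfl fun q _ => by rw [h (q.1 :: q.2 :: r) rfl]
  | j + 1, [], f, g, h => by simp only [ob]; exact h [] rfl
  | j + 1, a :: r, f, g, h => by
    simp only [ob]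
    exact ob_loc A j r _ _ fun l' hl' => h _ (by simp [hl'])

theorem EL_loc : ∀ (l : List (Fin N)) (f g : List (Fin N) → ℂ),
    (∀ l', l'.length = l.length → f l' = g l') → EL l f = EL l g :=
  fun l f g h => EL_congr l f g fun l' h1 _ => h l' h1

theorem Lop_ob (A : Mt N) (j : ℕ) : Lop (ob A j) := ⟨ob_add A j, fun c l f => ob_smul A c j l f,
  ob_loc A j⟩

theorem Lop_EL : Lop (EL (N := N)) := ⟨EL_add, EL_smul, EL_loc⟩

/-- the delta function -/
noncomputable def dl (t : List (Fin N)) : List (Fin N) → ℂ := fun l => if l = t then 1 else 0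

/-- the matrix of an operator on the lists of length `k` -/
noncomputable def mx (k : ℕ) (O : Op N) : Matrix (Fin k → Fin N) (Fin k → Fin N) ℂ :=
  fun s t => O (List.ofFn s) (dl (List.ofFn t))

theorem ofFn_inj {k : ℕ} {s t : Fin k → Fin N} : List.ofFn s = List.ofFn t ↔ s = t :=
  List.ofFn_injective.eq_iff

theorem exists_ofFn {k : ℕ} (l : List (Fin N)) (h : l.length = k) : ∃ s : Fin k → Fin N,
    l = List.ofFn s := by
  subst h
  exact ⟨l.get, (List.ofFn_get l).symm⟩

theorem mx_apply {O : Op N} (hO : Lop O) {k : ℕ} (s : Fin k → Fin N) (f : List (Fin N) → ℂ) :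
    O (List.ofFn s) f = ∑ t, mx k O s t * f (List.ofFn t) := by
  have h1 : O (List.ofFn s) f = O (List.ofFn s) (fun l => ∑ t : Fin k → Fin N,
      f (List.ofFn t) * dl (List.ofFn t) l) := by
    refine hO.loc _ _ _ fun l hl => ?_
    obtain ⟨u, rfl⟩ := exists_ofFn l (by rw [hl, List.length_ofFn] : l.length = k)
    rw [Finset.sum_eq_single u]
    · simp [dl]
    · intro t _ ht
      rw [dl, if_neg (fun h => ht (ofFn_inj.1 h).symm), mul_zero]
    · intro h; exact absurd (mem_univ _) h
  rw [h1, hO.sum]
  refine Finset.sum_congr rfl fun t _ => ?_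
  rw [hO.smul, mul_comm]
  rfl

theorem mx_cmp {O O' : Op N} (hO : Lop O) (k : ℕ) : mx k (cmp O O') = mx k O * mx k O' := by
  ext s t
  rw [Matrix.mul_apply]
  exact mx_apply hO s _

theorem mx_congr {O O' : Op N} (k : ℕ) (h : ∀ l f, O l f = O' l f) : mx k O = mx k O' := by
  ext s t; exact h _ _

/-! ### words -/

/-- the operator of a word of crossings -/
noncomputable def run : List (ℕ × Bool) → List (Fin N) → (List (Fin N) → ℂ) → ℂ
  | [], l, f => f l
  | g :: w, l, f => ob (if g.2 then PP N else QQ N) g.1 l (fun l' => run w l' f)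

theorem run_append (w w' : List (ℕ × Bool)) (l : List (Fin N)) (f : List (Fin N) → ℂ) :
    run (w ++ w') l f = run w l (fun l' => run w' l' f) := by
  induction w generalizing l with
  | nil => rfl
  | cons g w ih =>
    simp only [List.cons_append, run]
    exact ob_loc _ _ _ _ _ fun l' _ => ih l'

theorem Lop_run (w : List (ℕ × Bool)) : Lop (run (N := N) w) := by
  induction w with
  | nil => exact Lop_id
  | cons g w ih => exact (Lop_ob (if g.2 then PP N else QQ N) g.1).cmp ih

theorem gen_mx (A : Mt N) : ∀ (j k : ℕ), gen A k j = mx k (ob A j)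
  | 0, 0 => by
    ext s t
    simp only [gen, mx, List.ofFn_zero, ob, dl]
    simp [Subsingleton.elim s t]
  | 0, 1 => by
    ext s t
    simp only [gen, mx, List.ofFn_succ, List.ofFn_zero, ob, dl]
    rw [dif_neg (by omega)]
    have : s = t ↔ [s 0] = [t 0] := by
      constructor
      · intro h; rw [h]
      · intro h
        funext i
        rw [Subsingleton.elim i 0]
        simpa using h
    simp only [this]
  | 0, k + 2 => by
    ext s t
    simp only [gen, mx, List.ofFn_succ, ob, dl]
    rw [dif_pos (by omega)]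
    have e0 : (⟨0, by omega⟩ : Fin (k + 2)) = 0 := rfl
    have e1 : (⟨0 + 1, by omega⟩ : Fin (k + 2)) = 1 := rfl
    rw [Finset.sum_eq_single (t 0, t 1)]
    · by_cases h : ∀ j : Fin (k + 2), (j : ℕ) ≠ 0 → (j : ℕ) ≠ 0 + 1 → s j = t j
      · rw [if_pos h]
        have h1 : (fun i : Fin k => s i.succ.succ) = fun i => t i.succ.succ := by
          funext i
          exact h _ (by simp) (by simp)
        rw [h1]
        simp [e0, e1]
      · rw [if_neg h, if_neg, mul_zero]
        intro h1
        apply h
        intro j hj0 hj1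
        simp only [List.cons.injEq] at h1
        have h2 := congrFun (ofFn_inj.1 h1.2.2) ⟨(j : ℕ) - 2, by omega⟩
        have h3 : (⟨(j : ℕ) - 2, by omega⟩ : Fin k).succ.succ = j := by
          apply Fin.ext
          simp only [Fin.val_succ]
          omega
        simpa only [h3] using h2
    · rintro ⟨q1, q2⟩ _ hq
      rw [if_neg, mul_zero]
      intro h1
      simp only [List.cons.injEq] at h1
      exact hq (Prod.ext h1.1 h1.2.1)
    · intro h; exact absurd (mem_univ _) h
  | j + 1, 0 => by
    ext s t
    simp only [gen, mx, List.ofFn_zero, ob, dl]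
    simp [Subsingleton.elim s t]
  | j + 1, k + 1 => by
    rw [Pool.Agent.H229R3.J.gen_sh, gen_mx A j k]
    ext s t
    simp only [Pool.Agent.H229R3.J.sh, mx, List.ofFn_succ, ob, dl, List.cons.injEq]
    by_cases h : s 0 = t 0
    · rw [if_pos h]
      simp only [h, true_and]
      rfl
    · rw [if_neg h]
      simp only [h, false_and, if_false]
      exact (ob_zero A j _).symm

theorem rep_mx (w : List (ℕ × Bool)) (k : ℕ) :
    rep (crossP N (rt N)) (crossN N (rt N)) k w = mx k (run w) := by
  induction w with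
  | nil =>
    ext s t
    simp [rep, mx, run, dl, Matrix.one_apply]
  | cons g w ih =>
    have h1 : rep (crossP N (rt N)) (crossN N (rt N)) k (g :: w) =
        gen (if g.2 then crossP N (rt N) else crossN N (rt N)) k g.1 *
          rep (crossP N (rt N)) (crossN N (rt N)) k w := by
      simp [rep]
    rw [h1, ih, gen_mx]
    exact (mx_cmp (Lop_ob (if g.2 then PP N else QQ N) g.1) k).symm

theorem EL_run (w : List (ℕ × Bool)) : ∀ (l : List (Fin N)) (f : List (Fin N) → ℂ),
    EL l (fun l' => run w l' f) = run w l (fun l' => EL l' f) := by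
  induction w with
  | nil => intro l f; rfl
  | cons g w ih =>
    intro l f
    simp only [run]
    have hA : Wp (if g.2 then PP N else QQ N) := by
      split_ifs
      · exact Wp_P _
      · exact Wp_Q _
    have hE : (if g.2 then PP N else QQ N) * EE N = EE N * (if g.2 then PP N else QQ N) := by
      split_ifs
      · exact PP_EE
      · exact QQ_EE
    rw [EL_ob hA hE]
    exact ob_loc _ _ _ _ _ fun l' _ => ih l' f

/-! ### nilpotency -/

theorem Em_kron {W : Type} [Fintype W] [DecidableEq W] (κ : W → ℂ) (EW : Matrix W W ℂ) :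
    Em (N := N) κ EW = Eo N ⊗ₖ diagonal κ + (1 : Matrix (Fin N) (Fin N) ℂ) ⊗ₖ EW := by
  ext p q
  simp only [Em, Matrix.add_apply, Matrix.kroneckerMap_apply, Matrix.diagonal_apply,
    Matrix.one_apply]
  split_ifs <;> ring

/-- `E` on the functions of `k` labels -/
noncomputable def EM (N k : ℕ) : Matrix (Fin k → Fin N) (Fin k → Fin N) ℂ := mx k EL

/-- the first label apart -/
def ce (N k : ℕ) : Fin N × (Fin k → Fin N) ≃ (Fin (k + 1) → Fin N) := Fin.consEquiv (fun _ => Fin N)

theorem ce_apply (k : ℕ) (p : Fin N × (Fin k → Fin N)) :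
    List.ofFn (ce N k p) = p.1 :: List.ofFn p.2 := by
  rw [List.ofFn_succ]
  rfl

theorem EM_succ (k : ℕ) : (EM N (k + 1)).submatrix (ce N k) (ce N k) =
    Em (fun s => kl (List.ofFn s)) (EM N k) := by
  ext p q
  rw [Matrix.submatrix_apply]
  simp only [EM, mx, ce_apply, EL, Em, dl, List.cons.injEq]
  congr 1
  · rw [Finset.sum_eq_single q.1]
    · by_cases h : p.2 = q.2
      · simp [h]
      · have h' : ¬ List.ofFn p.2 = List.ofFn q.2 := fun h2 => h (ofFn_inj.1 h2)
        simp [h, h']
    · intro b _ hb
      rw [if_neg (fun h => hb h.1), mul_zero]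
    · intro h; exact absurd (mem_univ _) h
  · by_cases h : p.1 = q.1
    · simp only [h, true_and, if_true]
      rfl
    · simp only [h, false_and, if_false]
      exact EL_zero _

theorem wl_ofFn_succ {k : ℕ} (s t : Fin k → Fin N) (h : EM N k s t ≠ 0) :
    wl (List.ofFn t) = wl (List.ofFn s) + 1 := by
  by_contra h1
  apply h
  unfold EM mx
  rw [EL_congr _ _ (fun _ => 0)]
  · exact EL_zero _
  · intro l' _ h3
    rw [dl, if_neg]
    intro h4
    rw [h4] at h3
    exact h1 h3

theorem submatrix_pow {ι κ : Type} [Fintype ι] [DecidableEq ι] [Fintype κ] [DecidableEq κ]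
    (e : ι ≃ κ) (A : Matrix κ κ ℂ) (n : ℕ) : (A ^ n).submatrix e e = (A.submatrix e e) ^ n := by
  induction n with
  | zero => simp
  | succ n ih => rw [pow_succ, pow_succ, ← ih, Matrix.submatrix_mul_equiv]

theorem kron_pow' {V W : Type} [Fintype V] [DecidableEq V] [Fintype W] [DecidableEq W]
    (A : Matrix V V ℂ) (B : Matrix W W ℂ) (n : ℕ) : (A ⊗ₖ B) ^ n = (A ^ n) ⊗ₖ (B ^ n) := by
  induction n with
  | zero => simp
  | succ n ih => rw [pow_succ, pow_succ, pow_succ, ih, ← Matrix.mul_kronecker_mul]

theorem EM_nil (hN : 0 < N) : ∀ k, EM N k ^ N = 0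
  | 0 => by
    have : EM N 0 = 0 := by
      ext s t
      simp [EM, mx, EL]
    rw [this, zero_pow hN.ne']
  | k + 1 => by
    have ih := EM_nil hN k
    have h1 : (EM N (k + 1) ^ N).submatrix (ce N k) (ce N k) = 0 := by
      rw [submatrix_pow, EM_succ, Em_kron,
        add_pow_root hN (q_pow_N hN) (fun j h0 h1 => q_pow_ne h0 h1) ?_]
      · rw [kron_pow', kron_pow', Eo_pow_N, ih]
        simp
      · ext p q
        rw [← Matrix.mul_kronecker_mul, ← Matrix.mul_kronecker_mul, mul_one, one_mul,
          Matrix.smul_apply, Matrix.kroneckerMap_apply, Matrix.kroneckerMap_apply,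
          Matrix.diagonal_mul, Matrix.mul_diagonal, smul_eq_mul]
        by_cases h : EM N k p.2 q.2 = 0
        · rw [h]; ring
        · have h2 := wl_ofFn_succ _ _ h
          have h3 : kl (List.ofFn p.2) = rt N ^ (2 : ℤ) * kl (List.ofFn q.2) := by
            rw [kl_eq, kl_eq, h2, ← zpow_add₀ (rt_ne N), List.length_ofFn, List.length_ofFn]
            congr 1
            push_cast
            ring
          rw [h3]; ring
    ext s t
    have := congrFun (congrFun h1 ((ce N k).symm s)) ((ce N k).symm t)
    rw [Matrix.submatrix_apply, Equiv.apply_symm_apply, Equiv.apply_symm_apply] at this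
    exact this

end Pool.Agent.Q191.TW
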