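import Pool.Agent.Q191.TW.Wt
import Pool.Agent.Q191.TW.Lin

/-!
Asymptotics of the sums over the labels of the edges of a network of crossings.
-/

set_option autoImplicit false

namespace Pool.Agent.Q191.TW

open Matrix Finset Filter Topology
open Pool.Agent.W719.BS (D ratio_of_sq)

/-- a network: the crossings of the two signs and their four edges, and the critical labels -/
structure Net (ι K Kq : Type) where
  pa : K → ι
  pb : K → ι
  pc : K → ι
  pd : K → ι
  qa : Kq → ι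
  qb : Kq → ι
  qc : Kq → ι
  qd : Kq → ι
  rho : ι → ℤ
  hpa : ∀ k, rho (pa k) = 3
  hpb : ∀ k, rho (pb k) = 1
  hpc : ∀ k, rho (pc k) = 3
  hpd : ∀ k, rho (pd k) = 1
  hqa : ∀ k, rho (qa k) = 1
  hqb : ∀ k, rho (qb k) = 3
  hqc : ∀ k, rho (qc k) = 1
  hqd : ∀ k, rho (qd k) = 3

variable {ι K Kq : Type} [Fintype ι] [DecidableEq ι] [Fintype K] [Fintype Kq]

/-- the labels with conservation at the crossings -/
def Net.La (G : Net ι K Kq) : Submodule ℤ (ι → ℤ) where
  carrier := {x | (∀ k, x (G.pc k) + x (G.pd k) = x (G.pa k) + x (G.pb k)) ∧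
    ∀ k, x (G.qc k) + x (G.qd k) = x (G.qa k) + x (G.qb k)}
  add_mem' := by
    rintro x y ⟨h1, h2⟩ ⟨h3, h4⟩
    refine ⟨fun k => ?_, fun k => ?_⟩
    · simp only [Pi.add_apply]; linarith [h1 k, h3 k]
    · simp only [Pi.add_apply]; linarith [h2 k, h4 k]
  zero_mem' := ⟨fun k => by simp, fun k => by simp⟩
  smul_mem' := by
    rintro c x ⟨h1, h2⟩
    refine ⟨fun k => ?_, fun k => ?_⟩
    · simp only [Pi.smul_apply, smul_eq_mul]; rw [← mul_add, ← mul_add, h1 k]
    · simp only [Pi.smul_apply, smul_eq_mul]; rw [← mul_add, ← mul_add, h2 k]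

theorem Net.mem_La (G : Net ι K Kq) (x : ι → ℤ) : x ∈ G.La ↔
    (∀ k, x (G.pc k) + x (G.pd k) = x (G.pa k) + x (G.pb k)) ∧
    ∀ k, x (G.qc k) + x (G.qd k) = x (G.qa k) + x (G.qb k) := Iff.rfl

theorem Net.rho_mem (G : Net ι K Kq) : G.rho ∈ G.La :=
  ⟨fun k => by rw [G.hpa, G.hpb, G.hpc, G.hpd], fun k => by rw [G.hqa, G.hqb, G.hqc, G.hqd]⟩

/-- the deviations -/
noncomputable def Net.dv (G : Net ι K Kq) (N : ℕ) (x : ι → ℤ) : ι → ℝ :=
  fun i => (x i : ℝ) - N * (1 / 4 * G.rho i)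

/-- the modulus of an entry, for integers -/
noncomputable def omZ (N : ℕ) (n l1 l2 : ℤ) : ℝ :=
  if 0 ≤ n ∧ 0 ≤ l1 ∧ 0 ≤ l2 ∧ n + l1 < N ∧ n + l2 < N then om N n.toNat l1.toNat l2.toNat else 0

theorem omZ_nonneg (N : ℕ) (n l1 l2 : ℤ) : 0 ≤ omZ N n l1 l2 := by
  unfold omZ
  split_ifs with h
  · obtain ⟨h1, h2, h3, h4, h5⟩ := h
    exact (om_pos (by omega) (by omega)).le
  · exact le_rfl

theorem omZ_le : ∃ C : ℝ, 0 ≤ C ∧ ∃ N₀ : ℕ, ∀ N : ℕ, N₀ ≤ N → ∀ n l1 l2 : ℤ,
    √2 * (sca N * omZ N n l1 l2) ≤ C * Real.exp (-(Real.pi / 256) *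
      ((((n + l1 : ℤ) : ℝ) - 3 / 4 * N) ^ 2 + ((l1 : ℝ) - 1 / 4 * N) ^ 2 +
        (((n + l2 : ℤ) : ℝ) - 3 / 4 * N) ^ 2 + ((l2 : ℝ) - 1 / 4 * N) ^ 2) / N) := by
  obtain ⟨C, hC0, N₀, h⟩ := om_le
  refine ⟨√2 * C, by positivity, N₀, fun N hN n l1 l2 => ?_⟩
  rw [mul_assoc]
  refine mul_le_mul_of_nonneg_left ?_ (Real.sqrt_nonneg _)
  unfold omZ
  split_ifs with hc
  · obtain ⟨h1, h2, h3, h4, h5⟩ := hc
    refine (h N hN n.toNat l1.toNat l2.toNat (by omega) (by omega)).trans_eq ?_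
    have e1 : ((n.toNat + l1.toNat : ℕ) : ℝ) = ((n + l1 : ℤ) : ℝ) := by
      have : ((n.toNat + l1.toNat : ℕ) : ℤ) = n + l1 := by
        push_cast; rw [Int.toNat_of_nonneg h1, Int.toNat_of_nonneg h2]
      exact_mod_cast congrArg (Int.cast (R := ℝ)) this
    have e2 : ((n.toNat + l2.toNat : ℕ) : ℝ) = ((n + l2 : ℤ) : ℝ) := by
      have : ((n.toNat + l2.toNat : ℕ) : ℤ) = n + l2 := by
        push_cast; rw [Int.toNat_of_nonneg h1, Int.toNat_of_nonneg h3]
      exact_mod_cast congrArg (Int.cast (R := ℝ)) this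
    have e3 : ((l1.toNat : ℕ) : ℝ) = (l1 : ℝ) := by
      exact_mod_cast congrArg (Int.cast (R := ℝ)) (Int.toNat_of_nonneg h2)
    have e4 : ((l2.toNat : ℕ) : ℝ) = (l2 : ℝ) := by
      exact_mod_cast congrArg (Int.cast (R := ℝ)) (Int.toNat_of_nonneg h3)
    rw [e1, e2, e3, e4]
  · rw [mul_zero]
    positivity

theorem toNat_tendsto (f : ℕ → ℤ) (x t : ℝ) (hx : 0 < x)
    (h : Tendsto (fun N : ℕ => ((f N : ℝ) - x * N) / √N) atTop (𝓝 t)) :
    (∀ᶠ N in atTop, 0 ≤ f N) ∧
    Tendsto (fun N : ℕ => (((f N).toNat : ℝ) - x * N) / √N) atTop (𝓝 t) := by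
  have h1 := ratio_of_sq (fun N => (f N : ℝ)) _ _ h
  have h2 := h1.eventually (eventually_gt_nhds hx)
  have h3 : ∀ᶠ N in atTop, 0 ≤ f N := by
    filter_upwards [h2, eventually_ge_atTop 1] with N h2 hN
    have hN0 : (0 : ℝ) < N := by exact_mod_cast hN
    rw [lt_div_iff₀ hN0, zero_mul] at h2
    exact_mod_cast h2.le
  refine ⟨h3, h.congr' ?_⟩
  filter_upwards [h3] with N hN
  have : (((f N).toNat : ℕ) : ℝ) = (f N : ℝ) := by
    exact_mod_cast congrArg (Int.cast (R := ℝ)) (Int.toNat_of_nonneg hN)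
  rw [this]

theorem omZ_tendsto (n l1 l2 : ℕ → ℤ) (t r1 r2 : ℝ)
    (hn : Tendsto (fun N : ℕ => ((n N : ℝ) - 1 / 2 * N) / √N) atTop (𝓝 t))
    (h1 : Tendsto (fun N : ℕ => ((l1 N : ℝ) - 1 / 4 * N) / √N) atTop (𝓝 r1))
    (h2 : Tendsto (fun N : ℕ => ((l2 N : ℝ) - 1 / 4 * N) / √N) atTop (𝓝 r2)) :
    Tendsto (fun N : ℕ => √2 * (sca N * omZ N (n N) (l1 N) (l2 N))) atTop
      (𝓝 (Real.exp (-(Real.pi / 2) * ((t + r1) ^ 2 + r1 ^ 2 + (t + r2) ^ 2 + r2 ^ 2)))) := by
  obtain ⟨a1, b1⟩ := toNat_tendsto n (1 / 2) t (by norm_num) hn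
  obtain ⟨a2, b2⟩ := toNat_tendsto l1 (1 / 4) r1 (by norm_num) h1
  obtain ⟨a3, b3⟩ := toNat_tendsto l2 (1 / 4) r2 (by norm_num) h2
  refine (om_tendsto _ _ _ t r1 r2 b1 b2 b3).congr' ?_
  have hnr := ratio_of_sq (fun N => (n N : ℝ)) _ _ hn
  have h1r := ratio_of_sq (fun N => (l1 N : ℝ)) _ _ h1
  have h2r := ratio_of_sq (fun N => (l2 N : ℝ)) _ _ h2
  have E1 := (hnr.add h1r).eventually (eventually_lt_nhds (show (1 / 2 + 1 / 4 : ℝ) < 1 by norm_num))
  have E2 := (hnr.add h2r).eventually (eventually_lt_nhds (show (1 / 2 + 1 / 4 : ℝ) < 1 by norm_num))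
  filter_upwards [E1, E2, eventually_ge_atTop 1, a1, a2, a3] with N e1 e2 hN a1 a2 a3
  have hN0 : (0 : ℝ) < N := by exact_mod_cast hN
  have f1 : n N + l1 N < N := by
    rw [← add_div, div_lt_iff₀ hN0, one_mul] at e1
    exact_mod_cast e1
  have f2 : n N + l2 N < N := by
    rw [← add_div, div_lt_iff₀ hN0, one_mul] at e2
    exact_mod_cast e2
  rw [omZ, if_pos ⟨a1, a2, a3, f1, f2⟩]

/-- the terms of the sum -/
noncomputable def Net.tr (G : Net ι K Kq) (QF LF : (ι → ℝ) → ℝ) (N : ℕ) (x : ι → ℤ) : ℂ :=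
  ((∏ k, √2 * (sca N * omZ N (x (G.pc k) - x (G.pb k)) (x (G.pb k)) (x (G.pd k))) : ℝ) : ℂ) *
    ((∏ k, √2 * (sca N * omZ N (x (G.qd k) - x (G.qa k)) (x (G.qa k)) (x (G.qc k))) : ℝ) : ℂ) *
    cs N (QF (G.dv N x) + LF (G.dv N x))

theorem exp_prod {κ : Type} (s : Finset κ) (f : κ → ℝ) :
    ∏ k ∈ s, Real.exp (f k) = Real.exp (∑ k ∈ s, f k) := (Real.exp_sum s f).symm

/-- **Asymptotics of networks.** -/
theorem Net.main (G : Net ι K Kq)
    (hcov : ∀ u : ι → ℝ, ∑ i, u i ^ 2 ≤ ∑ k, (u (G.pa k) ^ 2 + u (G.pb k) ^ 2 + u (G.pc k) ^ 2 +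
      u (G.pd k) ^ 2)) {QF LF : (ι → ℝ) → ℝ} (hQ : IsQf QF) (hL : IsLf LF) :
    ∃ L : ℂ, L ≠ 0 ∧ Tendsto (fun N : ℕ =>
      (((√N ^ Module.finrank ℤ G.La)⁻¹ : ℝ) : ℂ) * ∑' x : G.La, G.tr QF LF N x) atTop (𝓝 L) := by
  set s4 : K → (ι → ℝ) → ℝ := fun k u => u (G.pa k) ^ 2 + u (G.pb k) ^ 2 + u (G.pc k) ^ 2 +
      u (G.pd k) ^ 2 with hs4
  set q4 : Kq → (ι → ℝ) → ℝ := fun k u => u (G.qa k) ^ 2 + u (G.qb k) ^ 2 + u (G.qc k) ^ 2 +
      u (G.qd k) ^ 2 with hq4
  have sqf : ∀ i : ι, IsQf (fun u : ι → ℝ => u i ^ 2) := by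
    intro i
    have := (IsLf.coord i).mul (IsLf.coord i)
    simpa only [sq] using this
  have hSf : IsQf (fun u : ι → ℝ => (Real.pi / 2) * (∑ k, s4 k u + ∑ k, q4 k u)) := by
    refine IsQf.smul _ (IsQf.add (IsQf.sum _ fun k _ => ?_) (IsQf.sum _ fun k _ => ?_))
    · exact (((sqf _).add (sqf _)).add (sqf _)).add (sqf _)
    · exact (((sqf _).add (sqf _)).add (sqf _)).add (sqf _)
  obtain ⟨S, hS⟩ := hSf
  obtain ⟨B, hB⟩ := hQ.smul Real.pi
  have hpi := Real.pi_pos
  have hs4n : ∀ k u, 0 ≤ s4 k u := fun k u => by simp only [hs4]; positivity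
  have hq4n : ∀ k u, 0 ≤ q4 k u := fun k u => by simp only [hq4]; positivity
  obtain ⟨C, hC0, N₀, hC⟩ := omZ_le
  refine lattice_laplace G.La G.rho G.rho_mem (1 / 4) S B ?_ (Real.pi / 256)
    (C ^ Fintype.card K * C ^ Fintype.card Kq) (by positivity) (fun N x => G.tr QF LF N x) ?_ ?_
  · intro u hu
    rw [← hS]
    have h1 : 0 < ∑ i, u i ^ 2 := by
      obtain ⟨i, hi⟩ : ∃ i, u i ≠ 0 := by
        by_contra h
        push Not at h
        exact hu (funext h)
      exact lt_of_lt_of_le (by positivity) (Finset.single_le_sum (fun j _ => sq_nonneg (u j))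
        (Finset.mem_univ i))
    have h2 := hcov u
    have h3 : 0 ≤ ∑ k, q4 k u := Finset.sum_nonneg fun k _ => hq4n k u
    have h4 : 0 < ∑ k, s4 k u + ∑ k, q4 k u := by
      have : ∑ k, s4 k u = ∑ k, (u (G.pa k) ^ 2 + u (G.pb k) ^ 2 + u (G.pc k) ^ 2 +
        u (G.pd k) ^ 2) := rfl
      linarith
    positivity
  · filter_upwards [eventually_ge_atTop (N₀ + 1)] with N hN x hx
    have hN0 : (0 : ℝ) < N := by exact_mod_cast (by omega : 0 < N)
    rw [Net.tr, norm_mul, norm_mul, cs_norm, mul_one, Complex.norm_real, Complex.norm_real,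
      Real.norm_of_nonneg (Finset.prod_nonneg fun k _ => mul_nonneg (Real.sqrt_nonneg _)
        (mul_nonneg (sca_nonneg N) (omZ_nonneg _ _ _ _))),
      Real.norm_of_nonneg (Finset.prod_nonneg fun k _ => mul_nonneg (Real.sqrt_nonneg _)
        (mul_nonneg (sca_nonneg N) (omZ_nonneg _ _ _ _)))]
    set u : ι → ℝ := fun i => (x i : ℝ) - N * (1 / 4 * G.rho i) with hu
    have h1 : ∏ k, √2 * (sca N * omZ N (x (G.pc k) - x (G.pb k)) (x (G.pb k)) (x (G.pd k))) ≤
        C ^ Fintype.card K * Real.exp (-(Real.pi / 256) * ((∑ i, u i ^ 2) / N)) := by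
      calc _ ≤ ∏ k, (C * Real.exp (-(Real.pi / 256) * (s4 k u) / N)) := by
            refine Finset.prod_le_prod (fun k _ => mul_nonneg (Real.sqrt_nonneg _)
              (mul_nonneg (sca_nonneg N) (omZ_nonneg _ _ _ _))) fun k _ => ?_
            refine (hC N (by omega) _ _ _).trans_eq ?_
            congr 4
            have e1 : x (G.pc k) - x (G.pb k) + x (G.pb k) = x (G.pc k) := by ring
            have e2 : x (G.pc k) - x (G.pb k) + x (G.pd k) = x (G.pa k) := by
              have := hx.1 k; linarith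
            rw [e1, e2]
            simp only [hs4, hu, G.hpa, G.hpb, G.hpc, G.hpd]
            push_cast
            ring
        _ = C ^ Fintype.card K * Real.exp (-(Real.pi / 256) * ((∑ k, s4 k u) / N)) := by
            rw [Finset.prod_mul_distrib, Finset.prod_const, Finset.card_univ, exp_prod]
            congr 2
            rw [Finset.sum_div, Finset.mul_sum]
            exact Finset.sum_congr rfl fun k _ => by ring
        _ ≤ _ := by
            refine mul_le_mul_of_nonneg_left (Real.exp_le_exp.2 ?_) (by positivity)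
            have h2 := div_le_div_of_nonneg_right (hcov u) hN0.le
            have h3 := mul_le_mul_of_nonneg_left h2 (show 0 ≤ Real.pi / 256 by positivity)
            simp only [hs4]
            linarith
    have h2 : ∏ k, √2 * (sca N * omZ N (x (G.qd k) - x (G.qa k)) (x (G.qa k)) (x (G.qc k))) ≤
        C ^ Fintype.card Kq := by
      rw [← Finset.card_univ, ← Finset.prod_const]
      refine Finset.prod_le_prod (fun k _ => mul_nonneg (Real.sqrt_nonneg _)
              (mul_nonneg (sca_nonneg N) (omZ_nonneg _ _ _ _))) fun k _ => ?_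
      refine (hC N (by omega) _ _ _).trans ?_
      have : Real.exp (-(Real.pi / 256) *
          ((((x (G.qd k) - x (G.qa k) + x (G.qa k) : ℤ) : ℝ) - 3 / 4 * N) ^ 2 +
            ((x (G.qa k) : ℝ) - 1 / 4 * N) ^ 2 +
            (((x (G.qd k) - x (G.qa k) + x (G.qc k) : ℤ) : ℝ) - 3 / 4 * N) ^ 2 +
            ((x (G.qc k) : ℝ) - 1 / 4 * N) ^ 2) / N) ≤ 1 := by
        apply Real.exp_le_one_iff.2
        rw [neg_mul, neg_div]
        exact neg_nonpos.2 (by positivity)
      calc _ ≤ C * 1 := mul_le_mul_of_nonneg_left this hC0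
        _ = C := mul_one _
    calc _ ≤ (C ^ Fintype.card K * Real.exp (-(Real.pi / 256) * ((∑ i, u i ^ 2) / N))) *
          C ^ Fintype.card Kq := by
          refine mul_le_mul h1 h2 (Finset.prod_nonneg fun k _ => mul_nonneg (Real.sqrt_nonneg _)
              (mul_nonneg (sca_nonneg N) (omZ_nonneg _ _ _ _))) (by positivity)
      _ = _ := by ring
  · intro u x hx hxu
    have hsq : Tendsto (fun N : ℕ => √(N : ℝ)) atTop atTop :=
      Real.tendsto_sqrt_atTop.comp tendsto_natCast_atTop_atTop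
    -- conservation for the limit
    have hPc : ∀ k, u (G.pc k) + u (G.pd k) = u (G.pa k) + u (G.pb k) := by
      intro k
      have h1 := ((hxu (G.pc k)).add (hxu (G.pd k)))
      have h2 := ((hxu (G.pa k)).add (hxu (G.pb k)))
      refine tendsto_nhds_unique (h1.congr fun N => ?_) h2
      have h3 := (hx N).1 k
      have h4 : (x N (G.pc k) : ℝ) + x N (G.pd k) = x N (G.pa k) + x N (G.pb k) := by
        exact_mod_cast h3
      rw [← add_div, ← add_div, G.hpa, G.hpb, G.hpc, G.hpd]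
      congr 1
      push_cast
      linarith
    have hQc : ∀ k, u (G.qc k) + u (G.qd k) = u (G.qa k) + u (G.qb k) := by
      intro k
      have h1 := ((hxu (G.qc k)).add (hxu (G.qd k)))
      have h2 := ((hxu (G.qa k)).add (hxu (G.qb k)))
      refine tendsto_nhds_unique (h1.congr fun N => ?_) h2
      have h3 := (hx N).2 k
      have h4 : (x N (G.qc k) : ℝ) + x N (G.qd k) = x N (G.qa k) + x N (G.qb k) := by
        exact_mod_cast h3
      rw [← add_div, ← add_div, G.hqa, G.hqb, G.hqc, G.hqd]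
      congr 1
      push_cast
      linarith
    have T1 : ∀ k, Tendsto (fun N : ℕ => √2 * (sca N * omZ N (x N (G.pc k) - x N (G.pb k))
        (x N (G.pb k)) (x N (G.pd k)))) atTop (𝓝 (Real.exp (-(Real.pi / 2) * s4 k u))) := by
      intro k
      have h1 : Tendsto (fun N : ℕ => (((x N (G.pc k) - x N (G.pb k) : ℤ) : ℝ) - 1 / 2 * N) / √N)
          atTop (𝓝 (u (G.pc k) - u (G.pb k))) := by
        refine ((hxu (G.pc k)).sub (hxu (G.pb k))).congr fun N => ?_
        rw [← sub_div, G.hpc, G.hpb]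
        push_cast
        ring
      have h2 : Tendsto (fun N : ℕ => ((x N (G.pb k) : ℝ) - 1 / 4 * N) / √N) atTop
          (𝓝 (u (G.pb k))) := by
        refine (hxu (G.pb k)).congr fun N => ?_
        rw [G.hpb]
        push_cast
        ring
      have h3 : Tendsto (fun N : ℕ => ((x N (G.pd k) : ℝ) - 1 / 4 * N) / √N) atTop
          (𝓝 (u (G.pd k))) := by
        refine (hxu (G.pd k)).congr fun N => ?_
        rw [G.hpd]
        push_cast
        ring
      have h4 := omZ_tendsto _ _ _ _ _ _ h1 h2 h3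
      have h5 : -(Real.pi / 2) * ((u (G.pc k) - u (G.pb k) + u (G.pb k)) ^ 2 + u (G.pb k) ^ 2 +
          (u (G.pc k) - u (G.pb k) + u (G.pd k)) ^ 2 + u (G.pd k) ^ 2) =
          -(Real.pi / 2) * s4 k u := by
        have e : u (G.pc k) - u (G.pb k) + u (G.pd k) = u (G.pa k) := by
          have := hPc k; linarith
        rw [e]
        simp only [hs4]
        ring
      rw [h5] at h4
      exact h4
    have T2 : ∀ k, Tendsto (fun N : ℕ => √2 * (sca N * omZ N (x N (G.qd k) - x N (G.qa k))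
        (x N (G.qa k)) (x N (G.qc k)))) atTop (𝓝 (Real.exp (-(Real.pi / 2) * q4 k u))) := by
      intro k
      have h1 : Tendsto (fun N : ℕ => (((x N (G.qd k) - x N (G.qa k) : ℤ) : ℝ) - 1 / 2 * N) / √N)
          atTop (𝓝 (u (G.qd k) - u (G.qa k))) := by
        refine ((hxu (G.qd k)).sub (hxu (G.qa k))).congr fun N => ?_
        rw [← sub_div, G.hqd, G.hqa]
        push_cast
        ring
      have h2 : Tendsto (fun N : ℕ => ((x N (G.qa k) : ℝ) - 1 / 4 * N) / √N) atTop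
          (𝓝 (u (G.qa k))) := by
        refine (hxu (G.qa k)).congr fun N => ?_
        rw [G.hqa]
        push_cast
        ring
      have h3 : Tendsto (fun N : ℕ => ((x N (G.qc k) : ℝ) - 1 / 4 * N) / √N) atTop
          (𝓝 (u (G.qc k))) := by
        refine (hxu (G.qc k)).congr fun N => ?_
        rw [G.hqc]
        push_cast
        ring
      have h4 := omZ_tendsto _ _ _ _ _ _ h1 h2 h3
      have h5 : -(Real.pi / 2) * ((u (G.qd k) - u (G.qa k) + u (G.qa k)) ^ 2 + u (G.qa k) ^ 2 +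
          (u (G.qd k) - u (G.qa k) + u (G.qc k)) ^ 2 + u (G.qc k) ^ 2) =
          -(Real.pi / 2) * q4 k u := by
        have e : u (G.qd k) - u (G.qa k) + u (G.qc k) = u (G.qb k) := by
          have := hQc k; linarith
        rw [e]
        simp only [hq4]
        ring
      rw [h5] at h4
      exact h4
    have T3 : Tendsto (fun N : ℕ => cs N (QF (G.dv N (x N)) + LF (G.dv N (x N)))) atTop
        (𝓝 (Complex.exp (((Real.pi * QF u : ℝ) : ℂ) * Complex.I))) := by
      have hv : Tendsto (fun N : ℕ => (fun i => ((x N i : ℝ) - N * (1 / 4 * G.rho i)) / √N)) atTop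
          (𝓝 u) := tendsto_pi_nhds.2 hxu
      have h1 := (hQ.continuous.tendsto u).comp hv
      have h2 := ((hL.continuous.tendsto u).comp hv).mul (tendsto_inv_atTop_zero.comp hsq)
      rw [mul_zero] at h2
      have h3 := (h1.add h2).const_mul Real.pi
      rw [add_zero] at h3
      have h4 := (((Complex.continuous_ofReal.tendsto _).comp h3).mul_const Complex.I).cexp
      refine h4.congr' ?_
      filter_upwards [eventually_ge_atTop 1] with N hN
      have hN0 : (0 : ℝ) < N := by exact_mod_cast hN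
      have hs : 0 < √(N : ℝ) := Real.sqrt_pos.2 hN0
      have hss : √(N : ℝ) * √(N : ℝ) = N := Real.mul_self_sqrt hN0.le
      simp only [Function.comp]
      unfold cs
      congr 3
      have e1 : (fun i => ((x N i : ℝ) - N * (1 / 4 * G.rho i)) / √N) =
          fun i => (√N)⁻¹ * G.dv N (x N) i := by
        funext i
        rw [Net.dv, div_eq_inv_mul]
      rw [e1, hQ.homog, hL.homog]
      have e2 : ((√(N : ℝ))⁻¹) ^ 2 = (N : ℝ)⁻¹ := by
        rw [inv_pow, sq, hss]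
      have e3 : (√(N : ℝ))⁻¹ * LF (G.dv N (x N)) * (√(N : ℝ))⁻¹ = (N : ℝ)⁻¹ * LF (G.dv N (x N)) := by
        rw [← e2]; ring
      rw [e2, e3]
      ring
    have T4 := ((Complex.continuous_ofReal.tendsto _).comp
      (tendsto_finsetProd (Finset.univ : Finset K) fun k _ => T1 k))
    have T5 := ((Complex.continuous_ofReal.tendsto _).comp
      (tendsto_finsetProd (Finset.univ : Finset Kq) fun k _ => T2 k))
    have T6 := (T4.mul T5).mul T3
    have hfin : ((∏ k, Real.exp (-(Real.pi / 2) * s4 k u) : ℝ) : ℂ) *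
        ((∏ k, Real.exp (-(Real.pi / 2) * q4 k u) : ℝ) : ℂ) *
        Complex.exp (((Real.pi * QF u : ℝ) : ℂ) * Complex.I) =
        Complex.exp (-(qf S u : ℂ) + Complex.I * (qf B u : ℂ)) := by
      rw [exp_prod, exp_prod, ← hS, ← hB, Complex.ofReal_exp, Complex.ofReal_exp,
        ← Complex.exp_add, ← Complex.exp_add]
      congr 1
      rw [← Finset.mul_sum, ← Finset.mul_sum]
      push_cast
      ring
    rw [← hfin]
    exact T6

end Pool.Agent.Q191.TW
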