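import Pool.Agent.Q191.TW.Vc

/-!
Consequences of the asymptotics of the Kashaev invariants of the weaves.
-/

set_option autoImplicit false

namespace Pool.Agent.Q191.TW

open Filter Topology

/-- the size of the invariants -/
noncomputable def grw (V : ℝ) (N : ℕ) : ℝ := N * √N * Real.exp (N * (V / (2 * Real.pi)))

theorem grw_pos (V : ℝ) {N : ℕ} (hN : 0 < N) : 0 < grw V N := by
  have : (0 : ℝ) < N := by exact_mod_cast hN
  unfold grw
  positivity

/-- logarithmic growth -/
theorem log_of_asym {J : ℕ → ℂ} {V : ℝ} {L : ℂ} (hL : L ≠ 0)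
    (h : Tendsto (fun N => J N / (grw V N : ℂ)) atTop (𝓝 L)) :
    Tendsto (fun N : ℕ => 2 * Real.pi * (Real.log ‖J N‖ / N)) atTop (𝓝 V) := by
  have hn := h.norm
  have hl : 0 < ‖L‖ := norm_pos_iff.2 hL
  have h1 := (Real.continuousAt_log hl.ne').tendsto.comp hn
  have hlog : Tendsto (fun N : ℕ => Real.log N / N) atTop (𝓝 0) :=
    (Real.isLittleO_log_id_atTop.tendsto_div_nhds_zero).comp tendsto_natCast_atTop_atTop
  have hinv : Tendsto (fun N : ℕ => ((N : ℝ))⁻¹) atTop (𝓝 0) :=
    tendsto_inv_atTop_zero.comp tendsto_natCast_atTop_atTop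
  have h2 := (((h1.mul hinv).add (hlog.const_mul (3 / 2))).add_const (V / (2 * Real.pi))).const_mul
    (2 * Real.pi)
  have h4 : 2 * Real.pi * (Real.log ‖L‖ * 0 + 3 / 2 * 0 + V / (2 * Real.pi)) = V := by
    have := Real.pi_pos.ne'
    field_simp
    ring
  rw [h4] at h2
  refine h2.congr' ?_
  have h5 := hn.eventually (eventually_gt_nhds hl)
  filter_upwards [h5, eventually_ge_atTop 1] with N h5 hN
  have hN0 : (0 : ℝ) < N := by exact_mod_cast hN
  have hsN : 0 < √(N : ℝ) := Real.sqrt_pos.2 hN0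
  have hg := grw_pos V (N := N) (by omega)
  have e0 : ‖J N / (grw V N : ℂ)‖ = ‖J N‖ / grw V N := by
    rw [norm_div, Complex.norm_real, Real.norm_of_nonneg hg.le]
  rw [e0] at h5
  have hJ : 0 < ‖J N‖ := by
    by_contra hcon
    have : ‖J N‖ = 0 := le_antisymm (not_lt.1 hcon) (norm_nonneg _)
    rw [this, zero_div] at h5
    exact lt_irrefl _ h5
  have e1 : Real.log (grw V N) = Real.log N + Real.log N / 2 + N * (V / (2 * Real.pi)) := by
    unfold grw
    rw [Real.log_mul (by positivity) (Real.exp_pos _).ne', Real.log_exp,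
      Real.log_mul hN0.ne' hsN.ne', Real.log_sqrt hN0.le]
  simp only [Function.comp]
  rw [e0, Real.log_div hJ.ne' hg.ne', e1]
  have hpi := Real.pi_pos.ne'
  field_simp
  ring

/-- the invariants do not vanish -/
theorem ne_of_asym {J : ℕ → ℂ} {V : ℝ} {L : ℂ} (hL : L ≠ 0)
    (h : Tendsto (fun N => J N / (grw V N : ℂ)) atTop (𝓝 L)) : ∀ᶠ N in atTop, J N ≠ 0 := by
  have h1 := h.eventually_ne hL
  filter_upwards [h1] with N h1 h0
  apply h1
  rw [h0, zero_div]

/-- the ratio -/
theorem ratio_of_asym {J : ℕ → ℂ} {V : ℝ} {L : ℂ} (hL : L ≠ 0)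
    (h : Tendsto (fun N => J N / (grw V N : ℂ)) atTop (𝓝 L)) :
    Tendsto (fun N => J (N + 1) / J N) atTop (𝓝 (Real.exp (V / (2 * Real.pi)) : ℂ)) := by
  have h1 := (tendsto_add_atTop_iff_nat 1).2 h
  have h2 := h1.div h hL
  rw [div_self hL] at h2
  have h3 : Tendsto (fun N : ℕ => grw V (N + 1) / grw V N) atTop
      (𝓝 (Real.exp (V / (2 * Real.pi)))) := by
    have hinv : Tendsto (fun N : ℕ => ((N : ℝ))⁻¹) atTop (𝓝 0) :=
      tendsto_inv_atTop_zero.comp tendsto_natCast_atTop_atTop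
    have h4 : Tendsto (fun N : ℕ => 1 + ((N : ℝ))⁻¹) atTop (𝓝 1) := by
      have := hinv.const_add 1
      rwa [add_zero] at this
    have h5 := (h4.mul h4.sqrt).mul_const (Real.exp (V / (2 * Real.pi)))
    rw [Real.sqrt_one, one_mul, one_mul] at h5
    refine h5.congr' ?_
    filter_upwards [eventually_gt_atTop 0] with N hN
    have hN0 : (0 : ℝ) < N := by exact_mod_cast hN
    have hsN : 0 < √(N : ℝ) := Real.sqrt_pos.2 hN0
    unfold grw
    have e1 : (1 : ℝ) + (N : ℝ)⁻¹ = (N + 1) / N := by field_simp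
    have e2 : Real.exp (((N + 1 : ℕ) : ℝ) * (V / (2 * Real.pi))) =
        Real.exp (N * (V / (2 * Real.pi))) * Real.exp (V / (2 * Real.pi)) := by
      rw [← Real.exp_add]
      congr 1
      push_cast
      ring
    rw [e1, e2, Real.sqrt_div (by positivity)]
    push_cast
    have := (Real.exp_pos (N * (V / (2 * Real.pi)))).ne'
    field_simp
  have h6 := h2.mul ((Complex.continuous_ofReal.tendsto _).comp h3)
  rw [one_mul] at h6
  refine h6.congr' ?_
  filter_upwards [eventually_gt_atTop 0, ne_of_asym hL h] with N hN hJ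
  have g1 : (grw V N : ℂ) ≠ 0 := by exact_mod_cast (grw_pos V hN).ne'
  have g2 : (grw V (N + 1) : ℂ) ≠ 0 := by exact_mod_cast (grw_pos V (Nat.succ_pos N)).ne'
  simp only [Function.comp, Pi.div_apply, Complex.ofReal_div]
  field_simp

end Pool.Agent.Q191.TW
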