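import Pool.Agent.Q191.TW.Net

/-!
The sum over the labels of the edges of a network as a sum over a lattice.
-/

set_option autoImplicit false

namespace Pool.Agent.Q191.TW

open Matrix Finset Filter Topology Pool.Agent.H550R3.Jones
open Pool.Agent.W715.VC hiding LL
open Pool.Agent.W719.BS (D ratio_of_sq)

/-- labels as integers -/
def toZ {ι : Type} {N : ℕ} (x : ι → Fin N) : ι → ℤ := fun i => ((x i : ℕ) : ℤ)

theorem P_omZ {N : ℕ} (hN : 0 < N) (a b c d : Fin N) (h : (c : ℕ) + d = a + b) :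
    PP N (c, d) (a, b) = (omZ N ((c : ℕ) - (b : ℕ)) (b : ℕ) (d : ℕ) : ℂ) * cs N (EP N a b c) := by
  by_cases hbc : (b : ℕ) ≤ c
  · rw [P_entry hN a b c d h hbc, omZ, if_pos]
    · have e1 : (((c : ℕ) : ℤ) - ((b : ℕ) : ℤ)).toNat = (c : ℕ) - b := by omega
      rw [e1, Int.toNat_natCast, Int.toNat_natCast]
    · have := c.2
      have := a.2
      refine ⟨by omega, by omega, by omega, by omega, by omega⟩
  · have h1 : PP N (c, d) (a, b) = 0 := by
      show crossP N (rt N) (c, d) (a, b) = 0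
      unfold crossP
      rw [if_neg (fun h2 => hbc h2.2)]
    rw [h1, omZ, if_neg (fun h2 => hbc (by have := h2.1; omega))]
    simp

theorem Q_omZ {N : ℕ} (hN : 0 < N) (a b c d : Fin N) (h : (c : ℕ) + d = a + b) :
    QQ N (c, d) (a, b) = (omZ N ((d : ℕ) - (a : ℕ)) (a : ℕ) (c : ℕ) : ℂ) * cs N (EQ N a b d) := by
  by_cases had : (a : ℕ) ≤ d
  · rw [Q_entry hN a b c d h had, omZ, if_pos]
    · have e1 : (((d : ℕ) : ℤ) - ((a : ℕ) : ℤ)).toNat = (d : ℕ) - a := by omega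
      rw [e1, Int.toNat_natCast, Int.toNat_natCast]
    · have := d.2
      have := b.2
      refine ⟨by omega, by omega, by omega, by omega, by omega⟩
  · have h1 : QQ N (c, d) (a, b) = 0 := by
      show crossN N (rt N) (c, d) (a, b) = 0
      unfold crossN
      rw [if_neg (fun h2 => had h2.2)]
    rw [h1, omZ, if_neg (fun h2 => had (by have := h2.1; omega))]
    simp

/-- the constant of the phase of a crossing -/
noncomputable def ec (N : ℝ) : ℝ := -N ^ 2 / 4 - N / 4 + 1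

theorem EP_exp (N a b c d A B C E : ℝ) (h : c + d = a + b) (hA : A = a - N * (1 / 4 * 3))
    (hB : B = b - N * (1 / 4 * 1)) (hC : C = c - N * (1 / 4 * 3)) (hE : E = d - N * (1 / 4 * 1)) :
    EP N a b c = ec N + N / 2 * (A - B) + (2 * (C * E) + (C - B) * (C - B) / 2) +
      (A + B - (C - B) / 2) := by
  have hd : d = a + b - c := by linarith
  subst hA hB hC hE hd
  unfold EP ec
  ring

theorem EQ_exp (N a b c d A B C E : ℝ) (h : c + d = a + b) (hA : A = a - N * (1 / 4 * 1))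
    (hB : B = b - N * (1 / 4 * 3)) (hC : C = c - N * (1 / 4 * 1)) (hE : E = d - N * (1 / 4 * 3)) :
    EQ N a b d = -ec N + N / 2 * (C - E) + (-2 * (A * B) - (E - A) * (E - A) / 2) +
      (-(A + B) + (E - A) / 2) := by
  have hc : c = a + b - d := by linarith
  subst hA hB hC hE hc
  unfold EQ ec
  ring

variable {ι K Kq : Type} [Fintype ι] [DecidableEq ι] [Fintype K] [Fintype Kq]

/-- the quadratic part of the phases of the crossings -/
noncomputable def Net.cQ (G : Net ι K Kq) (u : ι → ℝ) : ℝ :=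
  (∑ k, (2 * (u (G.pc k) * u (G.pd k)) +
    (u (G.pc k) - u (G.pb k)) * (u (G.pc k) - u (G.pb k)) / 2)) +
  ∑ k, (-2 * (u (G.qa k) * u (G.qb k)) -
    (u (G.qd k) - u (G.qa k)) * (u (G.qd k) - u (G.qa k)) / 2)

/-- the linear part of the phases of the crossings -/
noncomputable def Net.cL (G : Net ι K Kq) (u : ι → ℝ) : ℝ :=
  (∑ k, (u (G.pa k) + u (G.pb k) - (u (G.pc k) - u (G.pb k)) / 2)) +
  ∑ k, (-(u (G.qa k) + u (G.qb k)) + (u (G.qd k) - u (G.qa k)) / 2)

theorem Net.cQ_qf (G : Net ι K Kq) : IsQf G.cQ := by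
  have h1 : ∀ i j : ι, IsQf (fun u : ι → ℝ => u i * u j) :=
    fun i j => (IsLf.coord i).mul (IsLf.coord j)
  have h2 : ∀ i j : ι, IsQf (fun u : ι → ℝ => (u i - u j) * (u i - u j)) :=
    fun i j => ((IsLf.coord i).sub (IsLf.coord j)).mul ((IsLf.coord i).sub (IsLf.coord j))
  have h3 : IsQf (fun u : ι → ℝ => (∑ k, (2 * (u (G.pc k) * u (G.pd k)) +
      1 / 2 * ((u (G.pc k) - u (G.pb k)) * (u (G.pc k) - u (G.pb k))))) +
      ∑ k, (-2 * (u (G.qa k) * u (G.qb k)) -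
      1 / 2 * ((u (G.qd k) - u (G.qa k)) * (u (G.qd k) - u (G.qa k))))) := by
    refine IsQf.add (IsQf.sum _ fun k _ => ?_) (IsQf.sum _ fun k _ => ?_)
    · exact (IsQf.smul _ (h1 _ _)).add (IsQf.smul _ (h2 _ _))
    · exact (IsQf.smul _ (h1 _ _)).sub (IsQf.smul _ (h2 _ _))
  obtain ⟨B, hB⟩ := h3
  refine ⟨B, fun u => ?_⟩
  rw [← hB, Net.cQ]
  congr 1
  · exact Finset.sum_congr rfl fun k _ => by ring
  · exact Finset.sum_congr rfl fun k _ => by ring

theorem Net.cL_lf (G : Net ι K Kq) : IsLf G.cL := by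
  have h3 : IsLf (fun u : ι → ℝ => (∑ k, (u (G.pa k) + u (G.pb k) -
      1 / 2 * (u (G.pc k) - u (G.pb k)))) +
      ∑ k, (-1 * (u (G.qa k) + u (G.qb k)) + 1 / 2 * (u (G.qd k) - u (G.qa k)))) := by
    refine IsLf.add (IsLf.sum _ fun k _ => ?_) (IsLf.sum _ fun k _ => ?_)
    · exact ((IsLf.coord _).add (IsLf.coord _)).sub
        (IsLf.smul _ ((IsLf.coord _).sub (IsLf.coord _)))
    · exact (IsLf.smul _ ((IsLf.coord _).add (IsLf.coord _))).add
        (IsLf.smul _ ((IsLf.coord _).sub (IsLf.coord _)))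
  obtain ⟨B, hB⟩ := h3
  refine ⟨B, fun u => ?_⟩
  rw [← hB, Net.cL]
  congr 1
  · exact Finset.sum_congr rfl fun k _ => by ring
  · exact Finset.sum_congr rfl fun k _ => by ring

/-- the weight of a labelling -/
noncomputable def Net.wt (G : Net ι K Kq) (N : ℕ) (x : ι → Fin N) : ℂ :=
  (∏ k, PP N (x (G.pc k), x (G.pd k)) (x (G.pa k), x (G.pb k))) *
    ∏ k, QQ N (x (G.qc k), x (G.qd k)) (x (G.qa k), x (G.qb k))

theorem cs_sum {κ : Type} (N : ℕ) (s : Finset κ) (f : κ → ℝ) :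
    ∏ k ∈ s, cs N (f k) = cs N (∑ k ∈ s, f k) := by
  classical
  induction s using Finset.induction_on with
  | empty => simp [cs_zero]
  | insert k s hk ih => rw [Finset.prod_insert hk, Finset.sum_insert hk, ih, cs_add]

/-- the weight of a labelling with conservation -/
theorem Net.wt_eq (G : Net ι K Kq) (hcor : ∀ u : ι → ℝ,
    ∑ k, (u (G.pa k) - u (G.pb k)) + ∑ k, (u (G.qc k) - u (G.qd k)) = 0) {N : ℕ} (hN : 0 < N)
    (x : ι → Fin N) (hx : toZ x ∈ G.La) (RQ RL : (ι → ℝ) → ℝ) :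
    ((√2 * sca N : ℝ) : ℂ) ^ (Fintype.card K + Fintype.card Kq) * (G.wt N x *
      cs N (RQ (G.dv N (toZ x)) + RL (G.dv N (toZ x)))) =
    cs N (((Fintype.card K : ℝ) - Fintype.card Kq) * ec N) *
      G.tr (fun u => G.cQ u + RQ u) (fun u => G.cL u + RL u) N (toZ x) := by
  set u : ι → ℝ := G.dv N (toZ x) with hu
  have hxP : ∀ k, ((x (G.pc k) : ℕ) : ℤ) + (x (G.pd k) : ℕ) = (x (G.pa k) : ℕ) + (x (G.pb k) : ℕ) :=
    hx.1
  have hxQ : ∀ k, ((x (G.qc k) : ℕ) : ℤ) + (x (G.qd k) : ℕ) = (x (G.qa k) : ℕ) + (x (G.qb k) : ℕ) :=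
    hx.2
  have h1 : ∀ k, PP N (x (G.pc k), x (G.pd k)) (x (G.pa k), x (G.pb k)) =
      (omZ N (toZ x (G.pc k) - toZ x (G.pb k)) (toZ x (G.pb k)) (toZ x (G.pd k)) : ℂ) *
        cs N (ec N + N / 2 * (u (G.pa k) - u (G.pb k)) + (2 * (u (G.pc k) * u (G.pd k)) +
    (u (G.pc k) - u (G.pb k)) * (u (G.pc k) - u (G.pb k)) / 2) +
        (u (G.pa k) + u (G.pb k) - (u (G.pc k) - u (G.pb k)) / 2)) := by
    intro k
    rw [P_omZ hN _ _ _ _ (by have := hxP k; omega)]
    congr 2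
    apply EP_exp (N : ℝ) _ _ _ ((x (G.pd k) : ℕ) : ℝ)
    · exact_mod_cast hxP k
    · simp only [hu, Net.dv, G.hpa, toZ]; push_cast; ring
    · simp only [hu, Net.dv, G.hpb, toZ]; push_cast; ring
    · simp only [hu, Net.dv, G.hpc, toZ]; push_cast; ring
    · simp only [hu, Net.dv, G.hpd, toZ]; push_cast; ring
  have h2 : ∀ k, QQ N (x (G.qc k), x (G.qd k)) (x (G.qa k), x (G.qb k)) =
      (omZ N (toZ x (G.qd k) - toZ x (G.qa k)) (toZ x (G.qa k)) (toZ x (G.qc k)) : ℂ) *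
        cs N (-ec N + N / 2 * (u (G.qc k) - u (G.qd k)) + (-2 * (u (G.qa k) * u (G.qb k)) -
    (u (G.qd k) - u (G.qa k)) * (u (G.qd k) - u (G.qa k)) / 2) +
        (-(u (G.qa k) + u (G.qb k)) + (u (G.qd k) - u (G.qa k)) / 2)) := by
    intro k
    rw [Q_omZ hN _ _ _ _ (by have := hxQ k; omega)]
    congr 2
    apply EQ_exp (N : ℝ) _ _ ((x (G.qc k) : ℕ) : ℝ)
    · exact_mod_cast hxQ k
    · simp only [hu, Net.dv, G.hqa, toZ]; push_cast; ring
    · simp only [hu, Net.dv, G.hqb, toZ]; push_cast; ring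
    · simp only [hu, Net.dv, G.hqc, toZ]; push_cast; ring
    · simp only [hu, Net.dv, G.hqd, toZ]; push_cast; ring
  unfold Net.wt Net.tr
  simp only [h1, h2]
  rw [Finset.prod_mul_distrib, Finset.prod_mul_distrib, cs_sum, cs_sum, ← hu]
  have h3 : (∏ k, √2 * (sca N * omZ N (toZ x (G.pc k) - toZ x (G.pb k)) (toZ x (G.pb k))
      (toZ x (G.pd k)))) = (√2 * sca N) ^ Fintype.card K *
      ∏ k, omZ N (toZ x (G.pc k) - toZ x (G.pb k)) (toZ x (G.pb k)) (toZ x (G.pd k)) := by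
    rw [← Finset.card_univ, ← Finset.prod_const, ← Finset.prod_mul_distrib]
    exact Finset.prod_congr rfl fun k _ => by ring
  have h4 : (∏ k, √2 * (sca N * omZ N (toZ x (G.qd k) - toZ x (G.qa k)) (toZ x (G.qa k))
      (toZ x (G.qc k)))) = (√2 * sca N) ^ Fintype.card Kq *
      ∏ k, omZ N (toZ x (G.qd k) - toZ x (G.qa k)) (toZ x (G.qa k)) (toZ x (G.qc k)) := by
    rw [← Finset.card_univ, ← Finset.prod_const, ← Finset.prod_mul_distrib]
    exact Finset.prod_congr rfl fun k _ => by ring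
  rw [h3, h4]
  have h5 : (∑ k, (ec N + N / 2 * (u (G.pa k) - u (G.pb k)) + (2 * (u (G.pc k) * u (G.pd k)) +
    (u (G.pc k) - u (G.pb k)) * (u (G.pc k) - u (G.pb k)) / 2) +
        (u (G.pa k) + u (G.pb k) - (u (G.pc k) - u (G.pb k)) / 2))) +
      (∑ k, (-ec N + N / 2 * (u (G.qc k) - u (G.qd k)) + (-2 * (u (G.qa k) * u (G.qb k)) -
    (u (G.qd k) - u (G.qa k)) * (u (G.qd k) - u (G.qa k)) / 2) +
        (-(u (G.qa k) + u (G.qb k)) + (u (G.qd k) - u (G.qa k)) / 2))) + (RQ u + RL u) =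
      ((Fintype.card K : ℝ) - Fintype.card Kq) * ec N + ((G.cQ u + RQ u) + (G.cL u + RL u)) := by
    have e1 := hcor u
    have e2 : N / 2 * (∑ k, (u (G.pa k) - u (G.pb k)) + ∑ k, (u (G.qc k) - u (G.qd k))) = 0 := by
      rw [e1, mul_zero]
    unfold Net.cQ Net.cL
    simp only [Finset.sum_add_distrib, Finset.sum_const, Finset.card_univ, nsmul_eq_mul,
      ← Finset.mul_sum] at e2 ⊢
    linear_combination e2
  have hgen : ∀ a b c d e : ℝ, a + b + c = d + e →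
      cs N a * cs N b * cs N c = cs N d * cs N e := by
    intro a b c d e h
    rw [← cs_add, ← cs_add, h, cs_add]
  have h6 := hgen _ _ _ _ _ h5
  push_cast
  rw [pow_add]
  linear_combination (((√2 : ℝ) : ℂ) * (sca N : ℂ)) ^ Fintype.card K *
    (((√2 : ℝ) : ℂ) * (sca N : ℂ)) ^ Fintype.card Kq *
    (∏ k, (omZ N (toZ x (G.pc k) - toZ x (G.pb k)) (toZ x (G.pb k)) (toZ x (G.pd k)) : ℂ)) *
    (∏ k, (omZ N (toZ x (G.qd k) - toZ x (G.qa k)) (toZ x (G.qa k)) (toZ x (G.qc k)) : ℂ)) * h6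

/-- the labellings without conservation have weight zero -/
theorem Net.wt_zero (G : Net ι K Kq) {N : ℕ} (x : ι → Fin N) (hx : toZ x ∉ G.La) :
    G.wt N x = 0 := by
  rw [Net.mem_La, not_and_or] at hx
  unfold Net.wt
  rcases hx with h | h
  · push Not at h
    obtain ⟨k, hk⟩ := h
    have : PP N (x (G.pc k), x (G.pd k)) (x (G.pa k), x (G.pb k)) = 0 := by
      by_contra h0
      apply hk
      have := Wp_P (rt N) _ _ h0
      simp only at this
      simp only [toZ]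
      exact_mod_cast this
    rw [Finset.prod_eq_zero (Finset.mem_univ k) this, zero_mul]
  · push Not at h
    obtain ⟨k, hk⟩ := h
    have : QQ N (x (G.qc k), x (G.qd k)) (x (G.qa k), x (G.qb k)) = 0 := by
      by_contra h0
      apply hk
      have := Wp_Q (rt N) _ _ h0
      simp only at this
      simp only [toZ]
      exact_mod_cast this
    rw [Finset.prod_eq_zero (Finset.mem_univ k) this, mul_zero]

theorem toZ_inj {N : ℕ} : Function.Injective (toZ : (ι → Fin N) → ι → ℤ) := by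
  intro x y h
  funext i
  apply Fin.ext
  have := congrFun h i
  simp only [toZ] at this
  exact_mod_cast this

/-- the terms vanish if a label is out of range -/
theorem Net.tr_range (G : Net ι K Kq)
    (hcov : ∀ u : ι → ℝ, ∑ i, u i ^ 2 ≤ ∑ k, (u (G.pa k) ^ 2 + u (G.pb k) ^ 2 + u (G.pc k) ^ 2 +
      u (G.pd k) ^ 2)) (QF LF : (ι → ℝ) → ℝ) {N : ℕ} (x : ι → ℤ) (hx : x ∈ G.La)
    (h : G.tr QF LF N x ≠ 0) : ∃ y : ι → Fin N, toZ y = x := by
  have hr : ∀ k, omZ N (x (G.pc k) - x (G.pb k)) (x (G.pb k)) (x (G.pd k)) ≠ 0 := by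
    intro k h0
    apply h
    unfold Net.tr
    have : ∏ k, √2 * (sca N * omZ N (x (G.pc k) - x (G.pb k)) (x (G.pb k)) (x (G.pd k))) = 0 :=
      Finset.prod_eq_zero (Finset.mem_univ k) (by rw [h0]; ring)
    rw [this]
    simp
  have hr2 : ∀ k, (0 ≤ x (G.pa k) ∧ x (G.pa k) < N) ∧ (0 ≤ x (G.pb k) ∧ x (G.pb k) < N) ∧
      (0 ≤ x (G.pc k) ∧ x (G.pc k) < N) ∧ (0 ≤ x (G.pd k) ∧ x (G.pd k) < N) := by
    intro k
    have h1 := hr k
    unfold omZ at h1
    split_ifs at h1 with h2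
    · have h3 := hx.1 k
      omega
    · exact absurd rfl h1
  have hi : ∀ i, 0 ≤ x i ∧ x i < N := by
    intro i
    by_contra hcon
    have h1 := hcov (Pi.single i 1)
    have hz : ∀ j, (0 ≤ x j ∧ x j < N) → (Pi.single i (1 : ℝ) : ι → ℝ) j = 0 := by
      intro j hj
      rw [Pi.single_apply, if_neg]
      rintro rfl
      exact hcon hj
    have h2 : ∑ k, ((Pi.single i (1 : ℝ) : ι → ℝ) (G.pa k) ^ 2 +
        (Pi.single i (1 : ℝ) : ι → ℝ) (G.pb k) ^ 2 + (Pi.single i (1 : ℝ) : ι → ℝ) (G.pc k) ^ 2 +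
        (Pi.single i (1 : ℝ) : ι → ℝ) (G.pd k) ^ 2) = 0 := by
      refine Finset.sum_eq_zero fun k _ => ?_
      obtain ⟨a1, a2, a3, a4⟩ := hr2 k
      rw [hz _ a1, hz _ a2, hz _ a3, hz _ a4]
      ring
    rw [h2] at h1
    have h3 : (1 : ℝ) ≤ ∑ j, (Pi.single i (1 : ℝ) : ι → ℝ) j ^ 2 := by
      have := Finset.single_le_sum (f := fun j => (Pi.single i (1 : ℝ) : ι → ℝ) j ^ 2)
        (fun j _ => sq_nonneg _) (Finset.mem_univ i)
      simpa using this
    linarith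
  refine ⟨fun i => ⟨(x i).toNat, by have := hi i; omega⟩, ?_⟩
  funext i
  simp only [toZ]
  exact Int.toNat_of_nonneg (hi i).1

/-- **The sum over the labels.** -/
theorem Net.sum_eq (G : Net ι K Kq) (hcor : ∀ u : ι → ℝ,
    ∑ k, (u (G.pa k) - u (G.pb k)) + ∑ k, (u (G.qc k) - u (G.qd k)) = 0)
    (hcov : ∀ u : ι → ℝ, ∑ i, u i ^ 2 ≤ ∑ k, (u (G.pa k) ^ 2 + u (G.pb k) ^ 2 + u (G.pc k) ^ 2 +
      u (G.pd k) ^ 2)) {N : ℕ} (hN : 0 < N) (RQ RL : (ι → ℝ) → ℝ) (rest : (ι → Fin N) → ℂ) (κ : ℝ)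
    (hrest : ∀ x : ι → Fin N, toZ x ∈ G.La →
      rest x = cs N κ * cs N (RQ (G.dv N (toZ x)) + RL (G.dv N (toZ x)))) :
    ((√2 * sca N : ℝ) : ℂ) ^ (Fintype.card K + Fintype.card Kq) * (∑ x, G.wt N x * rest x) =
    cs N (((Fintype.card K : ℝ) - Fintype.card Kq) * ec N + κ) *
      ∑' x : G.La, G.tr (fun u => G.cQ u + RQ u) (fun u => G.cL u + RL u) N x := by
  classical
  set T : (ι → ℤ) → ℂ := G.tr (fun u => G.cQ u + RQ u) (fun u => G.cL u + RL u) N with hT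
  have h1 : ∑' x : G.La, T x = ∑ x : {y : ι → Fin N // toZ y ∈ G.La}, T (toZ x.1) := by
    set g : {y : ι → Fin N // toZ y ∈ G.La} → G.La := fun y => ⟨toZ y.1, y.2⟩ with hg
    have hinj : Function.Injective g := by
      intro y z hyz
      apply Subtype.ext
      apply toZ_inj
      exact congrArg Subtype.val hyz
    have hsupp : Function.support (fun x : G.La => T x) ⊆ Set.range g := by
      intro x hx
      obtain ⟨y, hy⟩ := Net.tr_range G hcov _ _ x.1 x.2 hx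
      exact ⟨⟨y, by rw [hy]; exact x.2⟩, Subtype.ext hy⟩
    rw [← hinj.tsum_eq hsupp, tsum_fintype]
  have h2 : ∑ x : {y : ι → Fin N // toZ y ∈ G.La}, T (toZ x.1) =
      ∑ x : ι → Fin N, if toZ x ∈ G.La then T (toZ x) else 0 := by
    rw [← Finset.sum_filter]
    exact (Finset.sum_subtype (Finset.univ.filter fun x : ι → Fin N => toZ x ∈ G.La) (by simp)
      (fun x => T (toZ x))).symm
  rw [h1, h2, Finset.mul_sum, Finset.mul_sum]
  refine Finset.sum_congr rfl fun x _ => ?_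
  by_cases hx : toZ x ∈ G.La
  · rw [if_pos hx, hrest x hx, cs_add N (((Fintype.card K : ℝ) - Fintype.card Kq) * ec N) κ]
    have := G.wt_eq hcor hN x hx RQ RL
    rw [← hT] at this
    linear_combination cs N κ * this
  · rw [if_neg hx, G.wt_zero x hx]
    ring

end Pool.Agent.Q191.TW
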