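import Pool.Agent.Q191.TW.Gam

/-!
The trace of an operator which commutes with `E`, from its restriction to the kernel of `E`.
-/

set_option autoImplicit false

namespace Pool.Agent.Q191.TW

open Matrix Finset Pool.Agent.H550R3.Jones Pool.Agent.W715.VC

variable {N : ℕ} {W : Type} [Fintype W] [DecidableEq W]

/-- the action of `E` on `V ⊗ M` -/
noncomputable def Em (κ : W → ℂ) (EW : Matrix W W ℂ) : Matrix (Fin N × W) (Fin N × W) ℂ :=
  fun p q => Eo N p.1 q.1 * (if p.2 = q.2 then κ p.2 else 0) + (if p.1 = q.1 then EW p.2 q.2 else 0)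

theorem Em_pow (hN : 0 < N) (κ : W → ℂ) (EW : Matrix W W ℂ) : ∀ (i : ℕ), ∃ c : ℂ, (i < N → c ≠ 0) ∧
    ∀ (j : Fin N) (w u : W), (i < j → (Em κ EW ^ i) (⟨0, hN⟩, w) (j, u) = 0) ∧
      ((j : ℕ) = i → (Em κ EW ^ i) (⟨0, hN⟩, w) (j, u) = if w = u then c * κ w ^ i else 0)
  | 0 => by
    refine ⟨1, fun _ => one_ne_zero, fun j w u => ⟨fun h => ?_, fun h => ?_⟩⟩
    · rw [pow_zero, Matrix.one_apply_ne]
      intro h1
      have := congrArg (fun p => (p.1 : ℕ)) h1
      simp only at this
      omega
    · have hj : j = ⟨0, hN⟩ := Fin.ext h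
      subst hj
      rw [pow_zero, Matrix.one_apply]
      simp only [Prod.mk.injEq, true_and, pow_zero, mul_one]
  | i + 1 => by
    obtain ⟨c, hc, ih⟩ := Em_pow hN κ EW i
    by_cases hi : i + 1 < N
    · refine ⟨c * Eo N ⟨i, by omega⟩ ⟨i + 1, hi⟩, fun _ => mul_ne_zero (hc (by omega))
        (Eo_succ rfl), fun j w u => ⟨fun h => ?_, fun h => ?_⟩⟩
      · rw [pow_succ, Matrix.mul_apply]
        refine Finset.sum_eq_zero fun p _ => ?_
        obtain ⟨k, x⟩ := p
        by_cases hk : i < (k : ℕ)
        · rw [(ih k w x).1 hk, zero_mul]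
        · have h1 : Eo N k j = 0 := by
            by_contra h2
            have := Eo_ne h2
            omega
          have h3 : k ≠ j := by intro h4; rw [h4] at hk; omega
          simp only [Em, h1, zero_mul, if_neg h3, add_zero, mul_zero]
      · rw [pow_succ, Matrix.mul_apply, Fintype.sum_prod_type,
          Finset.sum_eq_single (⟨i, by omega⟩ : Fin N)]
        · have hj : j = ⟨i + 1, hi⟩ := Fin.ext h
          subst hj
          have hne : (⟨i, by omega⟩ : Fin N) ≠ ⟨i + 1, hi⟩ := by
            intro h1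
            have := congrArg Fin.val h1
            simp at this
          simp only [Em, if_neg hne, add_zero]
          rw [Finset.sum_eq_single u]
          · rw [(ih ⟨i, by omega⟩ w u).2 rfl, if_pos rfl]
            split_ifs with h1
            · subst h1; ring
            · ring
          · intro x _ hx
            rw [if_neg hx]; ring
          · intro h; exact absurd (mem_univ _) h
        · intro k _ hk
          refine Finset.sum_eq_zero fun x _ => ?_
          by_cases hk2 : i < (k : ℕ)
          · rw [(ih k w x).1 hk2, zero_mul]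
          · have h1 : Eo N k j = 0 := by
              by_contra h2
              have := Eo_ne h2
              exact hk (Fin.ext (by simp only; omega))
            have h3 : k ≠ j := by intro h4; rw [h4] at hk2; omega
            simp only [Em, h1, zero_mul, if_neg h3, add_zero, mul_zero]
        · intro h; exact absurd (mem_univ _) h
    · exact ⟨1, fun h => absurd h hi, fun j w u => ⟨fun h => by have := j.2; omega,
        fun h => by have := j.2; omega⟩⟩

/-- **The trace.** -/
theorem trace_ker (hN : 0 < N) (κ : W → ℂ) (hκ : ∀ w, κ w ≠ 0) (EW : Matrix W W ℂ)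
    (hnil : Em (N := N) κ EW ^ N = 0) (G : Matrix (Fin N × W) (Fin N × W) ℂ)
    (hG : G * Em κ EW = Em κ EW * G) (H : Matrix W W ℂ)
    (hH : ∀ z : Fin N × W → ℂ, Em κ EW *ᵥ z = 0 → ∀ w,
      (G *ᵥ z) (⟨0, hN⟩, w) = (H *ᵥ fun u => z (⟨0, hN⟩, u)) w) :
    G.trace = N * H.trace := by
  set E : Matrix (Fin N × W) (Fin N × W) ℂ := Em κ EW with hE
  set o : Fin N := ⟨0, hN⟩ with ho
  set Th : Matrix (Fin N × W) (Fin N × W) ℂ := fun p y => (E ^ (p.1 : ℕ)) (o, p.2) y with hTh
  have hThv : ∀ (v : Fin N × W → ℂ) (p : Fin N × W), (Th *ᵥ v) p = ((E ^ (p.1 : ℕ)) *ᵥ v) (o, p.2) :=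
    fun v p => rfl
  have hdet : Th.det ≠ 0 := by
    intro h0
    obtain ⟨v, hv0, hv⟩ := Matrix.exists_mulVec_eq_zero_iff.2 h0
    apply hv0
    have key : ∀ n : ℕ, ∀ j : Fin N, (j : ℕ) = n → ∀ w, v (j, w) = 0 := by
      intro n
      induction n using Nat.strong_induction_on with
      | _ n ih =>
        intro j hj w
        obtain ⟨c, hc, hp⟩ := Em_pow hN κ EW n
        have h1 := congrFun hv (j, w)
        rw [hThv] at h1
        simp only [Pi.zero_apply, hj] at h1
        rw [Matrix.mulVec, dotProduct, Fintype.sum_prod_type, Finset.sum_eq_single j] at h1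
        · rw [Finset.sum_eq_single w] at h1
          · have h2 := (hp j w w).2 hj
            rw [if_pos rfl] at h2
            rw [← hE] at h2
            rw [h2] at h1
            rcases mul_eq_zero.1 h1 with h3 | h3
            · exact absurd h3 (mul_ne_zero (hc (by have := j.2; omega)) (pow_ne_zero _ (hκ w)))
            · exact h3
          · intro x _ hx
            have h2 := (hp j w x).2 hj
            rw [if_neg (Ne.symm hx), ← hE] at h2
            rw [h2, zero_mul]
          · intro h; exact absurd (mem_univ _) h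
        · intro k _ hk
          refine Finset.sum_eq_zero fun x _ => ?_
          rcases lt_trichotomy (k : ℕ) n with h | h | h
          · rw [ih k h k rfl x, mul_zero]
          · exact absurd (Fin.ext (by omega)) hk
          · have h2 := (hp k w x).1 h
            rw [← hE] at h2
            rw [h2, zero_mul]
        · intro h; exact absurd (mem_univ _) h
    funext p
    exact key p.1 p.1 rfl p.2
  have hunit : IsUnit Th.det := isUnit_iff_ne_zero.2 hdet
  have hinj : ∀ v : Fin N × W → ℂ, Th *ᵥ v = 0 → v = 0 := by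
    intro v hv
    have : Th⁻¹ *ᵥ (Th *ᵥ v) = v := by
      rw [Matrix.mulVec_mulVec, Matrix.nonsing_inv_mul _ hunit, Matrix.one_mulVec]
    rw [← this, hv, Matrix.mulVec_zero]
  have hGpow : ∀ i : ℕ, E ^ i * G = G * E ^ i := by
    intro i
    induction i with
    | zero => simp
    | succ i ih => rw [pow_succ, mul_assoc, ← hG, ← mul_assoc, ih, mul_assoc]
  set R : Matrix (Fin N × W) (Fin N × W) ℂ := G * Th⁻¹ with hR
  have hRT : R * Th = G := by
    rw [hR, mul_assoc, Matrix.nonsing_inv_mul _ hunit, mul_one]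
  set Rn : W → ℕ → W → ℂ := fun w n u => if h : n < N then R (o, w) (⟨n, h⟩, u) else 0 with hRn
  set B : Matrix (Fin N × W) (Fin N × W) ℂ := fun p q =>
    if (p.1 : ℕ) ≤ q.1 then Rn p.2 ((q.1 : ℕ) - p.1) q.2 else 0 with hB
  have hbig : ∀ n : ℕ, N ≤ n → E ^ n = 0 := by
    intro n hn
    obtain ⟨k, rfl⟩ := Nat.exists_eq_add_of_le hn
    rw [pow_add, hnil, zero_mul]
  have hThG : Th * G = B * Th := by
    ext ⟨i, w⟩ y
    have h1 : (Th * G) (i, w) y = ∑ k ∈ range N, ∑ u, Rn w k u * (E ^ (k + i)) (o, u) y := by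
      have h2 : (Th * G) (i, w) y = (E ^ (i : ℕ) * G) (o, w) y := by
        rw [Matrix.mul_apply, Matrix.mul_apply]
      rw [h2, hGpow, ← hRT, mul_assoc, Matrix.mul_apply, Fintype.sum_prod_type,
        ← Fin.sum_univ_eq_sum_range (fun k => ∑ u, Rn w k u * (E ^ (k + i)) (o, u) y) N]
      refine Finset.sum_congr rfl fun k _ => Finset.sum_congr rfl fun u _ => ?_
      have h3 : Rn w k u = R (o, w) (k, u) := by
        simp only [hRn]
        rw [dif_pos k.2]
      have h4 : (Th * E ^ (i : ℕ)) (k, u) y = (E ^ ((k : ℕ) + i)) (o, u) y := by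
        rw [pow_add, Matrix.mul_apply, Matrix.mul_apply]
      rw [h3, h4]
    have h5 : (B * Th) (i, w) y = ∑ j ∈ range N, if (i : ℕ) ≤ j then
        ∑ u, Rn w (j - i) u * (E ^ j) (o, u) y else 0 := by
      rw [Matrix.mul_apply, Fintype.sum_prod_type,
        ← Fin.sum_univ_eq_sum_range (fun j => if (i : ℕ) ≤ j then
          ∑ u, Rn w (j - i) u * (E ^ j) (o, u) y else 0) N]
      refine Finset.sum_congr rfl fun j _ => ?_
      by_cases hij : (i : ℕ) ≤ j
      · rw [if_pos hij]
        refine Finset.sum_congr rfl fun u _ => ?_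
        simp only [hB, if_pos hij, hTh]
      · rw [if_neg hij]
        refine Finset.sum_eq_zero fun u _ => ?_
        simp only [hB, if_neg hij, zero_mul]
    rw [h1, h5, ← Finset.sum_filter]
    have h6 : (range N).filter (fun j => (i : ℕ) ≤ j) = Finset.Ico (i : ℕ) N := by
      ext j
      simp only [Finset.mem_filter, Finset.mem_range, Finset.mem_Ico]
      omega
    rw [h6, Finset.sum_Ico_eq_sum_range]
    have h7 : ∑ k ∈ range N, ∑ u, Rn w k u * (E ^ (k + i)) (o, u) y =
        ∑ k ∈ range (N - i), ∑ u, Rn w k u * (E ^ (k + i)) (o, u) y := by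
      symm
      apply Finset.sum_subset
      · intro k hk
        rw [Finset.mem_range] at hk ⊢
        omega
      · intro k hk hk2
        rw [Finset.mem_range] at hk hk2
        refine Finset.sum_eq_zero fun u _ => ?_
        rw [hbig (k + i) (by omega)]
        simp
    rw [h7]
    refine Finset.sum_congr rfl fun k _ => Finset.sum_congr rfl fun u _ => ?_
    rw [Nat.add_sub_cancel_left, Nat.add_comm (i : ℕ) k]
  have htr : G.trace = B.trace := by
    have h1 : G = Th⁻¹ * (B * Th) := by
      rw [← hThG, ← mul_assoc, Matrix.nonsing_inv_mul _ hunit, one_mul]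
    rw [h1, Matrix.trace_mul_comm, mul_assoc, Matrix.mul_nonsing_inv _ hunit, mul_one]
  have hRH : ∀ w u, R (o, w) (o, u) = H w u := by
    intro w u
    set z : Fin N × W → ℂ := Th⁻¹ *ᵥ Pi.single (o, u) 1 with hz
    have h1 : Th *ᵥ z = Pi.single (o, u) 1 := by
      rw [hz, Matrix.mulVec_mulVec, Matrix.mul_nonsing_inv _ hunit, Matrix.one_mulVec]
    have h2 : E *ᵥ z = 0 := by
      apply hinj
      funext p
      obtain ⟨i, x⟩ := p
      rw [hThv, Matrix.mulVec_mulVec, ← pow_succ]
      simp only [Pi.zero_apply]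
      by_cases hi : (i : ℕ) + 1 < N
      · have h3 := congrFun h1 (⟨i + 1, hi⟩, x)
        rw [hThv] at h3
        simp only at h3
        rw [h3, Pi.single_eq_of_ne]
        intro h4
        have := congrArg (fun p => (p.1 : ℕ)) h4
        simp [ho] at this
      · rw [hbig _ (by omega)]
        simp
    have h3 : ∀ x, z (o, x) = if x = u then 1 else 0 := by
      intro x
      have h4 := congrFun h1 (o, x)
      rw [hThv] at h4
      simp only [ho, pow_zero, Matrix.one_mulVec] at h4
      rw [h4, Pi.single_apply]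
      simp
    have h5 := hH z h2 w
    rw [← hRT, ← Matrix.mulVec_mulVec, h1] at h5
    have h6 : (R *ᵥ Pi.single (o, u) 1) (o, w) = R (o, w) (o, u) := by
      simp [Matrix.mulVec_single]
    rw [h6] at h5
    rw [h5]
    simp only [Matrix.mulVec, dotProduct, h3]
    simp
  rw [htr, Matrix.trace, Matrix.trace, Fintype.sum_prod_type]
  have h8 : ∀ i : Fin N, ∑ w, B.diag (i, w) = ∑ w, H.diag w := by
    intro i
    refine Finset.sum_congr rfl fun w _ => ?_
    have h9 : B (i, w) (i, w) = Rn w 0 w := by
      simp only [hB]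
      rw [if_pos le_rfl, Nat.sub_self]
    have h10 : Rn w 0 w = R (o, w) (o, w) := by
      simp only [hRn]
      rw [dif_pos hN]
    show B (i, w) (i, w) = H w w
    rw [h9, h10, hRH]
  rw [Finset.sum_congr rfl fun i _ => h8 i]
  simp

end Pool.Agent.Q191.TW
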