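import Pool.Agent.Q191.TW.Wer
import Pool.Agent.Q191.TW.Rk

/-!
The Kashaev invariants of the weaves with the two axes.
-/

set_option autoImplicit false

namespace Pool.Agent.Q191.TW

open Matrix Finset Filter Topology Pool.Agent.H550R3.Jones
open Pool.Agent.W715.VC hiding LL
open Pool.Agent.W719.BS (LL)

/-- one period of the braid of the weave on the strands `0, …, 2 s + 2` -/
def perW (s : ℕ) : List (ℕ × Bool) :=
  (shw (evW true (s + 1)) ++ winv (rotW (2 * s + 1 + 1))) ++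
    (shw (evW false (s + 1)) ++ rotW (2 * s + 1 + 1))

/-- the braid of the weave with the first axis -/
def weaW (s n r : ℕ) : List (ℕ × Bool) :=
  (List.replicate (n + 1) (perW s)).flatten ++
    (List.replicate (2 * r) (rotW (2 * s + 1 + 1))).flatten

theorem Hat_weaW (N s n r : ℕ) : Hat (N := N) (2 * s + 1 + 1) (weaW s n r)
    ((layM N s true * Um N (2 * s + 1) * (layM N s false * Rm N (2 * s + 1))) ^ (n + 1) *
      Rm N (2 * s + 1) ^ (2 * r)) := by
  refine Hat_append (Hat_pow (Hat_append (Hat_append (Hat_shw _) ?_) (Hat_append (Hat_shw _) ?_))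
    _) (Hat_pow ?_ _)
  · exact Hat_rotI _
  · exact Hat_rotW _
  · exact Hat_rotW _

/-- the sum over the labels -/
noncomputable def wsum (s n r N : ℕ) : ℂ :=
  ∑ x : Ed s n → Fin N, (weave s n r).wt N x * wrest s n r N x

theorem cjones_weave {N : ℕ} (hN : 0 < N) (s n r : ℕ) :
    cjones N (2 * s + 1 + 1 + 1) (axisW (2 * s + 1 + 1 + 1) ++ shw (weaW s n r)) (rt N) =
      rt N ^ (-((2 * s + 1 + 1 + 1 : ℕ) : ℤ) * ((N : ℤ) - 1)) * (N * wsum s n r N) := by
  rw [cjones_axisW hN, trace_hat hN (Hat_weaW N s n r), trace_weave]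
  rfl

/-- the quadratic part of all phases -/
noncomputable def aQ (s n r : ℕ) (u : Ed s n → ℝ) : ℝ := (weave s n r).cQ u + wRQ s n r u

/-- the linear part of all phases -/
noncomputable def aL (s n r : ℕ) (u : Ed s n → ℝ) : ℝ := (weave s n r).cL u + wRL s n r u

theorem wsum_eq {N : ℕ} (hN : 0 < N) (s n r : ℕ) :
    ((√2 * sca N : ℝ) : ℂ) ^ (2 * ((n + 1) * (s + 1))) * wsum s n r N =
      cs N (wka s r N) * ∑' x : (weave s n r).La, (weave s n r).tr (aQ s n r) (aL s n r) N x := by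
  have h := (weave s n r).sum_eq (weave_cor s n r) (weave_cov s n r) hN (wRQ s n r) (wRL s n r)
    (wrest s n r N) (wka s r N) (fun x hx => wrest_eq hN x hx)
  rw [sub_self, zero_mul, zero_add] at h
  have hc : Fintype.card (Fin (n + 1) × Fin (s + 1)) = (n + 1) * (s + 1) := by simp
  rw [hc, ← two_mul] at h
  exact h

/-- **Asymptotics of the sum.** -/
theorem wsum_asym (s n r : ℕ) : ∃ L : ℂ, L ≠ 0 ∧
    Tendsto (fun N : ℕ => (((√N ^ (2 * ((n + 1) * (s + 1)) + 1))⁻¹ : ℝ) : ℂ) *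
      ((cs N (wka s r N))⁻¹ *
      (((√2 * sca N : ℝ) : ℂ) ^ (2 * ((n + 1) * (s + 1))) * wsum s n r N))) atTop (𝓝 L) := by
  obtain ⟨L, hL, hT⟩ := (weave s n r).main (weave_cov s n r)
    (QF := aQ s n r) (LF := aL s n r)
    (IsQf.add (Net.cQ_qf _) (wRQ_qf s n r)) (IsLf.add (Net.cL_lf _) (wRL_lf s n r))
  rw [rank_La] at hT
  refine ⟨L, hL, hT.congr' ?_⟩
  filter_upwards [eventually_gt_atTop 0] with N hN
  rw [wsum_eq hN, ← mul_assoc (cs N (wka s r N))⁻¹, inv_mul_cancel₀ (cs_ne _ _), one_mul]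

theorem wka_lim (s r : ℕ) : Tendsto (fun N : ℕ => cs N (wka s r N)) atTop (𝓝 1) := by
  have hinv : Tendsto (fun N : ℕ => ((N : ℝ))⁻¹) atTop (𝓝 0) :=
    tendsto_inv_atTop_zero.comp tendsto_natCast_atTop_atTop
  have h1 := hinv.const_mul (-(2 * Real.pi * r * (2 * s + 3)))
  have h2 := (((Complex.continuous_ofReal.tendsto _).comp h1).mul_const Complex.I).cexp
  rw [mul_zero, Complex.ofReal_zero, zero_mul, Complex.exp_zero] at h2
  refine h2.congr' ?_
  filter_upwards [eventually_gt_atTop 0] with N hN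
  have hN0 : (N : ℝ) ≠ 0 := by exact_mod_cast hN.ne'
  have h3 : wka s r N = -(2 * r * (2 * s + 3)) +
      2 * N * (((r : ℤ) * (2 * s + 3 + (N - 1) * (s + 1)) - (s + 1) * r : ℤ) : ℝ) := by
    unfold wka
    push_cast
    ring
  rw [cs_period' hN _ h3]
  unfold cs
  simp only [Function.comp]
  congr 3
  ring

/-- **The asymptotics of the Kashaev invariants of the weaves.** -/
theorem kash_asym (s n r : ℕ) : ∃ L : ℂ, L ≠ 0 ∧ Tendsto (fun N : ℕ =>
    cjones N (2 * s + 1 + 1 + 1) (axisW (2 * s + 1 + 1 + 1) ++ shw (weaW s n r)) (rt N) /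
      ((N * √N * Real.exp (N * (((2 * ((n + 1) * (s + 1)) : ℕ) : ℝ) * (4 * LL (3 / 4)))) : ℝ) : ℂ))
      atTop (𝓝 L) := by
  obtain ⟨L, hL, hT⟩ := wsum_asym s n r
  set M : ℕ := 2 * ((n + 1) * (s + 1)) with hM
  set k : ℕ := 2 * s + 1 + 1 + 1 with hk
  have hphase : Tendsto (fun N : ℕ => rt N ^ (-(k : ℤ) * ((N : ℤ) - 1))) atTop
      (𝓝 ((-1) ^ k)) := by
    have hinv : Tendsto (fun N : ℕ => ((N : ℝ))⁻¹) atTop (𝓝 0) :=
      tendsto_inv_atTop_zero.comp tendsto_natCast_atTop_atTop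
    have h1 := hinv.const_mul (Real.pi * k)
    have h2 := ((((Complex.continuous_ofReal.tendsto _).comp h1).mul_const Complex.I).cexp).const_mul
      (((-1 : ℂ)) ^ k)
    rw [mul_zero, Complex.ofReal_zero, zero_mul, Complex.exp_zero, mul_one] at h2
    refine h2.congr' ?_
    filter_upwards [eventually_gt_atTop 0] with N hN
    have hN0 : (N : ℝ) ≠ 0 := by exact_mod_cast hN.ne'
    have e1 : rt N ^ (-(k : ℤ) * ((N : ℤ) - 1)) = rt N ^ (k : ℤ) * (rt N ^ (N : ℤ)) ^ (-(k : ℤ)) := by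
      rw [← _root_.zpow_mul, ← zpow_add₀ (rt_ne N)]
      congr 1
      ring
    rw [e1, rt_zpow_N hN, rt_cs, _root_.zpow_neg, zpow_natCast]
    unfold cs
    simp only [Function.comp]
    have e2 : ((-1 : ℂ) ^ k)⁻¹ = (-1) ^ k := by
      rw [← inv_pow]
      norm_num
    have e3 : Real.pi * ((k : ℤ) : ℝ) / N = Real.pi * k * (N : ℝ)⁻¹ := by
      push_cast
      ring
    rw [e2, mul_comm, e3]
  refine ⟨(-1) ^ k * (1 * ((((√2 ^ M)⁻¹ : ℝ) : ℂ) * L)), ?_, ?_⟩
  · have h2 : ((√2 ^ M)⁻¹ : ℝ) ≠ 0 := by positivity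
    have h3 : (((√2 ^ M)⁻¹ : ℝ) : ℂ) ≠ 0 := by exact_mod_cast h2
    have h4 : ((-1 : ℂ)) ^ k ≠ 0 := pow_ne_zero _ (by norm_num)
    rw [one_mul]
    exact mul_ne_zero h4 (mul_ne_zero h3 hL)
  · refine (hphase.mul ((wka_lim s r).mul (hT.const_mul (((√2 ^ M)⁻¹ : ℝ) : ℂ)))).congr' ?_
    filter_upwards [eventually_gt_atTop 0] with N hN
    rw [cjones_weave hN]
    have hN0 : (0 : ℝ) < N := by exact_mod_cast hN
    have hs2 : ((√2 : ℝ) : ℂ) ≠ 0 := by
      have : (√2 : ℝ) ≠ 0 := by positivity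
      exact_mod_cast this
    have hsN : ((√(N : ℝ) : ℝ) : ℂ) ≠ 0 := by
      have : √(N : ℝ) ≠ 0 := (Real.sqrt_pos.2 hN0).ne'
      exact_mod_cast this
    have hNC : (N : ℂ) ≠ 0 := by exact_mod_cast hN.ne'
    have hcs := cs_ne N (wka s r N)
    have hE : Real.exp (N * ((M : ℝ) * (4 * LL (3 / 4)))) *
        Real.exp (-(4 * N * LL (3 / 4))) ^ M = 1 := by
      rw [← Real.exp_nat_mul, ← Real.exp_add]
      have : (N : ℝ) * ((M : ℝ) * (4 * LL (3 / 4))) + (M : ℝ) * -(4 * N * LL (3 / 4)) = 0 := by ring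
      rw [this, Real.exp_zero]
    have hEC : ((Real.exp (N * ((M : ℝ) * (4 * LL (3 / 4)))) : ℝ) : ℂ) *
        ((Real.exp (-(4 * N * LL (3 / 4))) : ℝ) : ℂ) ^ M = 1 := by
      exact_mod_cast hE
    have hX : ((Real.exp (N * ((M : ℝ) * (4 * LL (3 / 4)))) : ℝ) : ℂ) ≠ 0 := by
      exact_mod_cast (Real.exp_pos _).ne'
    have hk1 : (((2 * s + 1 + 1 + 1 : ℕ) : ℤ)) = (k : ℤ) := rfl
    have hN1 : ((N : ℝ) : ℂ) = (N : ℂ) := by push_cast; rfl
    unfold sca
    rw [hk1]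
    simp only [Complex.ofReal_mul, Complex.ofReal_inv, Complex.ofReal_pow, hN1]
    generalize ((Real.exp (N * ((M : ℝ) * (4 * LL (3 / 4)))) : ℝ) : ℂ) = X at hEC hX ⊢
    generalize ((Real.exp (-(4 * N * LL (3 / 4))) : ℝ) : ℂ) = Y at hEC ⊢
    generalize rt N ^ (-(k : ℤ) * ((N : ℤ) - 1)) = A
    generalize ((√2 : ℝ) : ℂ) = z at hs2 ⊢
    generalize ((√(N : ℝ) : ℝ) : ℂ) = w at hsN ⊢
    generalize wsum s n r N = W
    generalize cs N (wka s r N) = c at hcs ⊢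
    rw [pow_succ, mul_pow, mul_pow]
    field_simp
    linear_combination A * W * hEC

end Pool.Agent.Q191.TW
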