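import Pool.Agent.Q191.TW.Sum

/-!
The network of the square weave on the torus.
-/

set_option autoImplicit false

namespace Pool.Agent.Q191.TW

open Matrix Finset Filter Topology Pool.Agent.H550R3.Jones
open Pool.Agent.W715.VC hiding LL

/-- the edges of the weave: `s + 1` columns of crossings of each sign, `n + 1` periods -/
abbrev Ed (s n : ℕ) := Bool × Fin (n + 1) × Fin (2 * s + 1 + 1)

/-- even positions -/
def evp {s : ℕ} (k : Fin (s + 1)) : Fin (2 * s + 1 + 1) := ⟨2 * k, by have := k.2; omega⟩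

/-- odd positions -/
def odp {s : ℕ} (k : Fin (s + 1)) : Fin (2 * s + 1 + 1) := ⟨2 * k + 1, by have := k.2; omega⟩

/-- the rotation of the positions -/
def fr (s : ℕ) : Fin (2 * s + 1 + 1) ≃ Fin (2 * s + 1 + 1) := finRotate (2 * s + 1 + 1)

theorem fr_par {s : ℕ} (i : Fin (2 * s + 1 + 1)) : ((fr s i : ℕ) % 2) = ((i : ℕ) + 1) % 2 := by
  unfold fr
  rw [coe_finRotate]
  split_ifs with h
  · rw [h, Fin.val_last]; omega
  · rfl

theorem fr_evp {s : ℕ} (k : Fin (s + 1)) : fr s (evp k) = odp k := by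
  apply Fin.ext
  unfold fr
  rw [coe_finRotate, if_neg]
  · rfl
  · intro h
    have := congrArg Fin.val h
    simp only [evp, Fin.val_last] at this
    omega

theorem fr_iter_par {s : ℕ} (k : ℕ) (i : Fin (2 * s + 1 + 1)) :
    (((fr s)^[k] i : ℕ) % 2) = ((i : ℕ) + k) % 2 := by
  induction k with
  | zero => rfl
  | succ k ih => rw [Function.iterate_succ_apply', fr_par]; omega

/-- the next edge -/
def sg (s n R : ℕ) (j : Fin (n + 1)) (i : Fin (2 * s + 1 + 1)) :
    Fin (n + 1) × Fin (2 * s + 1 + 1) :=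
  Fin.lastCases (motive := fun _ => Fin (n + 1) × Fin (2 * s + 1 + 1)) (0, (fr s)^[R] i)
    (fun j' => (j'.succ, i)) j

theorem rot_iter {α : Type} {s : ℕ} (k : ℕ) (t : Fin (2 * s + 1 + 1) → α) (i : Fin (2 * s + 1 + 1)) :
    rot^[k] t i = t ((fr s)^[k] i) := by
  induction k generalizing i with
  | zero => rfl
  | succ k ih =>
    rw [Function.iterate_succ_apply', Function.iterate_succ_apply]
    exact ih _

theorem nx_sg {α : Type} {s n : ℕ} (R : ℕ) (y : Fin (n + 1) → Fin (2 * s + 1 + 1) → α)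
    (j : Fin (n + 1)) (i : Fin (2 * s + 1 + 1)) :
    nx rot^[R] y j i = y (sg s n R j i).1 (sg s n R j i).2 := by
  unfold nx sg
  refine Fin.lastCases ?_ (fun j' => ?_) j
  · rw [Fin.snoc_last, Fin.lastCases_last, rot_iter]
  · rw [Fin.snoc_castSucc, Fin.lastCases_castSucc]
    rfl

theorem sg_par {s n : ℕ} (r : ℕ) (j : Fin (n + 1)) (i : Fin (2 * s + 1 + 1)) :
    (((sg s n (2 * r) j i).2 : ℕ) % 2) = (i : ℕ) % 2 := by
  unfold sg
  refine Fin.lastCases ?_ (fun j' => ?_) j
  · rw [Fin.lastCases_last]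
    simp only
    rw [fr_iter_par]
    omega
  · rw [Fin.lastCases_castSucc]

theorem sum_pairs {s : ℕ} {M : Type} [AddCommMonoid M] (g : Fin (2 * s + 1 + 1) → M) :
    ∑ i, g i = ∑ k : Fin (s + 1), (g (evp k) + g (odp k)) := by
  have key : ∀ (s : ℕ) (g : ℕ → M), ∑ i ∈ range (2 * s), g i =
      ∑ k ∈ range s, (g (2 * k) + g (2 * k + 1)) := by
    intro s g
    induction s with
    | zero => simp
    | succ s ih =>
      have : 2 * (s + 1) = 2 * s + 1 + 1 := rfl
      rw [this, Finset.sum_range_succ, Finset.sum_range_succ, ih, Finset.sum_range_succ, add_assoc]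
  set g' : ℕ → M := fun i => if h : i < 2 * s + 1 + 1 then g ⟨i, h⟩ else 0 with hg'
  have h1 : ∑ i, g i = ∑ i ∈ range (2 * s + 1 + 1), g' i := by
    rw [← Fin.sum_univ_eq_sum_range]
    refine Finset.sum_congr rfl fun i _ => ?_
    simp only [hg']
    rw [dif_pos i.2]
  have h2 : ∑ k : Fin (s + 1), (g (evp k) + g (odp k)) =
      ∑ k ∈ range (s + 1), (g' (2 * k) + g' (2 * k + 1)) := by
    rw [← Fin.sum_univ_eq_sum_range (fun k => g' (2 * k) + g' (2 * k + 1))]
    refine Finset.sum_congr rfl fun k _ => ?_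
    simp only [hg']
    rw [dif_pos (by have := k.2; omega), dif_pos (by have := k.2; omega)]
    rfl
  rw [h1, h2]
  exact key (s + 1) g'

theorem sum_pairs_fr {s : ℕ} (g : Fin (2 * s + 1 + 1) → ℝ) :
    ∑ k : Fin (s + 1), (g (evp k) - g (odp k)) +
      ∑ k : Fin (s + 1), (g (fr s (evp k)) - g (fr s (odp k))) = 0 := by
  have h1 := sum_pairs g
  have h2 := sum_pairs (fun i => g (fr s i))
  have h3 : ∑ i, g (fr s i) = ∑ i, g i := Equiv.sum_comp (fr s) g
  have h4 : ∑ k : Fin (s + 1), g (fr s (evp k)) = ∑ k : Fin (s + 1), g (odp k) :=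
    Finset.sum_congr rfl fun k _ => by rw [fr_evp]
  rw [Finset.sum_add_distrib] at h1 h2
  rw [Finset.sum_sub_distrib, Finset.sum_sub_distrib]
  linarith

/-- the network of the weave -/
def weave (s n r : ℕ) : Net (Ed s n) (Fin (n + 1) × Fin (s + 1)) (Fin (n + 1) × Fin (s + 1)) where
  pa k := (true, k.1, evp k.2)
  pb k := (true, k.1, odp k.2)
  pc k := (false, k.1, evp k.2)
  pd k := (false, k.1, odp k.2)
  qa k := (false, sg s n (2 * r) k.1 (fr s (evp k.2)))
  qb k := (false, sg s n (2 * r) k.1 (fr s (odp k.2)))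
  qc k := (true, k.1, fr s (evp k.2))
  qd k := (true, k.1, fr s (odp k.2))
  rho e := if (e.2.2 : ℕ) % 2 = 0 then 3 else 1
  hpa k := by simp [evp]
  hpb k := by simp [odp, Nat.add_mod]
  hpc k := by simp [evp]
  hpd k := by simp [odp, Nat.add_mod]
  hqa k := by
    show (if (((sg s n (2 * r) k.1 (fr s (evp k.2))).2 : Fin _) : ℕ) % 2 = 0 then (3 : ℤ) else 1) = 1
    rw [sg_par, fr_par, if_neg]
    simp only [evp]; omega
  hqb k := by
    show (if (((sg s n (2 * r) k.1 (fr s (odp k.2))).2 : Fin _) : ℕ) % 2 = 0 then (3 : ℤ) else 1) = 3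
    rw [sg_par, fr_par, if_pos]
    simp only [odp]; omega
  hqc k := by
    show (if ((fr s (evp k.2) : Fin _) : ℕ) % 2 = 0 then (3 : ℤ) else 1) = 1
    rw [fr_par, if_neg]
    simp only [evp]; omega
  hqd k := by
    show (if ((fr s (odp k.2) : Fin _) : ℕ) % 2 = 0 then (3 : ℤ) else 1) = 3
    rw [fr_par, if_pos]
    simp only [odp]; omega

theorem weave_rho (s n r : ℕ) (e : Ed s n) :
    (weave s n r).rho e = if (e.2.2 : ℕ) % 2 = 0 then 3 else 1 := rfl

theorem weave_cor (s n r : ℕ) (u : Ed s n → ℝ) :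
    ∑ k, (u ((weave s n r).pa k) - u ((weave s n r).pb k)) +
      ∑ k, (u ((weave s n r).qc k) - u ((weave s n r).qd k)) = 0 := by
  rw [Fintype.sum_prod_type, Fintype.sum_prod_type, ← Finset.sum_add_distrib]
  exact Finset.sum_eq_zero fun j _ => sum_pairs_fr (fun i => u (true, j, i))

theorem weave_cov (s n r : ℕ) (u : Ed s n → ℝ) :
    ∑ i, u i ^ 2 ≤ ∑ k, (u ((weave s n r).pa k) ^ 2 + u ((weave s n r).pb k) ^ 2 +
      u ((weave s n r).pc k) ^ 2 + u ((weave s n r).pd k) ^ 2) := by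
  apply le_of_eq
  have h1 : ∑ i, u i ^ 2 = ∑ j : Fin (n + 1), (∑ i, u (true, j, i) ^ 2 + ∑ i, u (false, j, i) ^ 2) := by
    rw [Fintype.sum_prod_type, Fintype.sum_bool, Fintype.sum_prod_type, Fintype.sum_prod_type,
      ← Finset.sum_add_distrib]
  rw [h1, Fintype.sum_prod_type]
  refine Finset.sum_congr rfl fun j _ => ?_
  rw [sum_pairs, sum_pairs, ← Finset.sum_add_distrib]
  exact Finset.sum_congr rfl fun k _ => by
    show u (true, j, evp k) ^ 2 + u (true, j, odp k) ^ 2 +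
      (u (false, j, evp k) ^ 2 + u (false, j, odp k) ^ 2) = u (true, j, evp k) ^ 2 +
      u (true, j, odp k) ^ 2 + u (false, j, evp k) ^ 2 + u (false, j, odp k) ^ 2
    ring

/-! ### the phases of the rotations -/

theorem Phi_cs (N p x T : ℕ) : Phi N p x T =
    cs N (((N : ℝ) - 1) * (p + 1 + T) + x * (((p : ℝ) + 2) * (N - 1) - 2 * T + 2)) := by
  unfold Phi phx
  rw [rt_cs, rt_cs, rt_cs, ← cs_add, ← cs_add]
  congr 1
  push_cast
  ring

theorem cs_period' {N : ℕ} (hN : 0 < N) {x y : ℝ} (k : ℤ) (h : x = y + 2 * N * k) :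
    cs N x = cs N y := by rw [h, cs_period hN]

/-- the total deviation in a row of edges -/
noncomputable def tau {s n : ℕ} (b : Bool) (j : Fin (n + 1)) (u : Ed s n → ℝ) : ℝ :=
  ∑ i, u (b, j, i)

/-- the difference of the deviations of the first edges -/
noncomputable def del {s n : ℕ} (r : ℕ) (j : Fin (n + 1)) (u : Ed s n → ℝ) : ℝ :=
  u (false, sg s n (2 * r) j 0) - u (true, j, 0)

/-- the deviations of the edges which pass in the final rotation -/
noncomputable def xis {s n : ℕ} (r : ℕ) (u : Ed s n → ℝ) : ℝ :=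
  ∑ i ∈ range (2 * r), u (false, 0, (fr s)^[i] 0)

theorem tau_lf {s n : ℕ} (b : Bool) (j : Fin (n + 1)) : IsLf (tau (s := s) b j) :=
  IsLf.sum _ fun _ _ => IsLf.coord _

theorem del_lf {s n : ℕ} (r : ℕ) (j : Fin (n + 1)) : IsLf (del (s := s) r j) :=
  (IsLf.coord _).sub (IsLf.coord _)

theorem xis_lf {s n : ℕ} (r : ℕ) : IsLf (xis (s := s) (n := n) r) :=
  IsLf.sum _ fun _ _ => IsLf.coord _

/-- the quadratic part of the phases of the rotations -/
noncomputable def wRQ (s n r : ℕ) (u : Ed s n → ℝ) : ℝ :=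
  ∑ j, -2 * (del r j u * tau true j u) + -2 * (tau false 0 u * xis r u)

/-- the linear part of the phases of the rotations -/
noncomputable def wRL (s n r : ℕ) (u : Ed s n → ℝ) : ℝ :=
  ∑ j, -(2 * (s : ℝ) + 2) * del r j u + (-(2 * (r : ℝ)) * tau false 0 u +
    -(2 * (s : ℝ) + 2) * xis r u)

theorem wRQ_qf (s n r : ℕ) : IsQf (wRQ s n r) := by
  refine IsQf.add (IsQf.sum _ fun j _ => IsQf.smul _ ?_) (IsQf.smul _ ?_)
  · exact (del_lf r j).mul (tau_lf true j)
  · exact (tau_lf false 0).mul (xis_lf r)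

theorem wRL_lf (s n r : ℕ) : IsLf (wRL s n r) := by
  refine IsLf.add (IsLf.sum _ fun j _ => IsLf.smul _ (del_lf r j)) (IsLf.add (IsLf.smul _ ?_)
    (IsLf.smul _ ?_))
  · exact tau_lf false 0
  · exact xis_lf r

/-- the constant of the phases of the rotations -/
noncomputable def wka (s r N : ℕ) : ℝ :=
  2 * r * (((N : ℝ) - 1) * (2 * s + 3 + N * (s + 1))) - (2 * s + 2) * N * r

theorem tl_dev {s n r N : ℕ} (b : Bool) (j : Fin (n + 1)) (x : Ed s n → Fin N) :
    ((tl fun i => x (b, j, i) : ℕ) : ℝ) = N * (s + 1) +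
      tau b j ((weave s n r).dv N (toZ x)) := by
  unfold tau Net.dv tl toZ
  rw [Finset.sum_sub_distrib]
  have h1 : ∑ i : Fin (2 * s + 1 + 1), (N : ℝ) * (1 / 4 * (((weave s n r).rho (b, j, i) : ℤ) : ℝ)) =
      N * (s + 1) := by
    rw [sum_pairs]
    have : ∀ k : Fin (s + 1), (N : ℝ) * (1 / 4 * (((weave s n r).rho (b, j, evp k) : ℤ) : ℝ)) +
        N * (1 / 4 * (((weave s n r).rho (b, j, odp k) : ℤ) : ℝ)) = N := by
      intro k
      rw [weave_rho, weave_rho, if_pos (by simp [evp]), if_neg (by simp [odp, Nat.add_mod])]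
      push_cast
      ring
    rw [Finset.sum_congr rfl fun k _ => this k]
    simp
    ring
  rw [h1]
  push_cast
  ring

end Pool.Agent.Q191.TW
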