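import Pool.Agent.Q191.TW.Lay
import Pool.Agent.W719.BS.Bound
import Pool.Agent.W51.BS.Stir
import Pool.Agent.W51.BS.Conc
import Pool.Agent.W358.BSTay

/-!
The entries of the crossings at the root of unity: moduli, phases, bounds and limits.
-/

set_option autoImplicit false

namespace Pool.Agent.Q191.TW

open Matrix Finset Filter Topology Pool.Agent.H550R3.Jones
open Pool.Agent.W715.VC hiding LL
open Pool.Agent.W719.BS (D LL tm D_pos tm_pos tm_tendsto tm_le PP_mid PP_unif sin_ge_half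
  ratio_of_sq brf_v0)

variable {N : ℕ}

/-- phases -/
noncomputable def cs (N : ℕ) (x : ℝ) : ℂ := Complex.exp (((Real.pi * x / N : ℝ) : ℂ) * Complex.I)

theorem cs_add (N : ℕ) (x y : ℝ) : cs N (x + y) = cs N x * cs N y := by
  unfold cs
  rw [← Complex.exp_add]
  congr 1
  push_cast
  ring

theorem cs_zero (N : ℕ) : cs N 0 = 1 := by simp [cs]

theorem cs_ne (N : ℕ) (x : ℝ) : cs N x ≠ 0 := Complex.exp_ne_zero _

theorem cs_neg (N : ℕ) (x : ℝ) : cs N (-x) = (cs N x)⁻¹ := by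
  have h := cs_add N (-x) x
  rw [neg_add_cancel, cs_zero] at h
  exact eq_inv_of_mul_eq_one_left h.symm

theorem cs_norm (N : ℕ) (x : ℝ) : ‖cs N x‖ = 1 := Complex.norm_exp_ofReal_mul_I _

theorem rt_cs (N : ℕ) (k : ℤ) : rt N ^ k = cs N k := rt_zpow N k

theorem cs_period (hN : 0 < N) (x : ℝ) (k : ℤ) : cs N (x + 2 * N * k) = cs N x := by
  have h0 : (N : ℝ) ≠ 0 := by exact_mod_cast hN.ne'
  rw [cs_add]
  have : cs N (2 * N * k) = 1 := by
    unfold cs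
    have h1 : (Real.pi * (2 * N * k) / N : ℝ) = k * (2 * Real.pi) := by field_simp
    rw [h1]
    have := Complex.exp_int_mul_two_pi_mul_I k
    rw [← this]
    congr 1
    push_cast
    ring
  rw [this, mul_one]

theorem I_pow (hN : 0 < N) (n : ℕ) : Complex.I ^ n = cs N (n * N / 2) := by
  have h0 : (N : ℝ) ≠ 0 := by exact_mod_cast hN.ne'
  have h1 : cs N ((N : ℝ) / 2) = Complex.I := by
    unfold cs
    have h1 : (Real.pi * ((N : ℝ) / 2) / N : ℝ) = Real.pi / 2 := by field_simp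
    rw [h1]
    push_cast
    exact Complex.exp_pi_div_two_mul_I
  induction n with
  | zero => simp [cs_zero]
  | succ n ih =>
    rw [pow_succ, ih, ← h1, ← cs_add]
    congr 1
    push_cast
    ring

theorem tri (n : ℕ) : ((n * (n - 1) / 2 : ℕ) : ℝ) = (n : ℝ) * (n - 1) / 2 := by
  rcases n with _ | n
  · simp
  · have h : 2 ∣ (n + 1) * (n + 1 - 1) := (Nat.even_mul_pred_self (n + 1)).two_dvd
    rw [Nat.cast_div h (by norm_num)]
    push_cast
    simp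

theorem brf_rt (N n : ℕ) : brf (rt N) n = Complex.I ^ n * (D N n : ℂ) := brf_v0 N n

/-- the modulus of an entry -/
noncomputable def om (N n l1 l2 : ℕ) : ℝ := D N (n + l1) * D N (n + l2) / (D N l1 * D N l2 * D N n)

/-- the exponent of the phase of an entry of the positive crossing -/
noncomputable def EP (N a b c : ℝ) : ℝ :=
  -(N - 1) * (1 + a + b) + 2 * c * (a + b - c) + (c - b) * (c - b - 1) / 2 + (c - b) * N / 2

/-- the exponent of the phase of an entry of the negative crossing -/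
noncomputable def EQ (N a b d : ℝ) : ℝ :=
  (N - 1) * (1 + a + b) - 2 * a * b - (d - a) * (d - a - 1) / 2 - (d - a) * N / 2

theorem P_entry (hN : 0 < N) (a b c d : Fin N) (h : (c : ℕ) + d = a + b) (hbc : (b : ℕ) ≤ c) :
    PP N (c, d) (a, b) = (om N (c - b) b d : ℂ) * cs N (EP N a b c) := by
  have e1 := prod_br hN (i := (a : ℕ)) (n := (c : ℕ) - b) (by omega)
  have had : (a : ℕ) - (c - b) = d := by omega
  rw [had] at e1
  have hDb : (D N b : ℂ) ≠ 0 := by exact_mod_cast (D_pos N b b.2).ne'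
  have hDd : (D N d : ℂ) ≠ 0 := by exact_mod_cast (D_pos N d d.2).ne'
  have hDn : (D N (c - b) : ℂ) ≠ 0 := by
    exact_mod_cast (D_pos N (c - b) (by have := c.2; omega)).ne'
  have hI : ∀ n : ℕ, Complex.I ^ n ≠ 0 := fun n => pow_ne_zero _ Complex.I_ne_zero
  have h2 : ∏ t ∈ range ((c : ℕ) - b), br (rt N) ((N : ℤ) - (a : ℕ) + t) =
      Complex.I ^ ((c : ℕ) - b) * (D N a : ℂ) / D N d := by
    rw [brf_rt, brf_rt] at e1
    have ha : (a : ℕ) = d + (c - b) := by omega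
    have : Complex.I ^ (a : ℕ) = Complex.I ^ (d : ℕ) * Complex.I ^ ((c : ℕ) - b) := by
      rw [← pow_add, ← ha]
    rw [this] at e1
    rw [eq_div_iff hDd]
    have h3 := hI d
    have e2 : Complex.I ^ (d : ℕ) * ((∏ t ∈ range ((c : ℕ) - b), br (rt N) ((N : ℤ) - (a : ℕ) + t)) *
        (D N d : ℂ)) = Complex.I ^ (d : ℕ) * (Complex.I ^ ((c : ℕ) - b) * (D N a : ℂ)) := by
      linear_combination e1
    exact mul_left_cancel₀ h3 e2
  have h3 : PP N (c, d) (a, b) =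
      rt N ^ (-((N : ℤ) - 1) * (1 + (a : ℕ) + (b : ℕ)) + 2 * (c : ℕ) * (d : ℕ)) *
      rt N ^ (((c : ℕ) - b) * ((c : ℕ) - b - 1) / 2) *
      (brf (rt N) c / (brf (rt N) b * brf (rt N) ((c : ℕ) - b))) *
      ∏ t ∈ range ((c : ℕ) - b), br (rt N) ((N : ℤ) - (a : ℕ) + t) := by
    show crossP N (rt N) (c, d) (a, b) = _
    unfold crossP
    rw [if_pos ⟨h, hbc⟩]
  rw [h3, h2, ← zpow_natCast (rt N) (((c : ℕ) - b) * ((c : ℕ) - b - 1) / 2), rt_cs, rt_cs,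
    brf_rt, brf_rt, brf_rt]
  have hc : (c : ℕ) = b + (c - b) := by omega
  have h4 : Complex.I ^ (c : ℕ) = Complex.I ^ (b : ℕ) * Complex.I ^ ((c : ℕ) - b) := by
    rw [← pow_add, ← hc]
  have h5 : Complex.I ^ (c : ℕ) * (D N c : ℂ) / (Complex.I ^ (b : ℕ) * (D N b : ℂ) *
      (Complex.I ^ ((c : ℕ) - b) * (D N (c - b) : ℂ))) = (D N c : ℂ) / ((D N b : ℂ) *
      (D N (c - b) : ℂ)) := by
    rw [h4]
    have h6 := hI b
    have h7 := hI (c - b)
    field_simp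
  rw [h5, I_pow hN]
  have h8 : cs N (EP N a b c) = cs N ((-((N : ℤ) - 1) * (1 + (a : ℕ) + (b : ℕ)) +
      2 * (c : ℕ) * (d : ℕ) : ℤ) : ℝ) * cs N (((((c : ℕ) - b) * ((c : ℕ) - b - 1) / 2 : ℕ) : ℤ) : ℝ) *
      cs N ((((c : ℕ) - b : ℕ) : ℝ) * N / 2) := by
    rw [← cs_add, ← cs_add]
    congr 1
    have h9 : (((((c : ℕ) - b) * ((c : ℕ) - b - 1) / 2 : ℕ) : ℤ) : ℝ) =
        (((c : ℕ) - b : ℕ) : ℝ) * ((((c : ℕ) - b : ℕ) : ℝ) - 1) / 2 := by
      rw [← tri]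
      norm_cast
    rw [h9]
    have h10 : ((d : ℕ) : ℝ) = (a : ℕ) + (b : ℕ) - (c : ℕ) := by
      have : ((c : ℕ) : ℝ) + (d : ℕ) = (a : ℕ) + (b : ℕ) := by exact_mod_cast h
      linarith
    unfold EP
    push_cast [Nat.cast_sub hbc]
    rw [h10]
  rw [h8]
  unfold om
  have h11 : (c : ℕ) - b + b = c := by omega
  have h12 : (c : ℕ) - b + d = a := by omega
  rw [h11, h12]
  push_cast
  field_simp

theorem Q_entry (hN : 0 < N) (a b c d : Fin N) (h : (c : ℕ) + d = a + b) (had : (a : ℕ) ≤ d) :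
    QQ N (c, d) (a, b) = (om N (d - a) a c : ℂ) * cs N (EQ N a b d) := by
  have e1 := prod_br hN (i := (b : ℕ)) (n := (d : ℕ) - a) (by omega)
  have hbc : (b : ℕ) - (d - a) = c := by omega
  rw [hbc] at e1
  have hDa : (D N a : ℂ) ≠ 0 := by exact_mod_cast (D_pos N a a.2).ne'
  have hDc : (D N c : ℂ) ≠ 0 := by exact_mod_cast (D_pos N c c.2).ne'
  have hDn : (D N (d - a) : ℂ) ≠ 0 := by
    exact_mod_cast (D_pos N (d - a) (by have := d.2; omega)).ne'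
  have hI : ∀ n : ℕ, Complex.I ^ n ≠ 0 := fun n => pow_ne_zero _ Complex.I_ne_zero
  have h2 : ∏ t ∈ range ((d : ℕ) - a), br (rt N) ((N : ℤ) - (b : ℕ) + t) =
      Complex.I ^ ((d : ℕ) - a) * (D N b : ℂ) / D N c := by
    rw [brf_rt, brf_rt] at e1
    have hb : (b : ℕ) = c + (d - a) := by omega
    have : Complex.I ^ (b : ℕ) = Complex.I ^ (c : ℕ) * Complex.I ^ ((d : ℕ) - a) := by
      rw [← pow_add, ← hb]
    rw [this] at e1
    rw [eq_div_iff hDc]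
    have h3 := hI c
    have e2 : Complex.I ^ (c : ℕ) * ((∏ t ∈ range ((d : ℕ) - a), br (rt N) ((N : ℤ) - (b : ℕ) + t)) *
        (D N c : ℂ)) = Complex.I ^ (c : ℕ) * (Complex.I ^ ((d : ℕ) - a) * (D N b : ℂ)) := by
      linear_combination e1
    exact mul_left_cancel₀ h3 e2
  have h3 : QQ N (c, d) (a, b) = (-1) ^ ((d : ℕ) - a) *
      rt N ^ (((N : ℤ) - 1) * (1 + (a : ℕ) + (b : ℕ)) - 2 * (a : ℕ) * (b : ℕ)) /
      rt N ^ (((d : ℕ) - a) * ((d : ℕ) - a - 1) / 2) *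
      (brf (rt N) d / (brf (rt N) a * brf (rt N) ((d : ℕ) - a))) *
      ∏ t ∈ range ((d : ℕ) - a), br (rt N) ((N : ℤ) - (b : ℕ) + t) := by
    show crossN N (rt N) (c, d) (a, b) = _
    unfold crossN
    rw [if_pos ⟨h, had⟩]
  rw [h3, h2, ← zpow_natCast (rt N) (((d : ℕ) - a) * ((d : ℕ) - a - 1) / 2), rt_cs, rt_cs,
    brf_rt, brf_rt, brf_rt]
  have hd : (d : ℕ) = a + (d - a) := by omega
  have h4 : Complex.I ^ (d : ℕ) = Complex.I ^ (a : ℕ) * Complex.I ^ ((d : ℕ) - a) := by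
    rw [← pow_add, ← hd]
  have h5 : Complex.I ^ (d : ℕ) * (D N d : ℂ) / (Complex.I ^ (a : ℕ) * (D N a : ℂ) *
      (Complex.I ^ ((d : ℕ) - a) * (D N (d - a) : ℂ))) = (D N d : ℂ) / ((D N a : ℂ) *
      (D N (d - a) : ℂ)) := by
    rw [h4]
    have h6 := hI a
    have h7 := hI (d - a)
    field_simp
  have h6 : ((-1 : ℂ)) ^ ((d : ℕ) - a) * Complex.I ^ ((d : ℕ) - a) =
      cs N (-((((d : ℕ) - a : ℕ) : ℝ) * N / 2)) := by
    rw [cs_neg, ← I_pow hN, ← mul_pow, ← inv_pow]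
    congr 1
    rw [Complex.inv_I]
    ring
  rw [h5]
  have h8 : cs N (EQ N a b d) = cs N ((((N : ℤ) - 1) * (1 + (a : ℕ) + (b : ℕ)) -
      2 * (a : ℕ) * (b : ℕ) : ℤ) : ℝ) *
      (cs N (((((d : ℕ) - a) * ((d : ℕ) - a - 1) / 2 : ℕ) : ℤ) : ℝ))⁻¹ *
      cs N (-((((d : ℕ) - a : ℕ) : ℝ) * N / 2)) := by
    rw [← cs_neg, ← cs_add, ← cs_add]
    congr 1
    have h9 : (((((d : ℕ) - a) * ((d : ℕ) - a - 1) / 2 : ℕ) : ℤ) : ℝ) =
        (((d : ℕ) - a : ℕ) : ℝ) * ((((d : ℕ) - a : ℕ) : ℝ) - 1) / 2 := by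
      rw [← tri]
      norm_cast
    rw [h9]
    unfold EQ
    push_cast [Nat.cast_sub had]
    ring
  rw [h8, ← h6]
  unfold om
  have h11 : (d : ℕ) - a + a = d := by omega
  have h12 : (d : ℕ) - a + c = b := by omega
  rw [h11, h12]
  have h13 := cs_ne N (((((d : ℕ) - a) * ((d : ℕ) - a - 1) / 2 : ℕ) : ℤ) : ℝ)
  push_cast
  field_simp

/-! ### the moduli -/

theorem om_pos {n l1 l2 : ℕ} (h1 : n + l1 < N) (h2 : n + l2 < N) : 0 < om N n l1 l2 := by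
  have a1 := D_pos N (n + l1) h1
  have a2 := D_pos N (n + l2) h2
  have a3 := D_pos N l1 (by omega)
  have a4 := D_pos N l2 (by omega)
  have a5 := D_pos N n (by omega)
  unfold om
  positivity

/-- the scale -/
noncomputable def sca (N : ℕ) : ℝ := √N * Real.exp (-(4 * N * LL (3 / 4)))

theorem om_sq {n l1 l2 : ℕ} (h1 : n + l1 < N) (h2 : n + l2 < N) : (sca N * om N n l1 l2) ^ 2 =
    (√N * tm N n l1 * Real.exp (-(4 * N * LL (3 / 4)))) *
      (√N * tm N n l2 * Real.exp (-(4 * N * LL (3 / 4)))) := by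
  have a3 := (D_pos N l1 (by omega)).ne'
  have a4 := (D_pos N l2 (by omega)).ne'
  have a5 := (D_pos N n (by omega)).ne'
  unfold sca om tm
  field_simp

theorem sca_nonneg (N : ℕ) : 0 ≤ sca N := by unfold sca; positivity

theorem om_tendsto (n l1 l2 : ℕ → ℕ) (t r1 r2 : ℝ)
    (hn : Tendsto (fun N : ℕ => ((n N : ℝ) - 1 / 2 * N) / √N) atTop (𝓝 t))
    (h1 : Tendsto (fun N : ℕ => ((l1 N : ℝ) - 1 / 4 * N) / √N) atTop (𝓝 r1))
    (h2 : Tendsto (fun N : ℕ => ((l2 N : ℝ) - 1 / 4 * N) / √N) atTop (𝓝 r2)) :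
    Tendsto (fun N : ℕ => √2 * (sca N * om N (n N) (l1 N) (l2 N))) atTop
      (𝓝 (Real.exp (-(Real.pi / 2) * ((t + r1) ^ 2 + r1 ^ 2 + (t + r2) ^ 2 + r2 ^ 2)))) := by
  have T1 := tm_tendsto Pool.Agent.W51.BS.task_stir Pool.Agent.W358.BSTay.tay n l1 t r1 hn h1
  have T2 := tm_tendsto Pool.Agent.W51.BS.task_stir Pool.Agent.W358.BSTay.tay n l2 t r2 hn h2
  have T := ((T1.mul T2).sqrt).const_mul (√2)
  have s2 : (0 : ℝ) < √2 := by positivity
  have ss : √(2 : ℝ) * √2 = 2 := Real.mul_self_sqrt (by norm_num)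
  have e1 : √2 * √(1 / √2 * Real.exp (-Real.pi * (t + r1) ^ 2 - Real.pi * r1 ^ 2) *
      (1 / √2 * Real.exp (-Real.pi * (t + r2) ^ 2 - Real.pi * r2 ^ 2))) =
      Real.exp (-(Real.pi / 2) * ((t + r1) ^ 2 + r1 ^ 2 + (t + r2) ^ 2 + r2 ^ 2)) := by
    have h3 : 1 / √2 * Real.exp (-Real.pi * (t + r1) ^ 2 - Real.pi * r1 ^ 2) *
      (1 / √2 * Real.exp (-Real.pi * (t + r2) ^ 2 - Real.pi * r2 ^ 2)) =
      (1 / √2 * Real.exp (-(Real.pi / 2) * ((t + r1) ^ 2 + r1 ^ 2 + (t + r2) ^ 2 + r2 ^ 2))) ^ 2 := by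
      have h4 : Real.exp (-Real.pi * (t + r1) ^ 2 - Real.pi * r1 ^ 2) *
          Real.exp (-Real.pi * (t + r2) ^ 2 - Real.pi * r2 ^ 2) =
          Real.exp (-(Real.pi / 2) * ((t + r1) ^ 2 + r1 ^ 2 + (t + r2) ^ 2 + r2 ^ 2)) ^ 2 := by
        rw [← Real.exp_add, ← Real.exp_nat_mul]
        congr 1
        push_cast
        ring
      rw [mul_pow, ← h4]
      ring
    rw [h3, Real.sqrt_sq (by positivity)]
    field_simp
  rw [e1] at T
  refine T.congr' ?_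
  have hnr := ratio_of_sq _ _ _ hn
  have h1r := ratio_of_sq _ _ _ h1
  have h2r := ratio_of_sq _ _ _ h2
  have E1 := (hnr.add h1r).eventually (eventually_lt_nhds (show (1 / 2 + 1 / 4 : ℝ) < 1 by norm_num))
  have E2 := (hnr.add h2r).eventually (eventually_lt_nhds (show (1 / 2 + 1 / 4 : ℝ) < 1 by norm_num))
  filter_upwards [E1, E2, eventually_ge_atTop 1] with N e1 e2 hN
  have hN0 : (0 : ℝ) < N := by exact_mod_cast hN
  have f1 : n N + l1 N < N := by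
    rw [← add_div, div_lt_iff₀ hN0, one_mul] at e1
    exact_mod_cast e1
  have f2 : n N + l2 N < N := by
    rw [← add_div, div_lt_iff₀ hN0, one_mul] at e2
    exact_mod_cast e2
  rw [← om_sq f1 f2, Real.sqrt_sq (mul_nonneg (sca_nonneg N) (om_pos f1 f2).le)]

theorem far_aux (N n : ℝ) (hN : 0 < N) (h : n < 1 / 4 * N ∨ 3 / 4 * N < n) :
    N / 16 ≤ (n - N / 2) ^ 2 / N := by
  rw [le_div_iff₀ hN]
  rcases h with h | h
  · nlinarith
  · nlinarith

theorem div_aux (N T : ℝ) (hN : 0 < N) (h : T ≤ 4 * N ^ 2) : T / N ≤ 4 * N := by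
  rw [div_le_iff₀ hN]
  linarith

theorem om_le : ∃ C : ℝ, 0 ≤ C ∧ ∃ N₀ : ℕ, ∀ N : ℕ, N₀ ≤ N → ∀ n l1 l2 : ℕ, n + l1 < N →
    n + l2 < N → sca N * om N n l1 l2 ≤ C * Real.exp (-(Real.pi / 256) *
      ((((n + l1 : ℕ) : ℝ) - 3 / 4 * N) ^ 2 + ((l1 : ℝ) - 1 / 4 * N) ^ 2 +
        (((n + l2 : ℕ) : ℝ) - 3 / 4 * N) ^ 2 + ((l2 : ℝ) - 1 / 4 * N) ^ 2) / N) := by
  obtain ⟨C, hC⟩ := tm_le Pool.Agent.W51.BS.task_stir Pool.Agent.W51.BS.task_conc
  obtain ⟨N₁, hN₁⟩ := PP_unif (Real.pi / 128) (by positivity)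
  have hpi := Real.pi_pos
  refine ⟨|C| * Real.exp (Real.pi / 2), by positivity, N₁ + 6, fun N hN n l1 l2 h1 h2 => ?_⟩
  have hN0 : (0 : ℝ) < N := by exact_mod_cast (by omega : 0 < N)
  have hom := om_pos h1 h2
  have hnN : (n : ℝ) + l1 + 1 ≤ N := by exact_mod_cast h1
  have hnN2 : (n : ℝ) + l2 + 1 ≤ N := by exact_mod_cast h2
  have hn0 : (0 : ℝ) ≤ n := by positivity
  have hl1 : (0 : ℝ) ≤ l1 := by positivity
  have hl2 : (0 : ℝ) ≤ l2 := by positivity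
  set T : ℝ := (((n + l1 : ℕ) : ℝ) - 3 / 4 * N) ^ 2 + ((l1 : ℝ) - 1 / 4 * N) ^ 2 +
        (((n + l2 : ℕ) : ℝ) - 3 / 4 * N) ^ 2 + ((l2 : ℝ) - 1 / 4 * N) ^ 2 with hT
  refine (pow_le_pow_iff_left₀ (mul_nonneg (sca_nonneg N) hom.le) (by positivity)
    (two_ne_zero)).1 ?_
  rw [om_sq h1 h2]
  have t1 := hC N n l1 h1
  have t2 := hC N n l2 h2
  have p1 : 0 ≤ √N * tm N n l1 * Real.exp (-(4 * N * LL (3 / 4))) := by
    have := tm_pos N n l1 h1
    positivity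
  have p2 : 0 ≤ √N * tm N n l2 * Real.exp (-(4 * N * LL (3 / 4))) := by
    have := tm_pos N n l2 h2
    positivity
  set e1 : ℝ := -(Real.pi / 2) * ((n - N / 2) ^ 2 / N) -
        Real.pi * Real.sin (Real.pi * (n / N)) * ((l1 + 1 / 2 - (N - n) / 2) ^ 2 / N) +
        Pool.Agent.W719.BS.PP N n with he1
  set e2 : ℝ := -(Real.pi / 2) * ((n - N / 2) ^ 2 / N) -
        Real.pi * Real.sin (Real.pi * (n / N)) * ((l2 + 1 / 2 - (N - n) / 2) ^ 2 / N) +
        Pool.Agent.W719.BS.PP N n with he2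
  have q1 : √N * tm N n l1 * Real.exp (-(4 * N * LL (3 / 4))) ≤ |C| * Real.exp e1 :=
    t1.trans (mul_le_mul_of_nonneg_right (le_abs_self C) (Real.exp_pos _).le)
  have q2 : √N * tm N n l2 * Real.exp (-(4 * N * LL (3 / 4))) ≤ |C| * Real.exp e2 :=
    t2.trans (mul_le_mul_of_nonneg_right (le_abs_self C) (Real.exp_pos _).le)
  have q3 := mul_le_mul q1 q2 p2 (by positivity)
  refine q3.trans ?_
  have e3 : |C| * Real.exp e1 * (|C| * Real.exp e2) = |C| ^ 2 * Real.exp (e1 + e2) := by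
    rw [Real.exp_add e1 e2]; ring
  have e4 : (|C| * Real.exp (Real.pi / 2) * Real.exp (-(Real.pi / 256) * T / N)) ^ 2 =
      |C| ^ 2 * Real.exp (Real.pi + -(Real.pi / 128) * (T / N)) := by
    rw [mul_pow, mul_pow, sq (Real.exp (Real.pi / 2)), sq (Real.exp (-(Real.pi / 256) * T / N)),
      ← Real.exp_add, ← Real.exp_add, mul_assoc, ← Real.exp_add]
    congr 2
    ring
  rw [e3, e4]
  refine mul_le_mul_of_nonneg_left (Real.exp_le_exp.2 ?_) (by positivity)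
  -- the exponents
  have hT2 : T = ((n : ℝ) + l1 - 3 / 4 * N) ^ 2 + ((l1 : ℝ) - 1 / 4 * N) ^ 2 +
        ((n : ℝ) + l2 - 3 / 4 * N) ^ 2 + ((l2 : ℝ) - 1 / 4 * N) ^ 2 := by
    rw [hT]; push_cast; ring
  by_cases hmid : (1 : ℝ) / 4 ≤ n / N ∧ (n : ℝ) / N ≤ 3 / 4
  · have hsin := sin_ge_half _ hmid.1 hmid.2
    have hPP := PP_mid N n (by omega) hmid.1 hmid.2
    have a1 : 0 ≤ (l1 + 1 / 2 - ((N : ℝ) - n) / 2) ^ 2 / N := by positivity
    have a2 : 0 ≤ (l2 + 1 / 2 - ((N : ℝ) - n) / 2) ^ 2 / N := by positivity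
    have b1 : Real.pi * (1 / 2) * ((l1 + 1 / 2 - ((N : ℝ) - n) / 2) ^ 2 / N) ≤
        Real.pi * Real.sin (Real.pi * (n / N)) * ((l1 + 1 / 2 - ((N : ℝ) - n) / 2) ^ 2 / N) :=
      mul_le_mul_of_nonneg_right (mul_le_mul_of_nonneg_left hsin hpi.le) a1
    have b2 : Real.pi * (1 / 2) * ((l2 + 1 / 2 - ((N : ℝ) - n) / 2) ^ 2 / N) ≤
        Real.pi * Real.sin (Real.pi * (n / N)) * ((l2 + 1 / 2 - ((N : ℝ) - n) / 2) ^ 2 / N) :=
      mul_le_mul_of_nonneg_right (mul_le_mul_of_nonneg_left hsin hpi.le) a2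
    have key : (Real.pi / 128) * T ≤ Real.pi * N + Real.pi * (n - N / 2) ^ 2 +
        Real.pi * (1 / 2) * (l1 + 1 / 2 - ((N : ℝ) - n) / 2) ^ 2 +
        Real.pi * (1 / 2) * (l2 + 1 / 2 - ((N : ℝ) - n) / 2) ^ 2 := by
      have hN6 : (6 : ℝ) ≤ N := by exact_mod_cast (by omega : 6 ≤ N)
      have : (1 / 128) * T ≤ N + ((n : ℝ) - N / 2) ^ 2 +
        (1 / 2) * (l1 + 1 / 2 - ((N : ℝ) - n) / 2) ^ 2 +
        (1 / 2) * (l2 + 1 / 2 - ((N : ℝ) - n) / 2) ^ 2 := by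
        have hT5 : T = ((n : ℝ) - N / 2) ^ 2 + 2 * (l1 + 1 / 2 - ((N : ℝ) - n) / 2 - 1 / 2) ^ 2 +
            2 * (l2 + 1 / 2 - ((N : ℝ) - n) / 2 - 1 / 2) ^ 2 := by
          rw [hT2]; ring
        have g0 := sq_nonneg ((n : ℝ) - N / 2)
        have g1 : 2 * (l1 + 1 / 2 - ((N : ℝ) - n) / 2 - 1 / 2) ^ 2 ≤
            4 * (l1 + 1 / 2 - ((N : ℝ) - n) / 2) ^ 2 + 1 := by
          linarith [sq_nonneg (l1 + 1 / 2 - ((N : ℝ) - n) / 2 + 1 / 2)]
        have g2 : 2 * (l2 + 1 / 2 - ((N : ℝ) - n) / 2 - 1 / 2) ^ 2 ≤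
            4 * (l2 + 1 / 2 - ((N : ℝ) - n) / 2) ^ 2 + 1 := by
          linarith [sq_nonneg (l2 + 1 / 2 - ((N : ℝ) - n) / 2 + 1 / 2)]
        have g3 := sq_nonneg (l1 + 1 / 2 - ((N : ℝ) - n) / 2)
        have g4 := sq_nonneg (l2 + 1 / 2 - ((N : ℝ) - n) / 2)
        rw [hT5]
        linarith
      have := mul_le_mul_of_nonneg_left this hpi.le
      linarith
    have key2 : (Real.pi / 128) * (T / N) ≤ Real.pi + Real.pi * ((n - N / 2) ^ 2 / N) +
        Real.pi * (1 / 2) * ((l1 + 1 / 2 - ((N : ℝ) - n) / 2) ^ 2 / N) +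
        Real.pi * (1 / 2) * ((l2 + 1 / 2 - ((N : ℝ) - n) / 2) ^ 2 / N) := by
      have := div_le_div_of_nonneg_right key hN0.le
      calc (Real.pi / 128) * (T / N) = (Real.pi / 128) * T / N := by ring
        _ ≤ _ := this
        _ = _ := by field_simp
    rw [he1, he2]
    linarith
  · have hPP := hN₁ N (by omega) n (by omega)
    have hnn2 : (N : ℝ) / 16 ≤ (n - N / 2) ^ 2 / N := by
      apply far_aux _ _ hN0
      rcases not_and_or.1 hmid with h | h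
      · rw [not_le, div_lt_iff₀ hN0] at h
        exact Or.inl h
      · rw [not_le, lt_div_iff₀ hN0] at h
        exact Or.inr h
    have hsin : 0 ≤ Real.sin (Real.pi * (n / N)) := by
      apply Real.sin_nonneg_of_nonneg_of_le_pi
      · positivity
      · have : (n : ℝ) / N ≤ 1 := by rw [div_le_one hN0]; linarith
        exact mul_le_of_le_one_right hpi.le this
    have a1 : 0 ≤ Real.pi * Real.sin (Real.pi * (n / N)) *
        ((l1 + 1 / 2 - ((N : ℝ) - n) / 2) ^ 2 / N) := by positivity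
    have a2 : 0 ≤ Real.pi * Real.sin (Real.pi * (n / N)) *
        ((l2 + 1 / 2 - ((N : ℝ) - n) / 2) ^ 2 / N) := by positivity
    have hT3 : T ≤ 4 * N ^ 2 := by
      rw [hT2]
      have c1 : ((n : ℝ) + l1 - 3 / 4 * N) ^ 2 ≤ N ^ 2 := by
        apply sq_le_sq'
        · linarith
        · linarith
      have c2 : ((n : ℝ) + l2 - 3 / 4 * N) ^ 2 ≤ N ^ 2 := by
        apply sq_le_sq'
        · linarith
        · linarith
      have c3 : ((l1 : ℝ) - 1 / 4 * N) ^ 2 ≤ N ^ 2 := by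
        apply sq_le_sq'
        · linarith
        · linarith
      have c4 : ((l2 : ℝ) - 1 / 4 * N) ^ 2 ≤ N ^ 2 := by
        apply sq_le_sq'
        · linarith
        · linarith
      linarith
    have hT4 : T / N ≤ 4 * N := div_aux _ _ hN0 hT3
    have c5 : Real.pi / 128 * (T / N) ≤ Real.pi / 128 * (4 * N) :=
      mul_le_mul_of_nonneg_left hT4 (by positivity)
    have c6 : Real.pi * ((N : ℝ) / 16) ≤ Real.pi * ((n - N / 2) ^ 2 / N) :=
      mul_le_mul_of_nonneg_left hnn2 hpi.le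
    have c7 : 0 ≤ Real.pi * N := by positivity
    rw [he1, he2]
    linarith

end Pool.Agent.Q191.TW
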